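import Pool.Agent.H617_HM.U2

/-!
# Green's formula in the unit disc for continuous Sobolev functions
-/

set_option autoImplicit false

open MeasureTheory Filter Topology Set
open scoped ContDiff Real

namespace Pool.Agent.H617_HM

open Pool.Agent.Helper985.VR

theorem dt_zero' {s : ℝ} (hs : s ≤ 0) : dt s = 0 := by
  have h1 : ∀ x ∈ Iio (0:ℝ), dt x = 0 := by
    intro x hx
    rw [← (dt_hasDerivAt x).deriv]
    have h2 : Real.smoothTransition =ᶠ[𝓝 x] fun _ => (0:ℝ) := by
      filter_upwards [Iio_mem_nhds hx] with y hy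
      exact Real.smoothTransition.zero_of_nonpos (le_of_lt hy)
    rw [h2.deriv_eq]; simp
  have h2 : closure (Iio (0:ℝ)) ⊆ {x | dt x = 0} :=
    closure_minimal h1 (isClosed_eq dt_continuous continuous_const)
  rw [closure_Iio] at h2
  exact h2 hs

/-- radial smooth cutoff functions -/
noncomputable def ct (n : ℕ) (z : ℂ) : ℝ :=
  Real.smoothTransition (((n:ℝ) + 1) * (1 - sqd 0 z))

theorem sqd_zero_norm (z : ℂ) : sqd 0 z = ‖z‖ ^ 2 := by rw [sqd_eq, sub_zero]

theorem ct_contDiff (n : ℕ) : ContDiff ℝ ∞ (ct n) := by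
  have h1 : ContDiff ℝ ∞ fun w : ℂ => w.re := Complex.reCLM.contDiff
  have h2 : ContDiff ℝ ∞ fun w : ℂ => w.im := Complex.imCLM.contDiff
  have h3 : ContDiff ℝ ∞ fun z : ℂ => ((n:ℝ) + 1) * (1 - sqd 0 z) :=
    contDiff_const.mul (contDiff_const.sub
      (((h1.sub contDiff_const).pow 2).add ((h2.sub contDiff_const).pow 2)))
  exact Real.smoothTransition.contDiff.comp h3

theorem ct_zero (n : ℕ) {z : ℂ} (hz : 1 ≤ ‖z‖) : ct n z = 0 := by
  apply Real.smoothTransition.zero_of_nonpos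
  have h1 : (1:ℝ) ≤ sqd 0 z := by rw [sqd_zero_norm]; nlinarith
  have h2 : (0:ℝ) ≤ n := Nat.cast_nonneg n
  nlinarith

theorem ct_support (n : ℕ) : HasCompactSupport (ct n) := by
  refine HasCompactSupport.intro (isCompact_closedBall (0:ℂ) 1) fun z hz => ?_
  rw [mem_closedBall_zero_iff, not_le] at hz
  exact ct_zero n hz.le

theorem ct_tendsto {z : ℂ} (hz : ‖z‖ < 1) : Tendsto (fun n => ct n z) atTop (𝓝 1) := by
  have h1 : 0 < 1 - sqd 0 z := by
    rw [sqd_zero_norm]; have := norm_nonneg z; nlinarith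
  obtain ⟨N, hN⟩ := exists_nat_gt (1 / (1 - sqd 0 z))
  refine tendsto_const_nhds.congr' ?_
  filter_upwards [eventually_ge_atTop N] with n hn
  symm
  apply Real.smoothTransition.one_of_one_le
  have h2 : (N:ℝ) ≤ n := by exact_mod_cast hn
  rw [div_lt_iff₀ h1] at hN
  nlinarith

theorem ct_fderiv (n : ℕ) (z v : ℂ) : fderiv ℝ (ct n) z v =
    -(dt (((n:ℝ) + 1) * (1 - ‖z‖ ^ 2)) * (2 * ((n:ℝ) + 1)) * (z.re * v.re + z.im * v.im)) := by
  have h1 := sqd_hasFDerivAt 0 z 1
  have h2 := (h1.const_sub 1).const_mul ((n:ℝ) + 1)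
  have h3 := (dt_hasDerivAt (((n:ℝ) + 1) * (1 - sqd 0 z / 1 ^ 2))).comp_hasFDerivAt z h2
  have e : ct n = Real.smoothTransition ∘ fun y => ((n:ℝ) + 1) * (1 - sqd 0 y / 1 ^ 2) := by
    ext y; simp [ct]
  rw [e, h3.fderiv]
  rw [sqd_zero_norm]
  simp
  ring

theorem ct_kernel_int (n : ℕ) : ∫ r in (0:ℝ)..1, dt (((n:ℝ) + 1) * (1 - r ^ 2)) *
    (2 * ((n:ℝ) + 1)) * r = 1 := by
  have hd : ∀ r : ℝ, HasDerivAt (fun r : ℝ => - Real.smoothTransition (((n:ℝ) + 1) * (1 - r ^ 2)))
      (dt (((n:ℝ) + 1) * (1 - r ^ 2)) * (2 * ((n:ℝ) + 1)) * r) r := by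
    intro r
    have h1 : HasDerivAt (fun r : ℝ => ((n:ℝ) + 1) * (1 - r ^ 2)) (((n:ℝ) + 1) * (-(2 * r))) r := by
      have := ((hasDerivAt_pow 2 r).const_sub 1).const_mul ((n:ℝ) + 1)
      simpa using this
    have h2 := ((dt_hasDerivAt _).comp r h1).neg
    refine h2.congr_deriv ?_
    ring
  have hc : Continuous fun r : ℝ => dt (((n:ℝ) + 1) * (1 - r ^ 2)) * (2 * ((n:ℝ) + 1)) * r :=
    ((dt_continuous.comp (by fun_prop)).mul continuous_const).mul continuous_id
  rw [intervalIntegral.integral_eq_sub_of_hasDerivAt (fun r _ => hd r) (hc.intervalIntegrable _ _)]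
  have h2 : (0:ℝ) ≤ n := Nat.cast_nonneg n
  rw [Real.smoothTransition.zero_of_nonpos (by norm_num),
    Real.smoothTransition.one_of_one_le (by norm_num)]
  norm_num

/-- the kernels concentrate at `1` -/
theorem ct_kernel_tendsto {G : ℝ → ℝ} (hG : Continuous G) :
    Tendsto (fun n : ℕ => ∫ r in (0:ℝ)..1, dt (((n:ℝ) + 1) * (1 - r ^ 2)) *
      (2 * ((n:ℝ) + 1)) * r * G r) atTop (𝓝 (G 1)) := by
  rw [Metric.tendsto_atTop]
  intro ε hε
  obtain ⟨δ, hδ, hGδ⟩ := Metric.continuous_iff.1 hG 1 (ε / 2) (by positivity)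
  obtain ⟨N, hN⟩ := exists_nat_gt (1 / δ)
  refine ⟨N, fun n hn => ?_⟩
  have hc : Continuous fun r : ℝ => dt (((n:ℝ) + 1) * (1 - r ^ 2)) * (2 * ((n:ℝ) + 1)) * r :=
    ((dt_continuous.comp (by fun_prop)).mul continuous_const).mul continuous_id
  have h1 : (∫ r in (0:ℝ)..1, dt (((n:ℝ) + 1) * (1 - r ^ 2)) * (2 * ((n:ℝ) + 1)) * r * G r) - G 1 =
      ∫ r in (0:ℝ)..1, dt (((n:ℝ) + 1) * (1 - r ^ 2)) * (2 * ((n:ℝ) + 1)) * r * (G r - G 1) := by
    have h2 : G 1 = ∫ r in (0:ℝ)..1, dt (((n:ℝ) + 1) * (1 - r ^ 2)) * (2 * ((n:ℝ) + 1)) * r * G 1 := by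
      rw [intervalIntegral.integral_mul_const, ct_kernel_int n, one_mul]
    conv_lhs => rw [h2]
    have i1 : IntervalIntegrable (fun r : ℝ => dt (((n:ℝ) + 1) * (1 - r ^ 2)) *
      (2 * ((n:ℝ) + 1)) * r * G r) volume 0 1 := (hc.mul hG).intervalIntegrable _ _
    have i2 : IntervalIntegrable (fun r : ℝ => dt (((n:ℝ) + 1) * (1 - r ^ 2)) *
      (2 * ((n:ℝ) + 1)) * r * G 1) volume 0 1 :=
      (hc.mul continuous_const).intervalIntegrable _ _
    rw [← intervalIntegral.integral_sub i1 i2]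
    congr 1; ext r; ring
  rw [Real.dist_eq, h1]
  have h3 : |∫ r in (0:ℝ)..1, dt (((n:ℝ) + 1) * (1 - r ^ 2)) * (2 * ((n:ℝ) + 1)) * r *
      (G r - G 1)| ≤ ∫ r in (0:ℝ)..1, dt (((n:ℝ) + 1) * (1 - r ^ 2)) * (2 * ((n:ℝ) + 1)) * r *
      (ε / 2) := by
    have h4 := intervalIntegral.norm_integral_le_of_norm_le (μ := volume) (a := (0:ℝ)) (b := 1)
      (f := fun r => dt (((n:ℝ) + 1) * (1 - r ^ 2)) * (2 * ((n:ℝ) + 1)) * r * (G r - G 1))
      (g := fun r => dt (((n:ℝ) + 1) * (1 - r ^ 2)) * (2 * ((n:ℝ) + 1)) * r * (ε / 2))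
      zero_le_one ?_ ((hc.mul continuous_const).intervalIntegrable _ _)
    · exact h4
    · filter_upwards with r hr
      rw [Real.norm_eq_abs, abs_mul]
      have hn0 : (0:ℝ) ≤ n := Nat.cast_nonneg n
      have h5 : 0 ≤ dt (((n:ℝ) + 1) * (1 - r ^ 2)) * (2 * ((n:ℝ) + 1)) * r :=
        mul_nonneg (mul_nonneg (dt_nonneg _) (by positivity)) hr.1.le
      rw [abs_of_nonneg h5]
      rcases le_or_gt 1 (((n:ℝ) + 1) * (1 - r ^ 2)) with h6 | h6
      · rw [dt_zero h6]; simp
      · refine mul_le_mul_of_nonneg_left ?_ h5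
        have h7 : dist r 1 < δ := by
          rw [Real.dist_eq, abs_of_nonpos (by linarith [hr.2])]
          have h8 : (N:ℝ) ≤ n := by exact_mod_cast hn
          rw [div_lt_iff₀ hδ] at hN
          have h9 : 1 - r ≤ 1 - r ^ 2 := by nlinarith [hr.1, hr.2]
          by_contra h10
          push Not at h10
          have h11 : δ ≤ 1 - r ^ 2 := by linarith
          have h12 : ((n:ℝ) + 1) * δ ≤ ((n:ℝ) + 1) * (1 - r ^ 2) := by gcongr
          nlinarith
        exact (hGδ r h7).le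
  rw [intervalIntegral.integral_mul_const, ct_kernel_int n, one_mul] at h3
  linarith

/-- the point of the unit circle with angle `θ` -/
noncomputable def ce (θ : ℝ) : ℂ := Real.cos θ + Real.sin θ * Complex.I

theorem ce_continuous : Continuous ce := by unfold ce; fun_prop

theorem ce_re (θ : ℝ) : (ce θ).re = Real.cos θ := by
  simp [ce, -Complex.ofReal_cos, -Complex.ofReal_sin]
theorem ce_im (θ : ℝ) : (ce θ).im = Real.sin θ := by
  simp [ce, -Complex.ofReal_cos, -Complex.ofReal_sin]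

theorem ce_norm (θ : ℝ) : ‖ce θ‖ = 1 := by
  have h : ‖ce θ‖ ^ 2 = 1 := by
    rw [Complex.sq_norm, Complex.normSq_apply, ce_re, ce_im]
    have := Real.sin_sq_add_cos_sq θ
    nlinarith
  have h2 := norm_nonneg (ce θ)
  nlinarith

/-- Green's formula -/
theorem green_dir {Φ Φv : ℂ → ℝ} {v : ℂ} (hv : L2 Φv) (hw : WD v Φ Φv)
    (hc : Continuous Φ) :
    ∫ z in Metric.ball (0:ℂ) 1, Φv z =
      ∫ θ in (-π)..π, Φ (ce θ) * (Real.cos θ * v.re + Real.sin θ * v.im) := by
  have hπ := Real.pi_pos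
  set J : ℝ → ℝ := fun r => ∫ θ in (-π)..π, Φ (r * ce θ) * (Real.cos θ * v.re + Real.sin θ * v.im)
    with hJ
  have hJc : Continuous J := by
    refine intervalIntegral.continuous_parametric_intervalIntegral_of_continuous' ?_ _ _
    have h1 := ce_continuous
    have h2 : Continuous fun p : ℝ × ℝ => Φ ((p.1:ℂ) * ce p.2) :=
      hc.comp ((Complex.continuous_ofReal.comp continuous_fst).mul (h1.comp continuous_snd))
    exact h2.mul (by fun_prop)
  have hL : Tendsto (fun n : ℕ => ∫ z, Φv z * ct n z) atTop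
      (𝓝 (∫ z, (Metric.ball (0:ℂ) 1).indicator Φv z)) := by
    have hi : Integrable ((Metric.ball (0:ℂ) 1).indicator Φv) := by
      rw [integrable_indicator_iff Metric.isOpen_ball.measurableSet]
      have h1 : MemLp Φv 2 (volume.restrict (Metric.ball (0:ℂ) 1)) := hv.memLp.restrict _
      have : IsFiniteMeasure (volume.restrict (Metric.ball (0:ℂ) 1)) :=
        ⟨by rw [Measure.restrict_apply_univ]; exact measure_ball_lt_top⟩
      exact h1.integrable (by norm_num)
    refine tendsto_integral_of_dominated_convergence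
      (fun z => |(Metric.ball (0:ℂ) 1).indicator Φv z|) ?_ hi.abs ?_ ?_
    · intro n
      exact (hv.1.mul (ct_contDiff n).continuous.measurable).aestronglyMeasurable
    · intro n
      filter_upwards with z
      by_cases hz : z ∈ Metric.ball (0:ℂ) 1
      · rw [indicator_of_mem hz, Real.norm_eq_abs, abs_mul]
        have h1 : |ct n z| ≤ 1 := by
          unfold ct
          rw [abs_of_nonneg (Real.smoothTransition.nonneg _)]
          exact Real.smoothTransition.le_one _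
        exact mul_le_of_le_one_right (abs_nonneg _) h1
      · rw [mem_ball_zero_iff, not_lt] at hz
        rw [ct_zero n hz]; simp
    · filter_upwards with z
      by_cases hz : z ∈ Metric.ball (0:ℂ) 1
      · rw [indicator_of_mem hz]
        rw [mem_ball_zero_iff] at hz
        have := (ct_tendsto hz).const_mul (Φv z)
        simpa using this
      · rw [indicator_of_notMem hz]
        rw [mem_ball_zero_iff, not_lt] at hz
        simp only [ct_zero _ hz, mul_zero]
        exact tendsto_const_nhds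
  rw [integral_indicator Metric.isOpen_ball.measurableSet] at hL
  have hR : ∀ n : ℕ, ∫ z, Φv z * ct n z = ∫ r in (0:ℝ)..1, dt (((n:ℝ) + 1) * (1 - r ^ 2)) *
      (2 * ((n:ℝ) + 1)) * r * (r * J r) := by
    intro n
    have h1 := hw (ct n) (ct_contDiff n) (ct_support n)
    have h2 : ∫ z, Φv z * ct n z = ∫ z, Φ z * (dt (((n:ℝ) + 1) * (1 - ‖z‖ ^ 2)) *
        (2 * ((n:ℝ) + 1)) * (z.re * v.re + z.im * v.im)) := by
      have h3 : ∫ z, Φv z * ct n z = - ∫ z, Φ z * fderiv ℝ (ct n) z v := by linarith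
      rw [h3, ← integral_neg]
      congr 1; ext z
      rw [ct_fderiv]; ring
    rw [h2, ← Complex.integral_comp_polarCoord_symm]
    -- the integrand in polar coordinates
    have h4 : ∀ p ∈ polarCoord.target, p.1 • (Φ (Complex.polarCoord.symm p) *
        (dt (((n:ℝ) + 1) * (1 - ‖Complex.polarCoord.symm p‖ ^ 2)) *
        (2 * ((n:ℝ) + 1)) * ((Complex.polarCoord.symm p).re * v.re +
          (Complex.polarCoord.symm p).im * v.im))) =
        (dt (((n:ℝ) + 1) * (1 - p.1 ^ 2)) * (2 * ((n:ℝ) + 1)) * p.1 * p.1) *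
          (Φ (p.1 * ce p.2) * (Real.cos p.2 * v.re + Real.sin p.2 * v.im)) := by
      rintro ⟨r, θ⟩ hp
      have h5 : Complex.polarCoord.symm (r, θ) = r * ce θ := by
        rw [Complex.polarCoord_symm_apply]; rfl
      rw [h5, norm_mul, ce_norm, mul_one, Complex.norm_real, Real.norm_eq_abs, sq_abs,
        Complex.re_ofReal_mul, Complex.im_ofReal_mul, ce_re, ce_im, smul_eq_mul]
      ring
    rw [setIntegral_congr_fun polarCoord.open_target.measurableSet h4]
    rw [show polarCoord.target = Ioi (0:ℝ) ×ˢ Ioo (-π) π from rfl]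
    have hF : Continuous fun p : ℝ × ℝ => (dt (((n:ℝ) + 1) * (1 - p.1 ^ 2)) * (2 * ((n:ℝ) + 1)) *
        p.1 * p.1) * (Φ (p.1 * ce p.2) * (Real.cos p.2 * v.re + Real.sin p.2 * v.im)) := by
      have h1 := ce_continuous
      have h2 : Continuous fun p : ℝ × ℝ => Φ ((p.1:ℂ) * ce p.2) :=
        hc.comp ((Complex.continuous_ofReal.comp continuous_fst).mul (h1.comp continuous_snd))
      have h3 : Continuous fun p : ℝ × ℝ => dt (((n:ℝ) + 1) * (1 - p.1 ^ 2)) :=
        dt_continuous.comp (by fun_prop)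
      exact (((h3.mul continuous_const).mul continuous_fst).mul continuous_fst).mul
        (h2.mul (by fun_prop))
    have h6 : ∫ p in Ioi (0:ℝ) ×ˢ Ioo (-π) π, (dt (((n:ℝ) + 1) * (1 - p.1 ^ 2)) *
        (2 * ((n:ℝ) + 1)) * p.1 * p.1) * (Φ (p.1 * ce p.2) * (Real.cos p.2 * v.re +
        Real.sin p.2 * v.im)) = ∫ p in Ioc (0:ℝ) 1 ×ˢ Ioc (-π) π,
        (dt (((n:ℝ) + 1) * (1 - p.1 ^ 2)) *
        (2 * ((n:ℝ) + 1)) * p.1 * p.1) * (Φ (p.1 * ce p.2) * (Real.cos p.2 * v.re +
        Real.sin p.2 * v.im)) := by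
      have h7 : ∫ p in Ioi (0:ℝ) ×ˢ Ioo (-π) π, (dt (((n:ℝ) + 1) * (1 - p.1 ^ 2)) *
        (2 * ((n:ℝ) + 1)) * p.1 * p.1) * (Φ (p.1 * ce p.2) * (Real.cos p.2 * v.re +
        Real.sin p.2 * v.im)) = ∫ p in Ioi (0:ℝ) ×ˢ Ioc (-π) π,
        (dt (((n:ℝ) + 1) * (1 - p.1 ^ 2)) *
        (2 * ((n:ℝ) + 1)) * p.1 * p.1) * (Φ (p.1 * ce p.2) * (Real.cos p.2 * v.re +
        Real.sin p.2 * v.im)) := by
        refine setIntegral_congr_set ?_
        rw [Measure.volume_eq_prod]
        exact Measure.set_prod_ae_eq (ae_eq_refl _) Ioo_ae_eq_Ioc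
      rw [h7]
      refine setIntegral_eq_of_subset_of_forall_sdiff_eq_zero
        (measurableSet_Ioi.prod measurableSet_Ioc) ?_ ?_
      · exact prod_mono_left Ioc_subset_Ioi_self
      · rintro ⟨r, θ⟩ ⟨h8, h9⟩
        have h10 : 1 < r := by
          by_contra h11
          push Not at h11
          exact h9 ⟨⟨h8.1, h11⟩, h8.2⟩
        have h12 : ((n:ℝ) + 1) * (1 - r ^ 2) ≤ 0 := by
          have hn0 : (0:ℝ) ≤ n := Nat.cast_nonneg n
          exact mul_nonpos_of_nonneg_of_nonpos (by positivity) (by nlinarith)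
        simp only [dt_zero' h12]; ring
    rw [h6, Measure.volume_eq_prod, setIntegral_prod _ ?_,
      intervalIntegral.integral_of_le zero_le_one]
    · refine setIntegral_congr_fun measurableSet_Ioc fun r _ => ?_
      simp only
      rw [integral_const_mul, hJ]
      simp only
      rw [intervalIntegral.integral_of_le (by linarith)]
      ring
    · refine IntegrableOn.mono_set ?_ (prod_mono Ioc_subset_Icc_self Ioc_subset_Icc_self)
      rw [← Measure.volume_eq_prod]
      exact hF.continuousOn.integrableOn_compact (isCompact_Icc.prod isCompact_Icc)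
  have hlim := ct_kernel_tendsto (G := fun r => r * J r) (continuous_id.mul hJc)
  have h1 : Tendsto (fun n : ℕ => ∫ z, Φv z * ct n z) atTop (𝓝 (1 * J 1)) := by
    refine hlim.congr fun n => ?_
    rw [hR n]
  have := tendsto_nhds_unique hL h1
  rw [this, one_mul, hJ]
  simp

end Pool.Agent.H617_HM
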