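import Pool.Agent.Helper985.VR.G

/-!
# First order Sobolev functions on the plane

`S1 f fx fy`: the function `f : ℂ → ℝ` and its weak partial derivatives `fx`, `fy` are square
integrable.
-/

set_option autoImplicit false

open MeasureTheory Filter Topology Set
open scoped ContDiff

namespace Pool.Agent.H617_HM

open Pool.Agent.Helper985.VR

/-- `f` is square integrable with square integrable weak partial derivatives `fx`, `fy` -/
structure S1 (f fx fy : ℂ → ℝ) : Prop where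
  l : L2 f
  lx : L2 fx
  ly : L2 fy
  dx : WD (1 : ℂ) f fx
  dy : WD Complex.I f fy

theorem S1.add {f fx fy g gx gy : ℂ → ℝ} (hf : S1 f fx fy) (hg : S1 g gx gy) :
    S1 (fun z => f z + g z) (fun z => fx z + gx z) (fun z => fy z + gy z) :=
  ⟨hf.l.add hg.l, hf.lx.add hg.lx, hf.ly.add hg.ly, hf.dx.add hf.l hf.lx hg.l hg.lx hg.dx,
    hf.dy.add hf.l hf.ly hg.l hg.ly hg.dy⟩

theorem S1.const_mul {f fx fy : ℂ → ℝ} (hf : S1 f fx fy) (c : ℝ) :
    S1 (fun z => c * f z) (fun z => c * fx z) (fun z => c * fy z) :=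
  ⟨hf.l.const_mul c, hf.lx.const_mul c, hf.ly.const_mul c, hf.dx.const_mul c, hf.dy.const_mul c⟩

theorem S1.neg {f fx fy : ℂ → ℝ} (hf : S1 f fx fy) :
    S1 (fun z => - f z) (fun z => - fx z) (fun z => - fy z) :=
  ⟨hf.l.neg, hf.lx.neg, hf.ly.neg, hf.dx.neg, hf.dy.neg⟩

theorem S1.sub {f fx fy g gx gy : ℂ → ℝ} (hf : S1 f fx fy) (hg : S1 g gx gy) :
    S1 (fun z => f z - g z) (fun z => fx z - gx z) (fun z => fy z - gy z) :=
  ⟨hf.l.sub hg.l, hf.lx.sub hg.lx, hf.ly.sub hg.ly, hf.dx.sub hf.l hf.lx hg.l hg.lx hg.dx,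
    hf.dy.sub hf.l hf.ly hg.l hg.ly hg.dy⟩

theorem S1.congr {f fx fy g gx gy : ℂ → ℝ} (hf : S1 f fx fy) (hg : Measurable g)
    (hgx : Measurable gx) (hgy : Measurable gy) (e : f =ᵐ[volume] g) (ex : fx =ᵐ[volume] gx)
    (ey : fy =ᵐ[volume] gy) : S1 g gx gy :=
  ⟨hf.l.congr hg e, hf.lx.congr hgx ex, hf.ly.congr hgy ey, hf.dx.congr e ex, hf.dy.congr e ey⟩

theorem S1.zero : S1 (fun _ => 0) (fun _ => 0) (fun _ => 0) :=
  ⟨L2.zero, L2.zero, L2.zero, fun φ _ _ => by simp, fun φ _ _ => by simp⟩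

theorem S1.unique {f fx fy gx gy : ℂ → ℝ} (hf : S1 f fx fy) (hg : S1 f gx gy) :
    fx =ᵐ[volume] gx ∧ fy =ᵐ[volume] gy :=
  ⟨hf.dx.unique hf.lx hg.lx hg.dx, hf.dy.unique hf.ly hg.ly hg.dy⟩

theorem S1.of_smooth {ψ : ℂ → ℝ} (hψ : ContDiff ℝ ∞ ψ) (hc : HasCompactSupport ψ) :
    S1 ψ (fun z => fderiv ℝ ψ z 1) (fun z => fderiv ℝ ψ z Complex.I) :=
  ⟨L2_of_cc hψ.continuous hc, L2_of_cc (fderiv_cc_continuous hψ _) (fderiv_cc_support hc _),
    L2_of_cc (fderiv_cc_continuous hψ _) (fderiv_cc_support hc _),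
    WD.of_smooth hψ hc _, WD.of_smooth hψ hc _⟩

/-- multiplication by a test function -/
theorem S1.mul_cc {f fx fy : ℂ → ℝ} (h : S1 f fx fy) {χ : ℂ → ℝ}
    (hχ : ContDiff ℝ ∞ χ) (hc : HasCompactSupport χ) :
    S1 (fun z => χ z * f z) (fun z => χ z * fx z + fderiv ℝ χ z 1 * f z)
      (fun z => χ z * fy z + fderiv ℝ χ z Complex.I * f z) := by
  obtain ⟨M, hM⟩ := hc.exists_bound_of_continuous hχ.continuous
  obtain ⟨M1, hM1⟩ := (fderiv_cc_support hc (1:ℂ)).exists_bound_of_continuous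
    (fderiv_cc_continuous hχ (1:ℂ))
  obtain ⟨M2, hM2⟩ := (fderiv_cc_support hc Complex.I).exists_bound_of_continuous
    (fderiv_cc_continuous hχ Complex.I)
  have hm := hχ.continuous.measurable
  have hm1 := (fderiv_cc_continuous hχ (1:ℂ)).measurable
  have hm2 := (fderiv_cc_continuous hχ Complex.I).measurable
  exact ⟨h.l.bdd_mul hm M hM, (h.lx.bdd_mul hm M hM).add (h.l.bdd_mul hm1 M1 hM1),
    (h.ly.bdd_mul hm M hM).add (h.l.bdd_mul hm2 M2 hM2),
    h.dx.mul_smooth hχ h.l h.lx, h.dy.mul_smooth hχ h.l h.ly⟩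

/-- integration by parts for two Sobolev functions -/
theorem ibp {e : ℂ} {f fe g ge : ℂ → ℝ} (hf : L2 f) (hfe : L2 fe) (hg : L2 g) (hge : L2 ge)
    (h1 : WD e f fe) (h2 : WD e g ge) : ∫ z, f z * ge z = - ∫ z, fe z * g z := by
  have key : ∀ t : ℝ, t ≠ 0 → ∫ z, f z * (t⁻¹ * (g (z + t • e) - g z)) =
      - ∫ z, ((-t)⁻¹ * (f (z + (-t) • e) - f z)) * g z := by
    intro t ht
    have i1 : Integrable fun z => f z * g (z + t • e) := hf.mul (hg.translate (t • e))
    have i2 : Integrable fun z => f z * g z := hf.mul hg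
    have i3 : Integrable fun z => f (z + (-t) • e) * g z := (hf.translate ((-t) • e)).mul hg
    have e1 : ∫ z, f z * g (z + t • e) = ∫ z, f (z + (-t) • e) * g z := by
      rw [← integral_add_right_eq_self (fun z => f (z + (-t) • e) * g z) (t • e)]
      congr 1; ext z
      congr 2
      rw [neg_smul]; abel
    have e2 : ∫ z, f z * (t⁻¹ * (g (z + t • e) - g z)) =
        t⁻¹ * ((∫ z, f z * g (z + t • e)) - ∫ z, f z * g z) := by
      rw [← integral_sub i1 i2, ← integral_const_mul]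
      congr 1; ext z; ring
    have e3 : ∫ z, ((-t)⁻¹ * (f (z + (-t) • e) - f z)) * g z =
        (-t)⁻¹ * ((∫ z, f (z + (-t) • e) * g z) - ∫ z, f z * g z) := by
      rw [← integral_sub i3 i2, ← integral_const_mul]
      congr 1; ext z; ring
    rw [e2, e3, e1]
    field_simp
  have hL : Tendsto (fun t : ℝ => ∫ z, f z * (t⁻¹ * (g (z + t • e) - g z))) (𝓝[≠] 0)
      (𝓝 (∫ z, f z * ge z)) := by
    have hu : ∀ t : ℝ, L2 fun z => t⁻¹ * (g (z + t • e) - g z) := fun t =>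
      ((hg.translate _).sub hg).const_mul _
    exact tendsto_pair (fun _ => hf) hu hf hge (by simp [N2]) (h2.dq hg hge)
  have hn : Tendsto (fun t : ℝ => -t) (𝓝[≠] 0) (𝓝[≠] 0) := by
    rw [tendsto_nhdsWithin_iff]
    refine ⟨?_, ?_⟩
    · have := (continuous_neg.tendsto (0:ℝ)).mono_left (nhdsWithin_le_nhds (s := {0}ᶜ))
      simpa using this
    · filter_upwards [self_mem_nhdsWithin] with t ht
      simpa using ht
  have hR : Tendsto (fun t : ℝ => - ∫ z, ((-t)⁻¹ * (f (z + (-t) • e) - f z)) * g z) (𝓝[≠] 0)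
      (𝓝 (- ∫ z, fe z * g z)) := by
    have hu : ∀ t : ℝ, L2 fun z => (-t)⁻¹ * (f (z + (-t) • e) - f z) := fun t =>
      ((hf.translate _).sub hf).const_mul _
    exact (tendsto_pair hu (fun _ => hg) hfe hg ((h1.dq hf hfe).comp hn) (by simp [N2])).neg
  refine tendsto_nhds_unique hL (hR.congr' ?_)
  filter_upwards [self_mem_nhdsWithin] with t ht
  exact (key t ht).symm

/-- translates of weak derivatives -/
theorem WD.translate {e : ℂ} {f g : ℂ → ℝ} (h : WD e f g) (a : ℂ) :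
    WD e (fun z => f (z + a)) (fun z => g (z + a)) := by
  intro φ hφ hc
  have h1 := h.shift hφ hc a
  rw [← integral_add_right_eq_self (fun z => f z * fderiv ℝ φ (z - a) e) a,
    ← integral_add_right_eq_self (fun z => g z * φ (z - a)) a] at h1
  simpa using h1

/-- the Jacobian is a null Lagrangian -/
theorem det_int {f fx fy g gx gy : ℂ → ℝ} (hf : S1 f fx fy) (hg : S1 g gx gy) :
    ∫ z, fx z * gy z = ∫ z, fy z * gx z := by
  have key : ∀ t : ℝ, ∫ z, fx z * (t⁻¹ * (g (z + t • Complex.I) - g z)) =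
      - ∫ z, f z * (t⁻¹ * (gx (z + t • Complex.I) - gx z)) := by
    intro t
    have hu : L2 fun z => t⁻¹ * (g (z + t • Complex.I) - g z) :=
      ((hg.l.translate _).sub hg.l).const_mul _
    have hux : L2 fun z => t⁻¹ * (gx (z + t • Complex.I) - gx z) :=
      ((hg.lx.translate _).sub hg.lx).const_mul _
    have hw : WD (1:ℂ) (fun z => t⁻¹ * (g (z + t • Complex.I) - g z))
        (fun z => t⁻¹ * (gx (z + t • Complex.I) - gx z)) :=
      (((WD.translate hg.dx _).sub (hg.l.translate _) (hg.lx.translate _) hg.l hg.lx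
        hg.dx)).const_mul _
    have := ibp hf.l hf.lx hu hux hf.dx hw
    linarith
  have key2 : ∀ t : ℝ, t ≠ 0 → ∫ z, f z * (t⁻¹ * (gx (z + t • Complex.I) - gx z)) =
      - ∫ z, ((-t)⁻¹ * (f (z + (-t) • Complex.I) - f z)) * gx z := by
    intro t ht
    have i1 : Integrable fun z => f z * gx (z + t • Complex.I) := hf.l.mul (hg.lx.translate _)
    have i2 : Integrable fun z => f z * gx z := hf.l.mul hg.lx
    have i3 : Integrable fun z => f (z + (-t) • Complex.I) * gx z :=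
      (hf.l.translate _).mul hg.lx
    have e1 : ∫ z, f z * gx (z + t • Complex.I) = ∫ z, f (z + (-t) • Complex.I) * gx z := by
      rw [← integral_add_right_eq_self (fun z => f (z + (-t) • Complex.I) * gx z)
        (t • Complex.I)]
      congr 1; ext z
      congr 2
      rw [neg_smul]; abel
    have e2 : ∫ z, f z * (t⁻¹ * (gx (z + t • Complex.I) - gx z)) =
        t⁻¹ * ((∫ z, f z * gx (z + t • Complex.I)) - ∫ z, f z * gx z) := by
      rw [← integral_sub i1 i2, ← integral_const_mul]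
      congr 1; ext z; ring
    have e3 : ∫ z, ((-t)⁻¹ * (f (z + (-t) • Complex.I) - f z)) * gx z =
        (-t)⁻¹ * ((∫ z, f (z + (-t) • Complex.I) * gx z) - ∫ z, f z * gx z) := by
      rw [← integral_sub i3 i2, ← integral_const_mul]
      congr 1; ext z; ring
    rw [e2, e3, e1]
    field_simp
  have hL : Tendsto (fun t : ℝ => ∫ z, fx z * (t⁻¹ * (g (z + t • Complex.I) - g z))) (𝓝[≠] 0)
      (𝓝 (∫ z, fx z * gy z)) := by
    have hu : ∀ t : ℝ, L2 fun z => t⁻¹ * (g (z + t • Complex.I) - g z) := fun t =>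
      ((hg.l.translate _).sub hg.l).const_mul _
    exact tendsto_pair (fun _ => hf.lx) hu hf.lx hg.ly (by simp [N2]) (hg.dy.dq hg.l hg.ly)
  have hn : Tendsto (fun t : ℝ => -t) (𝓝[≠] 0) (𝓝[≠] 0) := by
    rw [tendsto_nhdsWithin_iff]
    refine ⟨?_, ?_⟩
    · have := (continuous_neg.tendsto (0:ℝ)).mono_left (nhdsWithin_le_nhds (s := {0}ᶜ))
      simpa using this
    · filter_upwards [self_mem_nhdsWithin] with t ht
      simpa using ht
  have hR : Tendsto (fun t : ℝ => ∫ z, ((-t)⁻¹ * (f (z + (-t) • Complex.I) - f z)) * gx z)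
      (𝓝[≠] 0) (𝓝 (∫ z, fy z * gx z)) := by
    have hu : ∀ t : ℝ, L2 fun z => (-t)⁻¹ * (f (z + (-t) • Complex.I) - f z) := fun t =>
      ((hf.l.translate _).sub hf.l).const_mul _
    exact (tendsto_pair hu (fun _ => hg.lx) hf.ly hg.lx ((hf.dy.dq hf.l hf.ly).comp hn)
      (by simp [N2]))
  refine tendsto_nhds_unique hL (hR.congr' ?_)
  filter_upwards [self_mem_nhdsWithin] with t ht
  rw [key t, key2 t ht, neg_neg]

/-- product rule -/
theorem WD.mul {e : ℂ} {f fe g ge : ℂ → ℝ} (hf : L2 f) (hfe : L2 fe) (hg : L2 g) (hge : L2 ge)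
    (h1 : WD e f fe) (h2 : WD e g ge) :
    WD e (fun z => f z * g z) (fun z => fe z * g z + f z * ge z) := by
  intro φ hφ hc
  obtain ⟨M, hM⟩ := hc.exists_bound_of_continuous hφ.continuous
  obtain ⟨M1, hM1⟩ := (fderiv_cc_support hc e).exists_bound_of_continuous
    (fderiv_cc_continuous hφ e)
  have hm := hφ.continuous.measurable
  have hm1 := (fderiv_cc_continuous hφ e).measurable
  have l1 : L2 (fun z => φ z * g z) := hg.bdd_mul hm M hM
  have l2 : L2 (fun z => φ z * ge z) := hge.bdd_mul hm M hM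
  have l3 : L2 (fun z => fderiv ℝ φ z e * g z) := hg.bdd_mul hm1 M1 hM1
  have hw := h2.mul_smooth hφ hg hge
  have := ibp hf hfe l1 (l2.add l3) h1 hw
  have i1 : Integrable fun z => f z * (φ z * ge z) := hf.mul l2
  have i2 : Integrable fun z => f z * (fderiv ℝ φ z e * g z) := hf.mul l3
  have i3 : Integrable fun z => fe z * (φ z * g z) := hfe.mul l1
  have e1 : ∫ z, f z * (φ z * ge z + fderiv ℝ φ z e * g z) =
      (∫ z, f z * (φ z * ge z)) + ∫ z, f z * (fderiv ℝ φ z e * g z) := by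
    rw [← integral_add i1 i2]; congr 1; ext z; ring
  rw [e1] at this
  have e2 : ∫ z, f z * g z * fderiv ℝ φ z e = ∫ z, f z * (fderiv ℝ φ z e * g z) := by
    congr 1; ext z; ring
  have e3 : ∫ z, (fe z * g z + f z * ge z) * φ z =
      (∫ z, fe z * (φ z * g z)) + ∫ z, f z * (φ z * ge z) := by
    rw [← integral_add i3 i1]; congr 1; ext z; ring
  rw [e2, e3]
  linarith

theorem L2.mul_ae_bdd {f h : ℂ → ℝ} (hf : L2 f) (hh : Measurable h) (C : ℝ)
    (hC : ∀ᵐ x, |h x| ≤ C) : L2 (fun x => h x * f x) := by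
  refine (hf.const_mul |C|).mono (hh.mul hf.1) ?_
  filter_upwards [hC] with x hx
  rw [abs_mul, abs_mul, abs_abs]
  exact mul_le_mul_of_nonneg_right (hx.trans (le_abs_self _)) (abs_nonneg _)

/-- product of two bounded Sobolev functions -/
theorem S1.mul {f fx fy g gx gy : ℂ → ℝ} (hf : S1 f fx fy) (hg : S1 g gx gy) {M : ℝ}
    (hfM : ∀ᵐ z, |f z| ≤ M) (hgM : ∀ᵐ z, |g z| ≤ M) :
    S1 (fun z => f z * g z) (fun z => fx z * g z + f z * gx z)
      (fun z => fy z * g z + f z * gy z) := by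
  have a1 : L2 (fun z => f z * g z) := L2.mul_ae_bdd hg.l hf.l.1 M hfM
  have a2 : ∀ {u : ℂ → ℝ}, L2 u → L2 (fun z => u z * g z) := fun {u} hu => by
    have := L2.mul_ae_bdd hu hg.l.1 M hgM
    simpa [mul_comm] using this
  have a3 : ∀ {u : ℂ → ℝ}, L2 u → L2 (fun z => f z * u z) := fun {u} hu =>
    L2.mul_ae_bdd hu hf.l.1 M hfM
  exact ⟨a1, (a2 hf.lx).add (a3 hg.lx), (a2 hf.ly).add (a3 hg.ly),
    WD.mul hf.l hf.lx hg.l hg.lx hf.dx hg.dx, WD.mul hf.l hf.ly hg.l hg.ly hf.dy hg.dy⟩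

/-- chain rule -/
theorem S1.comp {f fx fy : ℂ → ℝ} (h : S1 f fx fy) {S : Set ℝ}
    (hS : Convex ℝ S) (hfS : ∀ x, f x ∈ S) {F F' : ℝ → ℝ} (hF : ∀ t ∈ S, HasDerivAt F (F' t) t)
    (L : ℝ) (hL : ∀ t ∈ S, |F' t| ≤ L) (hFf : L2 (fun x => F (f x)))
    (hm : Measurable fun x => F' (f x)) :
    S1 (fun x => F (f x)) (fun x => F' (f x) * fx x) (fun x => F' (f x) * fy x) :=
  ⟨hFf, (h.dx.comp h.l h.lx hS hfS hF L hL hFf hm).1, (h.dy.comp h.l h.ly hS hfS hF L hL hFf hm).1,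
    (h.dx.comp h.l h.lx hS hfS hF L hL hFf hm).2, (h.dy.comp h.l h.ly hS hfS hF L hL hFf hm).2⟩

/-- a function vanishing at zero with bounded derivative, applied to a Sobolev function -/
theorem S1.comp' {f fx fy : ℂ → ℝ} (h : S1 f fx fy) {F F' : ℝ → ℝ}
    (hF : ∀ t, HasDerivAt F (F' t) t) (hc : Continuous F') {L : ℝ} (hL : ∀ t, |F' t| ≤ L)
    (h0 : F 0 = 0) :
    S1 (fun x => F (f x)) (fun x => F' (f x) * fx x) (fun x => F' (f x) * fy x) := by
  have hFc : Continuous F := continuous_iff_continuousAt.2 fun t => (hF t).continuousAt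
  have hb : ∀ t, |F t| ≤ L * |t| := by
    intro t
    have := Convex.norm_image_sub_le_of_norm_hasDerivWithin_le (f := F) (f' := F') (s := univ)
      (x := 0) (y := t) (C := L) (fun x _ => (hF x).hasDerivWithinAt) (fun x _ => hL x)
      convex_univ (mem_univ _) (mem_univ _)
    simpa [h0] using this
  refine h.comp (S := univ) convex_univ (fun _ => mem_univ _) (fun t _ => hF t) L
    (fun t _ => hL t) ?_ (hc.measurable.comp h.l.1)
  refine (h.l.const_mul L).mono (hFc.measurable.comp h.l.1) ?_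
  filter_upwards with x
  have hL0 : 0 ≤ L := (abs_nonneg _).trans (hL 0)
  rw [abs_mul, abs_of_nonneg hL0]
  exact hb _

end Pool.Agent.H617_HM
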