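import Pool.Agent.H617_HM.S1

/-!
# Sobolev functions on the plane: level sets, Lipschitz functions, reflection
-/

set_option autoImplicit false

open MeasureTheory Filter Topology Set
open scoped ContDiff

namespace Pool.Agent.H617_HM

open Pool.Agent.Helper985.VR

/-- the weak derivative vanishes almost everywhere on the zero set -/
theorem S1.zero_set {f fx fy : ℂ → ℝ} (h : S1 f fx fy) :
    ∀ᵐ z, f z = 0 → fx z = 0 ∧ fy z = 0 := by
  classical
  -- the functions `arctan (n f) / n`
  set δ : ℕ → ℝ := fun n => 1 / ((n:ℝ) + 1) with hδ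
  have hδp : ∀ n, 0 < δ n := fun n => by simp only [hδ]; positivity
  have hδ0 : Tendsto δ atTop (𝓝 0) := tendsto_one_div_add_atTop_nhds_zero_nat
  have hF : ∀ n t, HasDerivAt (fun t : ℝ => δ n * Real.arctan (t / δ n))
      (1 / (1 + (t / δ n) ^ 2)) t := by
    intro n t
    have h1 : HasDerivAt (fun t : ℝ => t / δ n) (1 / δ n) t := (hasDerivAt_id t).div_const _
    have h2 := ((Real.hasDerivAt_arctan (t / δ n)).comp t h1).const_mul (δ n)
    refine h2.congr_deriv ?_
    have := (hδp n).ne'
    field_simp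
  have hb : ∀ n t, |1 / (1 + (t / δ n) ^ 2)| ≤ 1 := by
    intro n t
    have h0 : 0 ≤ (t / δ n) ^ 2 := sq_nonneg _
    rw [abs_of_nonneg (by positivity)]
    rw [div_le_one (by positivity)]
    linarith
  have hcn : ∀ n, Continuous fun t : ℝ => 1 / (1 + (t / δ n) ^ 2) := by
    intro n
    refine continuous_const.div (by fun_prop) ?_
    intro t
    have h0 : 0 ≤ (t / δ n) ^ 2 := sq_nonneg _
    linarith
  have hS : ∀ n, S1 (fun x => δ n * Real.arctan (f x / δ n))
      (fun x => 1 / (1 + (f x / δ n) ^ 2) * fx x) (fun x => 1 / (1 + (f x / δ n) ^ 2) * fy x) := by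
    intro n
    exact h.comp' (hF n) (hcn n) (hb n) (by simp)
  -- the limit
  have lim0 : ∀ φ : ℂ → ℝ, Continuous φ → HasCompactSupport φ →
      Tendsto (fun n => ∫ x, δ n * Real.arctan (f x / δ n) * φ x) atTop
        (𝓝 (∫ x, (0:ℝ) * φ x)) := by
    intro φ hφ hc
    have hi : Integrable φ := hφ.integrable_of_hasCompactSupport hc
    have hsq : Tendsto (fun n => δ n * (2 * ∫ x, |φ x|)) atTop (𝓝 0) := by
      simpa using hδ0.mul_const (2 * ∫ x, |φ x|)
    simp only [zero_mul, integral_zero]
    refine squeeze_zero_norm ?_ hsq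
    intro n
    refine (norm_integral_le_integral_norm _).trans ?_
    rw [show δ n * (2 * ∫ x, |φ x|) = ∫ x, (δ n * 2) * |φ x| by
      rw [integral_const_mul]; ring]
    refine integral_mono_of_nonneg (by filter_upwards with x using norm_nonneg _)
      (hi.abs.const_mul _) ?_
    filter_upwards with x
    rw [Real.norm_eq_abs, abs_mul, abs_mul, abs_of_pos (hδp n)]
    have h1 := Real.arctan_lt_pi_div_two (f x / δ n)
    have h2 := Real.neg_pi_div_two_lt_arctan (f x / δ n)
    have h3 : |Real.arctan (f x / δ n)| ≤ 2 := by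
      rw [abs_le]
      have := Real.pi_lt_four
      constructor <;> linarith
    have := mul_le_mul_of_nonneg_left h3 (hδp n).le
    exact mul_le_mul_of_nonneg_right this (abs_nonneg _)
  have limd : ∀ g : ℂ → ℝ, L2 g → ∀ φ : ℂ → ℝ, Continuous φ → HasCompactSupport φ →
      Tendsto (fun n => ∫ x, (1 / (1 + (f x / δ n) ^ 2) * g x) * φ x) atTop
        (𝓝 (∫ x, (if f x = 0 then g x else 0) * φ x)) := by
    intro g hg φ hφ hc
    have hi : Integrable fun x => g x * φ x := int_mul_cc hg hφ hc
    refine tendsto_integral_of_dominated_convergence (fun x => |g x * φ x|) ?_ hi.abs ?_ ?_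
    · intro n
      have hm : Measurable fun x => 1 / (1 + (f x / δ n) ^ 2) :=
        (hcn n).measurable.comp h.l.1
      exact ((hm.mul hg.1).mul hφ.measurable).aestronglyMeasurable
    · intro n
      filter_upwards with x
      rw [Real.norm_eq_abs, mul_assoc, abs_mul]
      calc _ ≤ 1 * |g x * φ x| := mul_le_mul_of_nonneg_right (hb n (f x)) (abs_nonneg _)
        _ = _ := one_mul _
    · filter_upwards with x
      by_cases hx : f x = 0
      · simp [hx]
      · simp only [hx, if_false, zero_mul]
        have h1 : Tendsto (fun n => (f x / δ n) ^ 2) atTop atTop := by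
          have h2 : Tendsto (fun n : ℕ => |f x| * ((n:ℝ) + 1)) atTop atTop := by
            apply Tendsto.const_mul_atTop (abs_pos.2 hx)
            exact tendsto_atTop_add_const_right _ _ tendsto_natCast_atTop_atTop
          have h3 := (tendsto_pow_atTop (α := ℝ) (n := 2) (by norm_num)).comp h2
          refine h3.congr fun n => ?_
          simp only [Function.comp_apply, hδ]
          rw [mul_pow, sq_abs]
          field_simp
        have h2 : Tendsto (fun n => 1 / (1 + (f x / δ n) ^ 2)) atTop (𝓝 0) := by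
          have := tendsto_atTop_add_const_left atTop (1:ℝ) h1
          simp only [one_div]
          exact tendsto_inv_atTop_zero.comp this
        have h3 := (h2.mul_const (g x)).mul_const (φ x)
        simpa using h3
  have hm0 : MeasurableSet {x | f x = 0} := h.l.1 (measurableSet_singleton 0)
  have hL : ∀ g : ℂ → ℝ, L2 g → L2 fun x => if f x = 0 then g x else 0 := by
    intro g hg
    refine hg.mono (Measurable.ite hm0 hg.1 measurable_const) ?_
    filter_upwards with x
    split_ifs
    · exact le_rfl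
    · simp
  have hz : S1 (fun _ => (0:ℝ)) (fun x => if f x = 0 then fx x else 0)
      (fun x => if f x = 0 then fy x else 0) :=
    ⟨L2.zero, hL fx h.lx, hL fy h.ly,
      WD.limit (fun n => (hS n).dx) lim0 (limd fx h.lx),
      WD.limit (fun n => (hS n).dy) lim0 (limd fy h.ly)⟩
  obtain ⟨e1, e2⟩ := hz.unique S1.zero
  filter_upwards [e1, e2] with z h1 h2 hz
  simp only [hz, if_true] at h1 h2
  exact ⟨h1, h2⟩

/-- Lipschitz functions with compact support are Sobolev functions -/
theorem S1.of_lipschitz {f : ℂ → ℝ} {C : NNReal} (hf : LipschitzWith C f)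
    (hc : HasCompactSupport f) :
    S1 f (fun z => lineDeriv ℝ f z 1) (fun z => lineDeriv ℝ f z Complex.I) := by
  have hl : L2 f := L2_of_cc hf.continuous hc
  have hd : ∀ v : ℂ, L2 (fun z => lineDeriv ℝ f z v) := by
    intro v
    have hm : Measurable (fun z => lineDeriv ℝ f z v) := measurable_lineDeriv hf.continuous
    refine ⟨hm, ?_⟩
    have hb : ∀ z, ‖lineDeriv ℝ f z v‖ ≤ C * ‖v‖ := fun z =>
      norm_lineDeriv_le_of_lipschitz ℝ hf
    have hs : ∀ z, z ∉ tsupport f → lineDeriv ℝ f z v = 0 := by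
      intro z hz
      have h1 : f =ᶠ[𝓝 z] fun _ => 0 := by
        have := (isClosed_tsupport f).isOpen_compl.mem_nhds hz
        filter_upwards [this] with w hw
        exact image_eq_zero_of_notMem_tsupport hw
      rw [h1.lineDeriv_eq]
      simp [lineDeriv]
    have hK : volume (tsupport f) < ⊤ := hc.measure_lt_top
    have h1 : IntegrableOn (fun z => lineDeriv ℝ f z v ^ 2) (tsupport f) := by
      refine Measure.integrableOn_of_bounded hK.ne (hm.pow_const 2).aestronglyMeasurable
        (M := (C * ‖v‖) ^ 2) ?_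
      filter_upwards with z
      rw [norm_pow]
      exact pow_le_pow_left₀ (norm_nonneg _) (hb z) 2
    refine h1.integrable_of_forall_notMem_eq_zero ?_
    intro z hz
    rw [hs z hz]; simp
  have hw : ∀ v : ℂ, WD v f (fun z => lineDeriv ℝ f z v) := by
    intro v φ hφ hφc
    obtain ⟨D, hD⟩ := (hφ.of_le (by norm_num : (1 : WithTop ℕ∞) ≤ ∞)).lipschitzWith_of_hasCompactSupport
      hφc (by norm_num)
    have h1 := hf.integral_lineDeriv_mul_eq (μ := volume) hD hφc v
    have h2 : ∀ z, lineDeriv ℝ φ z (-v) = - fderiv ℝ φ z v := by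
      intro z
      have hd : DifferentiableAt ℝ φ z := hφ.differentiable (by norm_num) z
      rw [hd.lineDeriv_eq_fderiv, map_neg]
    simp only [h2] at h1
    rw [h1, ← integral_neg]
    congr 1; ext z; ring
  exact ⟨hl, hd _, hd _, hw _, hw _⟩

theorem fderiv_comp_conj {φ : ℂ → ℝ} (hφ : Differentiable ℝ φ) (z v : ℂ) :
    fderiv ℝ (fun w => φ ((starRingEnd ℂ) w)) z v =
      fderiv ℝ φ ((starRingEnd ℂ) z) ((starRingEnd ℂ) v) := by
  have h1 : HasFDerivAt (fun w : ℂ => (starRingEnd ℂ) w) (Complex.conjCLE : ℂ →L[ℝ] ℂ) z :=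
    Complex.conjCLE.hasFDerivAt
  have h2 := (hφ ((starRingEnd ℂ) z)).hasFDerivAt.comp z h1
  have h3 : (fun w => φ ((starRingEnd ℂ) w)) = φ ∘ fun w : ℂ => (starRingEnd ℂ) w := rfl
  rw [h3, h2.fderiv]
  rfl

theorem mp_conj : MeasurePreserving (fun z : ℂ => (starRingEnd ℂ) z) volume volume :=
  Complex.conjLIE.measurePreserving

theorem l2_comp_conj {f : ℂ → ℝ} (hf : L2 f) : L2 fun z => f ((starRingEnd ℂ) z) :=
  ⟨hf.1.comp mp_conj.measurable, mp_conj.integrable_comp_of_integrable hf.2⟩

theorem integral_comp_conj (f : ℂ → ℝ) : ∫ z, f ((starRingEnd ℂ) z) = ∫ z, f z :=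
  mp_conj.integral_comp Complex.conjLIE.toHomeomorph.measurableEmbedding f

/-- reflection of a Sobolev function -/
theorem S1.comp_conj {f fx fy : ℂ → ℝ} (h : S1 f fx fy) :
    S1 (fun z => f ((starRingEnd ℂ) z)) (fun z => fx ((starRingEnd ℂ) z))
      (fun z => - fy ((starRingEnd ℂ) z)) := by
  refine ⟨l2_comp_conj h.l, l2_comp_conj h.lx, (l2_comp_conj h.ly).neg, ?_, ?_⟩
  · intro φ hφ hc
    have h1 : ContDiff ℝ ∞ fun w : ℂ => φ ((starRingEnd ℂ) w) :=
      hφ.comp Complex.conjCLE.contDiff
    have h2 : HasCompactSupport fun w : ℂ => φ ((starRingEnd ℂ) w) :=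
      hc.comp_homeomorph Complex.conjCLE.toHomeomorph
    have h3 := h.dx _ h1 h2
    rw [← integral_comp_conj, ← integral_comp_conj (fun z => fx z * φ ((starRingEnd ℂ) z))] at h3
    simpa [fderiv_comp_conj (hφ.differentiable (by norm_num))] using h3
  · intro φ hφ hc
    have h1 : ContDiff ℝ ∞ fun w : ℂ => φ ((starRingEnd ℂ) w) :=
      hφ.comp Complex.conjCLE.contDiff
    have h2 : HasCompactSupport fun w : ℂ => φ ((starRingEnd ℂ) w) :=
      hc.comp_homeomorph Complex.conjCLE.toHomeomorph
    have h3 := h.dy _ h1 h2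
    rw [← integral_comp_conj, ← integral_comp_conj (fun z => fy z * φ ((starRingEnd ℂ) z))] at h3
    simp only [fderiv_comp_conj (hφ.differentiable (by norm_num)), Complex.conj_conj,
      Complex.conj_I, map_neg, mul_neg, integral_neg, neg_mul, neg_neg] at h3 ⊢
    linarith

end Pool.Agent.H617_HM
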