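import Pool.Agent.H617_HM.V5

/-!
# A strong minimum principle for indicator functions
-/

set_option autoImplicit false

open MeasureTheory Filter Topology Set
open scoped ContDiff

namespace Pool.Agent.H617_HM

open Pool.Agent.Helper985.VR

/-- the Laplacian -/
noncomputable def lap (f : ℂ → ℝ) (z : ℂ) : ℝ :=
  fderiv ℝ (fun w => fderiv ℝ f w 1) z 1 +
    fderiv ℝ (fun w => fderiv ℝ f w Complex.I) z Complex.I

/-- the smooth transition divided by `s` -/
noncomputable def kq (s : ℝ) : ℝ :=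
  (s⁻¹ * expNegInvGlue s) / (expNegInvGlue s + expNegInvGlue (1 - s))

theorem kq_contDiff : ContDiff ℝ ∞ kq := by
  have h1 : ContDiff ℝ ∞ fun s : ℝ => s⁻¹ * expNegInvGlue s := by
    have := expNegInvGlue.contDiff_polynomial_eval_inv_mul (n := ⊤) (Polynomial.X)
    simpa using this
  have h2 : ContDiff ℝ ∞ fun s : ℝ => expNegInvGlue s + expNegInvGlue (1 - s) :=
    expNegInvGlue.contDiff.add (expNegInvGlue.contDiff.comp (contDiff_const.sub contDiff_id))
  exact h1.div h2 fun s => (Real.smoothTransition.pos_denom s).ne'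

theorem kq_mul (s : ℝ) : s * kq s = Real.smoothTransition s := by
  unfold kq Real.smoothTransition
  rcases eq_or_ne s 0 with rfl | h
  · simp
  · field_simp

/-- a radial profile, logarithmic outside the unit disc -/
noncomputable def kk (s : ℝ) : ℝ := ∫ x in (1:ℝ)..s, kq x

theorem kk_hasDerivAt (s : ℝ) : HasDerivAt kk (kq s) s :=
  intervalIntegral.integral_hasDerivAt_right (kq_contDiff.continuous.intervalIntegrable _ _)
    (kq_contDiff.continuous.stronglyMeasurableAtFilter _ _) kq_contDiff.continuous.continuousAt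

theorem kk_contDiff : ContDiff ℝ ∞ kk := by
  rw [contDiff_infty_iff_deriv]
  refine ⟨fun s => (kk_hasDerivAt s).differentiableAt, ?_⟩
  have : deriv kk = kq := by ext s; exact (kk_hasDerivAt s).deriv
  rw [this]; exact kq_contDiff

theorem kk_log {s : ℝ} (hs : 1 ≤ s) : kk s = Real.log s := by
  unfold kk
  have h1 : ∫ x in (1:ℝ)..s, kq x = ∫ x in (1:ℝ)..s, x⁻¹ := by
    refine intervalIntegral.integral_congr fun x hx => ?_
    rw [uIcc_of_le hs] at hx
    have h2 := kq_mul x
    rw [Real.smoothTransition.one_of_one_le hx.1] at h2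
    exact eq_inv_of_mul_eq_one_right h2
  rw [h1, integral_inv_of_pos one_pos (by linarith), div_one]

theorem kk_anti : AntitoneOn (fun s => kk s - Real.log s) (Ioi 0) := by
  have hd : ∀ s ∈ Ioi (0:ℝ), HasDerivAt (fun s => kk s - Real.log s) (kq s - s⁻¹) s :=
    fun s hs => (kk_hasDerivAt s).sub (Real.hasDerivAt_log (ne_of_gt hs))
  refine antitoneOn_of_deriv_nonpos (convex_Ioi 0) ?_ ?_ ?_
  · exact fun s hs => (hd s hs).continuousAt.continuousWithinAt
  · rw [interior_Ioi]; exact fun s hs => (hd s hs).differentiableAt.differentiableWithinAt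
  · rw [interior_Ioi]
    intro s hs
    rw [(hd s hs).deriv, sub_nonpos]
    have h2 := kq_mul s
    have h3 := Real.smoothTransition.le_one s
    have h0 : 0 < s := hs
    rw [← h2] at h3
    calc kq s = s⁻¹ * (s * kq s) := by field_simp
      _ ≤ s⁻¹ * 1 := by gcongr
      _ = s⁻¹ := mul_one _

/-- the derivative of the smooth transition -/
noncomputable def dt (s : ℝ) : ℝ := kq s + s * deriv kq s

theorem dt_hasDerivAt (s : ℝ) : HasDerivAt Real.smoothTransition (dt s) s := by
  have h1 : HasDerivAt kq (deriv kq s) s :=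
    ((kq_contDiff.differentiable (by simp)) s).hasDerivAt
  have h2 := (hasDerivAt_id s).mul h1
  have h3 : (id * kq) = Real.smoothTransition := by
    ext x; exact kq_mul x
  rw [h3] at h2
  refine h2.congr_deriv ?_
  simp [dt]

theorem dt_continuous : Continuous dt := by
  have : ContDiff ℝ ∞ (deriv kq) := (contDiff_infty_iff_deriv.1 kq_contDiff).2
  exact kq_contDiff.continuous.add (continuous_id.mul this.continuous)

theorem dt_nonneg (s : ℝ) : 0 ≤ dt s := by
  rw [← (dt_hasDerivAt s).deriv]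
  exact Real.smoothTransition.monotone.deriv_nonneg

theorem dt_zero {s : ℝ} (hs : 1 ≤ s) : dt s = 0 := by
  have h1 : ∀ x ∈ Ioi (1:ℝ), dt x = 0 := by
    intro x hx
    rw [← (dt_hasDerivAt x).deriv]
    have h2 : Real.smoothTransition =ᶠ[𝓝 x] fun _ => (1:ℝ) := by
      filter_upwards [Ioi_mem_nhds hx] with y hy
      exact Real.smoothTransition.one_of_one_le (le_of_lt hy)
    rw [h2.deriv_eq]; simp
  have h2 : closure (Ioi (1:ℝ)) ⊆ {x | dt x = 0} :=
    closure_minimal h1 (isClosed_eq dt_continuous continuous_const)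
  rw [closure_Ioi] at h2
  exact h2 hs

theorem dt_pos {s : ℝ} (h0 : 0 < s) (h1 : s < 1) : 0 < dt s := by
  have hE : ∀ x : ℝ, HasDerivAt expNegInvGlue (x⁻¹ ^ 2 * expNegInvGlue x) x := by
    intro x
    have := expNegInvGlue.hasDerivAt_polynomial_eval_inv_mul (1 : Polynomial ℝ) x
    simpa using this
  have hE' : HasDerivAt (fun x => expNegInvGlue (1 - x))
      (-((1 - s)⁻¹ ^ 2 * expNegInvGlue (1 - s))) s := by
    have := (hE (1 - s)).comp s ((hasDerivAt_id s).const_sub 1)
    simpa [Function.comp_def] using this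
  have h2 := (hE s).div ((hE s).add hE') (Real.smoothTransition.pos_denom s).ne'
  have h3 : dt s = _ := (dt_hasDerivAt s).unique h2
  rw [h3]
  have p1 := expNegInvGlue.pos_of_pos h0
  have p2 := expNegInvGlue.pos_of_pos (show 0 < 1 - s by linarith)
  have p3 : 0 < 1 - s := by linarith
  apply div_pos _ (by have := Real.smoothTransition.pos_denom s; positivity)
  simp only [Pi.add_apply]
  have : s⁻¹ ^ 2 * expNegInvGlue s * (expNegInvGlue s + expNegInvGlue (1 - s)) -
      expNegInvGlue s * (s⁻¹ ^ 2 * expNegInvGlue s + -((1 - s)⁻¹ ^ 2 * expNegInvGlue (1 - s))) =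
      s⁻¹ ^ 2 * expNegInvGlue s * expNegInvGlue (1 - s) +
      expNegInvGlue s * ((1 - s)⁻¹ ^ 2 * expNegInvGlue (1 - s)) := by ring
  rw [this]; positivity

/-- squared distance -/
noncomputable def sqd (p z : ℂ) : ℝ := (z.re - p.re) ^ 2 + (z.im - p.im) ^ 2

theorem sqd_eq (p z : ℂ) : sqd p z = ‖z - p‖ ^ 2 := by
  rw [Complex.sq_norm, Complex.normSq_apply]; simp [sqd]; ring

/-- the rescaled profile -/
noncomputable def kF (p : ℂ) (t : ℝ) (z : ℂ) : ℝ := kk (sqd p z / t ^ 2)

theorem sqd_hasFDerivAt (p z : ℂ) (t : ℝ) : HasFDerivAt (fun z => sqd p z / t ^ 2)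
    ((2 * (z.re - p.re) / t ^ 2) • Complex.reCLM + (2 * (z.im - p.im) / t ^ 2) • Complex.imCLM)
      z := by
  have h1 : HasFDerivAt (fun w : ℂ => w.re) Complex.reCLM z := Complex.reCLM.hasFDerivAt
  have h2 : HasFDerivAt (fun w : ℂ => w.im) Complex.imCLM z := Complex.imCLM.hasFDerivAt
  have h3 := ((((h1.sub_const p.re).pow 2).add ((h2.sub_const p.im).pow 2)).const_mul
    ((t ^ 2)⁻¹))
  have e : (fun w : ℂ => (t ^ 2)⁻¹ * ((w.re - p.re) ^ 2 + (w.im - p.im) ^ 2)) =
      fun w => sqd p w / t ^ 2 := by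
    ext w; unfold sqd; rw [div_eq_inv_mul]
  rw [← e]
  refine h3.congr_fderiv ?_
  ext v
  simp
  ring

theorem kF_contDiff (p : ℂ) (t : ℝ) : ContDiff ℝ ∞ (kF p t) := by
  have h1 : ContDiff ℝ ∞ fun w : ℂ => w.re := Complex.reCLM.contDiff
  have h2 : ContDiff ℝ ∞ fun w : ℂ => w.im := Complex.imCLM.contDiff
  have h3 : ContDiff ℝ ∞ fun z => sqd p z / t ^ 2 :=
    (((h1.sub contDiff_const).pow 2).add ((h2.sub contDiff_const).pow 2)).div_const _
  exact kk_contDiff.comp h3

theorem kF_fderiv (p z v : ℂ) (t : ℝ) : fderiv ℝ (kF p t) z v =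
    kq (sqd p z / t ^ 2) * (2 * (z.re - p.re) / t ^ 2 * v.re + 2 * (z.im - p.im) / t ^ 2 * v.im) := by
  have h := (kk_hasDerivAt (sqd p z / t ^ 2)).comp_hasFDerivAt z (sqd_hasFDerivAt p z t)
  have h2 : fderiv ℝ (kF p t) z = _ := h.fderiv
  rw [h2]
  simp
  ring

theorem kF_fderiv2 (p z v : ℂ) (t : ℝ) : fderiv ℝ (fun w => fderiv ℝ (kF p t) w v) z v =
    deriv kq (sqd p z / t ^ 2) *
      (2 * (z.re - p.re) / t ^ 2 * v.re + 2 * (z.im - p.im) / t ^ 2 * v.im) ^ 2 +
      kq (sqd p z / t ^ 2) * (2 / t ^ 2 * (v.re ^ 2 + v.im ^ 2)) := by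
  have e : (fun w => fderiv ℝ (kF p t) w v) = fun w => kq (sqd p w / t ^ 2) *
      (2 * (w.re - p.re) / t ^ 2 * v.re + 2 * (w.im - p.im) / t ^ 2 * v.im) := by
    ext w; exact kF_fderiv p w v t
  rw [e]
  have h0 : HasDerivAt kq (deriv kq (sqd p z / t ^ 2)) (sqd p z / t ^ 2) :=
    ((kq_contDiff.differentiable (by simp)) _).hasDerivAt
  have h := h0.comp_hasFDerivAt z (sqd_hasFDerivAt p z t)
  have h1 : HasFDerivAt (fun w : ℂ => w.re) Complex.reCLM z := Complex.reCLM.hasFDerivAt
  have h2 : HasFDerivAt (fun w : ℂ => w.im) Complex.imCLM z := Complex.imCLM.hasFDerivAt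
  have h3 := ((h1.sub_const p.re).const_mul (2 / t ^ 2 * v.re)).add
    ((h2.sub_const p.im).const_mul (2 / t ^ 2 * v.im))
  have e2 : ((fun y => 2 / t ^ 2 * v.re * ((fun w : ℂ => w.re) y - p.re)) +
      fun y => 2 / t ^ 2 * v.im * ((fun w : ℂ => w.im) y - p.im)) = fun w : ℂ =>
      (2 * (w.re - p.re) / t ^ 2 * v.re + 2 * (w.im - p.im) / t ^ 2 * v.im) := by
    ext w; simp only [Pi.add_apply]; ring
  rw [e2] at h3
  have h4 := h.mul h3
  have h5 : fderiv ℝ (fun w => kq (sqd p w / t ^ 2) *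
      (2 * (w.re - p.re) / t ^ 2 * v.re + 2 * (w.im - p.im) / t ^ 2 * v.im)) z = _ := h4.fderiv
  rw [h5]
  simp
  ring

/-- the mollification kernel -/
noncomputable def kM (p : ℂ) (t : ℝ) (z : ℂ) : ℝ := 4 / t ^ 2 * dt (sqd p z / t ^ 2)

theorem lap_kF (p z : ℂ) (t : ℝ) : lap (kF p t) z = kM p t z := by
  unfold lap kM
  rw [kF_fderiv2, kF_fderiv2]
  simp only [Complex.one_re, Complex.one_im, Complex.I_re, Complex.I_im, dt]
  unfold sqd
  ring

theorem lap_comb {f g : ℂ → ℝ} (hf : ContDiff ℝ ∞ f) (hg : ContDiff ℝ ∞ g) (c : ℝ) (z : ℂ) :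
    lap (fun z => f z - g z + c) z = lap f z - lap g z := by
  have hd : ∀ {h : ℂ → ℝ}, ContDiff ℝ ∞ h → Differentiable ℝ h := fun h =>
    h.differentiable (by simp)
  have hd2 : ∀ {h : ℂ → ℝ}, ContDiff ℝ ∞ h → ∀ v : ℂ, Differentiable ℝ fun w => fderiv ℝ h w v := by
    intro h hh v
    have : ContDiff ℝ ∞ fun w => fderiv ℝ h w v :=
      (hh.fderiv_right (m := ∞) (by simp)).clm_apply contDiff_const
    exact this.differentiable (by simp)
  have e : ∀ v : ℂ, (fun w => fderiv ℝ (fun z => f z - g z + c) w v) =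
      fun w => fderiv ℝ f w v - fderiv ℝ g w v := by
    intro v; ext w
    have h1 := (((hd hf) w).hasFDerivAt.sub ((hd hg) w).hasFDerivAt).add_const c
    have h2 : fderiv ℝ (fun z => f z - g z + c) w = _ := h1.fderiv
    rw [h2]; rfl
  unfold lap
  rw [e, e]
  have h1 : ∀ v : ℂ, fderiv ℝ (fun w => fderiv ℝ f w v - fderiv ℝ g w v) z v =
      fderiv ℝ (fun w => fderiv ℝ f w v) z v - fderiv ℝ (fun w => fderiv ℝ g w v) z v := by
    intro v
    have h2 := (((hd2 hf v) z).hasFDerivAt.sub ((hd2 hg v) z).hasFDerivAt).fderiv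
    rw [← sub_apply, ← h2]; rfl
  rw [h1, h1]; ring

theorem kM_continuous (p : ℂ) (t : ℝ) : Continuous (kM p t) := by
  have h1 : Continuous fun z => sqd p z / t ^ 2 := by
    unfold sqd; fun_prop
  exact continuous_const.mul (dt_continuous.comp h1)

theorem kM_nonneg (p : ℂ) (t : ℝ) (z : ℂ) : 0 ≤ kM p t z :=
  mul_nonneg (by positivity) (dt_nonneg _)

theorem kM_zero {p : ℂ} {t : ℝ} (ht : 0 < t) {z : ℂ} (hz : t ≤ ‖z - p‖) : kM p t z = 0 := by
  unfold kM
  rw [dt_zero, mul_zero]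
  rw [sqd_eq, le_div_iff₀ (by positivity), one_mul]
  gcongr

theorem kM_support {p : ℂ} {t : ℝ} (ht : 0 < t) : HasCompactSupport (kM p t) := by
  refine HasCompactSupport.intro (isCompact_closedBall p t) fun z hz => ?_
  rw [mem_closedBall_iff_norm, not_le] at hz
  exact kM_zero ht hz.le

/-- the averages of the indicator function are monotone -/
theorem avg_mono {Z : Set ℂ} 
    (h : ∀ η : ℂ → ℝ, ContDiff ℝ ∞ η → HasCompactSupport η → (∀ z, 0 ≤ η z) →
      (∀ z, 1 ≤ ‖z‖ → η z = 0) → ∫ z in Z, lap η z ≤ 0) {p : ℂ} {r R : ℝ} (hr : 0 < r)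
    (hrR : r < R) (hR : R + ‖p‖ ≤ 1) : ∫ z in Z, kM p R z ≤ ∫ z in Z, kM p r z := by
  have hR0 : 0 < R := hr.trans hrR
  set η : ℂ → ℝ := fun z => kF p R z - kF p r z + Real.log (R ^ 2 / r ^ 2) with hη
  have hz0 : ∀ z, R ≤ ‖z - p‖ → η z = 0 := by
    intro z hz
    have h1 : 1 ≤ sqd p z / R ^ 2 := by
      rw [sqd_eq, le_div_iff₀ (by positivity), one_mul]; gcongr
    have h2 : 1 ≤ sqd p z / r ^ 2 := by
      rw [sqd_eq, le_div_iff₀ (by positivity), one_mul]; gcongr; exact hrR.le.trans hz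
    have h3 : 0 < sqd p z := by
      rw [sqd_eq]; have : 0 < ‖z - p‖ := hR0.trans_le hz
      positivity
    simp only [hη, kF]
    rw [kk_log h1, kk_log h2, Real.log_div h3.ne' (by positivity),
      Real.log_div h3.ne' (by positivity), Real.log_div (by positivity) (by positivity)]
    ring
  have h1 := h η (((kF_contDiff p R).sub (kF_contDiff p r)).add contDiff_const)
    (HasCompactSupport.intro (isCompact_closedBall p R) fun z hz => by
      rw [mem_closedBall_iff_norm, not_le] at hz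
      exact hz0 z hz.le) ?_ ?_
  · have h2 : ∀ z, lap η z = kM p R z - kM p r z := fun z => by
      rw [hη, lap_comb (kF_contDiff p R) (kF_contDiff p r), lap_kF, lap_kF]
    simp only [h2] at h1
    rw [integral_sub ((kM_continuous p R).integrable_of_hasCompactSupport
      (kM_support hR0)).integrableOn ((kM_continuous p r).integrable_of_hasCompactSupport
      (kM_support hr)).integrableOn] at h1
    linarith
  · intro z
    simp only [hη, kF]
    rcases eq_or_ne (sqd p z) 0 with h3 | h3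
    · rw [h3, zero_div, zero_div, sub_self, zero_add]
      refine Real.log_nonneg ?_
      rw [le_div_iff₀ (by positivity), one_mul]; gcongr
    · have h4 : 0 < sqd p z := lt_of_le_of_ne (by rw [sqd_eq]; positivity) (Ne.symm h3)
      have h5 : sqd p z / R ^ 2 ≤ sqd p z / r ^ 2 := by gcongr
      have h6 := kk_anti (show sqd p z / R ^ 2 ∈ Ioi 0 by simp only [mem_Ioi]; positivity)
        (show sqd p z / r ^ 2 ∈ Ioi 0 by simp only [mem_Ioi]; positivity) h5
      simp only at h6
      rw [Real.log_div h4.ne' (by positivity), Real.log_div h4.ne' (by positivity)] at h6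
      rw [Real.log_div (by positivity) (by positivity)]
      linarith
  · intro z hz
    apply hz0
    have := norm_sub_norm_le z p
    linarith

theorem avg_null {Z : Set ℂ} (hZ : MeasurableSet Z)
    (h : ∀ η : ℂ → ℝ, ContDiff ℝ ∞ η → HasCompactSupport η → (∀ z, 0 ≤ η z) →
      (∀ z, 1 ≤ ‖z‖ → η z = 0) → ∫ z in Z, lap η z ≤ 0) {p : ℂ}
    (hp : Tendsto (fun r => ∫ z in Z, kM p r z) (𝓝[>] 0) (𝓝 0)) {R : ℝ} (hR0 : 0 < R)
    (hR : R + ‖p‖ ≤ 1) : volume (Z ∩ Metric.ball p R) = 0 := by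
  have h1 : ∫ z in Z, kM p R z ≤ 0 := by
    refine ge_of_tendsto hp ?_
    have : ∀ᶠ r : ℝ in 𝓝[>] 0, r ∈ Ioo 0 R := Ioo_mem_nhdsGT hR0
    filter_upwards [this] with r hr
    exact avg_mono h hr.1 hr.2 hR
  have h2 : ∫ z in Z, kM p R z = 0 := le_antisymm h1 (integral_nonneg (kM_nonneg p R))
  rw [integral_eq_zero_iff_of_nonneg (kM_nonneg p R)
    ((kM_continuous p R).integrable_of_hasCompactSupport (kM_support hR0)).integrableOn] at h2
  have h3 : ∀ᵐ z ∂(volume.restrict Z), z ∉ Metric.ball p R := by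
    have h4 : ∀ᵐ z ∂(volume.restrict Z), z ≠ p := by
      refine ae_restrict_of_ae ?_
      have : volume {p} = 0 := measure_singleton p
      exact compl_mem_ae_iff.2 this
    filter_upwards [h2, h4] with z hz hzp hzb
    rw [mem_ball_iff_norm] at hzb
    have h5 : 0 < ‖z - p‖ := norm_pos_iff.2 (sub_ne_zero.2 hzp)
    have h6 : 0 < dt (sqd p z / R ^ 2) := by
      apply dt_pos
      · rw [sqd_eq]; positivity
      · rw [sqd_eq, div_lt_one (by positivity)]; gcongr
    have h7 : 0 < kM p R z := mul_pos (by positivity) h6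
    exact h7.ne' hz
  rw [ae_iff, Measure.restrict_apply' hZ] at h3
  simp only [not_not] at h3
  rwa [inter_comm] at h3

theorem dens_tendsto {Z : Set ℂ} {p : ℂ}
    (hp : Tendsto (fun r => volume (Z ∩ Metric.closedBall p r) / volume (Metric.closedBall p r))
      (𝓝[>] 0) (𝓝 0)) : Tendsto (fun r => ∫ z in Z, kM p r z) (𝓝[>] 0) (𝓝 0) := by
  obtain ⟨M, hM⟩ : ∃ M, ∀ s ∈ Icc (0:ℝ) 1, |dt s| ≤ M := by
    obtain ⟨M, hM⟩ := isCompact_Icc.exists_bound_of_continuousOn
      (dt_continuous.continuousOn (s := Icc (0:ℝ) 1))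
    exact ⟨M, hM⟩
  have hM' : ∀ s, 0 ≤ s → dt s ≤ M := by
    intro s hs
    rcases le_total s 1 with h1 | h1
    · exact (le_abs_self _).trans (hM s ⟨hs, h1⟩)
    · rw [dt_zero h1]; exact (abs_nonneg _).trans (hM 0 ⟨le_rfl, zero_le_one⟩)
  have hM0 : 0 ≤ M := (dt_nonneg 0).trans (hM' 0 le_rfl)
  have hq : Tendsto (fun r => 4 * M * Real.pi * (volume (Z ∩ Metric.closedBall p r) /
      volume (Metric.closedBall p r)).toReal) (𝓝[>] 0) (𝓝 0) := by
    have := ((ENNReal.tendsto_toReal ENNReal.zero_ne_top).comp hp).const_mul (4 * M * Real.pi)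
    simpa [Function.comp_def] using this
  refine squeeze_zero' (Eventually.of_forall fun r => integral_nonneg (kM_nonneg p r)) ?_ hq
  filter_upwards [self_mem_nhdsWithin] with r hr
  have hr0 : 0 < r := hr
  have h1 : ∫ z in Z, kM p r z = ∫ z in Z, (Metric.closedBall p r).indicator (kM p r) z := by
    congr 1; ext z
    by_cases hz : z ∈ Metric.closedBall p r
    · rw [indicator_of_mem hz]
    · rw [indicator_of_notMem hz]
      rw [mem_closedBall_iff_norm, not_le] at hz
      exact kM_zero hr0 hz.le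
  rw [h1, setIntegral_indicator Metric.isClosed_closedBall.measurableSet]
  have hfin : volume (Z ∩ Metric.closedBall p r) < ⊤ :=
    (measure_mono inter_subset_right).trans_lt measure_closedBall_lt_top
  have h2 : ∀ z ∈ Z ∩ Metric.closedBall p r, ‖kM p r z‖ ≤ 4 / r ^ 2 * M := by
    intro z _
    rw [Real.norm_eq_abs, abs_of_nonneg (kM_nonneg p r z)]
    unfold kM
    gcongr
    exact hM' _ (by rw [sqd_eq]; positivity)
  have h3 := norm_setIntegral_le_of_norm_le_const hfin h2
  refine (le_abs_self _).trans (h3.trans (le_of_eq ?_))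
  rw [ENNReal.toReal_div]
  have h4 : (volume (Metric.closedBall p r)).toReal = Real.pi * r ^ 2 := by
    rw [Complex.volume_closedBall]
    simp [ENNReal.toReal_ofReal hr0.le]
    ring
  rw [h4]
  show 4 / r ^ 2 * M * (volume (Z ∩ Metric.closedBall p r)).toReal = _
  have := Real.pi_pos
  field_simp

/-- strong minimum principle -/
theorem min_principle {Z : Set ℂ} (hZ : MeasurableSet Z)
    (h : ∀ η : ℂ → ℝ, ContDiff ℝ ∞ η → HasCompactSupport η → (∀ z, 0 ≤ η z) →
      (∀ z, 1 ≤ ‖z‖ → η z = 0) → ∫ z in Z, lap η z ≤ 0)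
    (hlow : ∀ᵐ z, z ∈ Metric.ball (-(Complex.I / 2)) (1 / 4) → z ∈ Z) :
    ∀ᵐ z, z ∈ Metric.ball (0:ℂ) 1 → z ∈ Z := by
  set O : Set ℂ := {p | ∃ r > 0, volume (Z ∩ Metric.ball p r) = 0} with hO
  have hOo : IsOpen O := by
    rw [Metric.isOpen_iff]
    rintro p ⟨r, hr, h0⟩
    refine ⟨r / 2, by positivity, fun q hq => ⟨r / 2, by positivity, ?_⟩⟩
    refine measure_mono_null (inter_subset_inter_right _ ?_) h0
    apply Metric.ball_subset_ball'
    rw [Metric.mem_ball] at hq
    linarith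
  -- points of `O` inside the disc have large null balls
  have hbig : ∀ p ∈ O, ∀ R, 0 < R → R + ‖p‖ ≤ 1 → volume (Z ∩ Metric.ball p R) = 0 := by
    rintro p ⟨r, hr, h0⟩ R hR hRp
    refine avg_null hZ h ?_ hR hRp
    refine tendsto_const_nhds.congr' ?_
    filter_upwards [Ioo_mem_nhdsGT hr] with t ht
    symm
    have h1 : ∀ᵐ z ∂(volume.restrict Z), kM p t z = 0 := by
      rw [ae_restrict_iff' hZ]
      have : ∀ᵐ z, z ∉ Z ∩ Metric.ball p r := compl_mem_ae_iff.2 h0
      filter_upwards [this] with z hz hzZ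
      have h2 : z ∉ Metric.ball p r := fun h3 => hz ⟨hzZ, h3⟩
      rw [mem_ball_iff_norm, not_lt] at h2
      exact kM_zero ht.1 (ht.2.le.trans h2)
    rw [integral_congr_ae h1, integral_zero]
  have hcl : closure O ∩ Metric.ball (0:ℂ) 1 ⊆ O := by
    rintro p ⟨hp, hp1⟩
    rw [mem_ball_zero_iff] at hp1
    rw [Metric.mem_closure_iff] at hp
    obtain ⟨q, hq, hpq⟩ := hp ((1 - ‖p‖) / 4) (by linarith)
    have h1 : ‖q‖ ≤ ‖p‖ + (1 - ‖p‖) / 4 := by
      have h2 : ‖q‖ ≤ ‖p‖ + ‖q - p‖ := by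
        calc ‖q‖ = ‖p + (q - p)‖ := by congr 1; ring
          _ ≤ _ := norm_add_le _ _
      rw [dist_comm, dist_eq_norm] at hpq
      linarith
    have h3 := hbig q hq ((1 - ‖p‖) / 2) (by linarith) (by linarith)
    refine ⟨(1 - ‖p‖) / 4, by linarith, measure_mono_null (inter_subset_inter_right _ ?_) h3⟩
    apply Metric.ball_subset_ball'
    linarith
  -- the point `-i/2` does not belong to `O`
  have hnot : -(Complex.I / 2) ∉ O := by
    rintro ⟨r, hr, h0⟩
    have h1 : volume (Metric.ball (-(Complex.I / 2)) (min r (1 / 4))) = 0 := by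
      have h2 : ∀ᵐ z, z ∉ Z ∩ Metric.ball (-(Complex.I / 2)) r := compl_mem_ae_iff.2 h0
      have h3 : ∀ᵐ z, z ∉ Metric.ball (-(Complex.I / 2)) (min r (1 / 4)) := by
        filter_upwards [h2, hlow] with z h4 h5 h6
        exact h4 ⟨h5 (Metric.ball_subset_ball (min_le_right _ _) h6),
          Metric.ball_subset_ball (min_le_left _ _) h6⟩
      exact compl_mem_ae_iff.1 h3
    have h7 : 0 < volume (Metric.ball (-(Complex.I / 2)) (min r (1 / 4))) :=
      Metric.measure_ball_pos volume _ (by positivity)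
    exact h7.ne' h1
  have hne : ∀ p ∈ Metric.ball (0:ℂ) 1, p ∉ O := by
    intro p hp hpO
    have hpre : IsPreconnected (Metric.ball (0:ℂ) 1) := (convex_ball 0 1).isPreconnected
    have := hpre.subset_of_closure_inter_subset hOo ⟨p, hp, hpO⟩ hcl
    refine hnot (this ?_)
    rw [mem_ball_zero_iff, norm_neg, norm_div, Complex.norm_I]; norm_num
  have hdens := Besicovitch.ae_tendsto_measure_inter_div_of_measurableSet (volume : Measure ℂ) hZ
  filter_upwards [hdens] with z hz hzb
  by_contra hzZ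
  rw [indicator_of_notMem hzZ] at hz
  have h1 := avg_null hZ h (dens_tendsto hz) (R := 1 - ‖z‖)
    (by rw [mem_ball_zero_iff] at hzb; linarith) (by linarith)
  exact hne z hzb ⟨1 - ‖z‖, by rw [mem_ball_zero_iff] at hzb; linarith, h1⟩

end Pool.Agent.H617_HM
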