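import Pool.Agent.H617_HM.U1

/-!
# Solutions of the first order equation which are constant on a set of positive measure
-/

set_option autoImplicit false

open MeasureTheory Filter Topology Set
open scoped ContDiff

namespace Pool.Agent.H617_HM

open Pool.Agent.Helper985.VR

theorem alg_eq {a0 a1 a2 p0 p1 p2 q0 q1 q2 : ℝ} (h1 : a0 ^ 2 + a1 ^ 2 + a2 ^ 2 = 1)
    (hq : a0 * q0 + a1 * q1 + a2 * q2 = 0)
    (e0 : p0 + (a1 * q2 - a2 * q1) = 0) (e1 : p1 + (a2 * q0 - a0 * q2) = 0)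
    (e2 : p2 + (a0 * q1 - a1 * q0) = 0) :
    q0 = a1 * p2 - a2 * p1 ∧ 2 * (p1 * q2 - p2 * q1) =
      ((p0 ^ 2 + q0 ^ 2) + (p1 ^ 2 + q1 ^ 2) + (p2 ^ 2 + q2 ^ 2)) * a0 ∧
      p0 ^ 2 + q0 ^ 2 = ((p0 ^ 2 + q0 ^ 2) + (p1 ^ 2 + q1 ^ 2) + (p2 ^ 2 + q2 ^ 2)) / 2 *
        (1 - a0 ^ 2) := by
  have f0 : p0 = - (a1 * q2 - a2 * q1) := by linarith
  have f1 : p1 = - (a2 * q0 - a0 * q2) := by linarith
  have f2 : p2 = - (a0 * q1 - a1 * q0) := by linarith
  subst f0 f1 f2
  have hn : (- (a1 * q2 - a2 * q1)) ^ 2 + (- (a2 * q0 - a0 * q2)) ^ 2 +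
      (- (a0 * q1 - a1 * q0)) ^ 2 = q0 ^ 2 + q1 ^ 2 + q2 ^ 2 := by
    linear_combination (q0 ^ 2 + q1 ^ 2 + q2 ^ 2) * h1 - (a0 * q0 + a1 * q1 + a2 * q2) * hq
  refine ⟨?_, ?_, ?_⟩
  · linear_combination (-q0) * h1 + a0 * hq
  · linear_combination (-a0) * hn - 2 * q0 * hq
  · have h3 : (- (a1 * q2 - a2 * q1)) ^ 2 + q0 ^ 2 = (q0 ^ 2 + q1 ^ 2 + q2 ^ 2) * (1 - a0 ^ 2) := by
      linear_combination (q1 ^ 2 + q2 ^ 2) * h1 + (a0 * q0 - a1 * q1 - a2 * q2) * hq
    linear_combination h3 - ((1 - a0 ^ 2) / 2) * hn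

section sol

variable {D : Set ℂ} {c : Fin 3 → ℝ} {b u ux uy : Fin 3 → ℂ → ℝ}

theorem sol_weak (h : Adm D c b u ux uy) (hb : ∀ i, ∀ᵐ z, |b i z| ≤ 1)
    (hc : c 0 ^ 2 + c 1 ^ 2 + c 2 ^ 2 = 1) (hc1 : c 1 = 0) (hc2 : c 2 = 0)
    (hq : ∀ᵐ z, z ∈ D → ∀ i, Qv u ux uy i z = 0) {φ φx φy : ℂ → ℝ} (hφ : S1 φ φx φy)
    (hφb : ∃ M, ∀ᵐ z, |φ z| ≤ M) (h0 : ∀ᵐ z, z ∉ D → φ z = 0) :
    ∫ z, (ux 0 z * φx z + uy 0 z * φy z) = ∫ z, eD ux uy z * u 0 z * φ z := by
  obtain ⟨M, hM⟩ := hφb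
  have orth := h.orth hb hc
  set M' := max M (max 1 1 + 1) with hM'
  have b1 : ∀ᵐ z, |φ z| ≤ M' := by
    filter_upwards [hM] with z hz; exact hz.trans (le_max_left _ _)
  have b2 : ∀ i, c i = 0 → ∀ᵐ z, |u i z - c i| ≤ M' := by
    intro i hi
    filter_upwards [h.bdd' hb i] with z hz
    rw [hi, abs_zero] at hz
    rw [hi]
    exact hz.trans ((by linarith : max (1:ℝ) 1 + 0 ≤ max 1 1 + 1).trans (le_max_right _ _))
  have d1 := det_int (hφ.mul (h.s1 1) b1 (b2 1 hc1)) (h.s1 2)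
  have d2 := det_int (hφ.mul (h.s1 2) b1 (b2 2 hc2)) (h.s1 1)
  have s1 := hφ.mul (h.s1 1) b1 (b2 1 hc1)
  have s2 := hφ.mul (h.s1 2) b1 (b2 2 hc2)
  have j1 := s1.lx.mul (h.s1 2).ly
  have j2 := s1.ly.mul (h.s1 2).lx
  have j3 := s2.lx.mul (h.s1 1).ly
  have j4 := s2.ly.mul (h.s1 1).lx
  have key : ∫ z, ((φx z * (u 1 z - c 1) + φ z * ux 1 z) * uy 2 z -
      (φy z * (u 1 z - c 1) + φ z * uy 1 z) * ux 2 z -
      ((φx z * (u 2 z - c 2) + φ z * ux 2 z) * uy 1 z -
      (φy z * (u 2 z - c 2) + φ z * uy 2 z) * ux 1 z)) = 0 := by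
    have j12 : Integrable fun z => (φx z * (u 1 z - c 1) + φ z * ux 1 z) * uy 2 z -
      (φy z * (u 1 z - c 1) + φ z * uy 1 z) * ux 2 z := j1.sub j2
    have j34 : Integrable fun z => (φx z * (u 2 z - c 2) + φ z * ux 2 z) * uy 1 z -
      (φy z * (u 2 z - c 2) + φ z * uy 2 z) * ux 1 z := j3.sub j4
    rw [integral_sub j12 j34, integral_sub j1 j2, integral_sub j3 j4, d1, d2]
    ring
  have i1 : Integrable fun z => ux 0 z * φx z + uy 0 z * φy z :=
    ((h.s1 0).lx.mul hφ.lx).add ((h.s1 0).ly.mul hφ.ly)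
  have e : ∀ᵐ z, ((φx z * (u 1 z - c 1) + φ z * ux 1 z) * uy 2 z -
      (φy z * (u 1 z - c 1) + φ z * uy 1 z) * ux 2 z -
      ((φx z * (u 2 z - c 2) + φ z * ux 2 z) * uy 1 z -
      (φy z * (u 2 z - c 2) + φ z * uy 2 z) * ux 1 z)) =
      eD ux uy z * u 0 z * φ z - (ux 0 z * φx z + uy 0 z * φy z) := by
    filter_upwards [h0, hφ.zero_set, orth, h.unit, hq] with z k0 k1 k2 k3 k4
    by_cases hz : z ∈ D
    · have q := k4 hz
      obtain ⟨a1, a2, a3⟩ := alg_eq (k3 hz) (k2 hz).2 (q 0) (q 1) (q 2)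
      have a0 : ux 0 z + (u 1 z * uy 2 z - u 2 z * uy 1 z) = 0 := q 0
      rw [hc1, hc2]
      unfold eD
      rw [Fin.sum_univ_three]
      linear_combination φx z * a0 + φy z * a1 + φ z * a2
    · obtain ⟨k5, k6⟩ := k1 (k0 hz)
      rw [k0 hz, k5, k6]; ring
  rw [integral_congr_ae e] at key
  have i2 : Integrable fun z => eD ux uy z * u 0 z * φ z := by
    have h1 : Integrable fun z => eD ux uy z * u 0 z * φ z - (ux 0 z * φx z + uy 0 z * φy z) := by
      refine ((j1.sub j2).sub (j3.sub j4)).congr ?_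
      filter_upwards [e] with z hz
      simpa only [Pi.sub_apply] using hz
    refine (h1.add i1).congr ?_
    filter_upwards with z
    simp only [Pi.add_apply]; ring
  rw [integral_sub i2 i1] at key
  linarith

/-- the clamped function -/
noncomputable def cl (t : ℝ) : ℝ := max (-2) (min 0 t)

theorem cl_mem (t : ℝ) : cl t ∈ Icc (-2:ℝ) 0 :=
  ⟨le_max_left _ _, max_le (by norm_num) (min_le_left _ _)⟩

theorem cl_eq {t : ℝ} (h : |t + 1| ≤ 1) : cl t = t := by
  rw [abs_le] at h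
  unfold cl
  rw [min_eq_right (by linarith), max_eq_right (by linarith)]

theorem sol_log (h : Adm D c b u ux uy) (hb : ∀ i, ∀ᵐ z, |b i z| ≤ 1)
    (hc : c 0 ^ 2 + c 1 ^ 2 + c 2 ^ 2 = 1) (hc0 : c 0 = 1) (hc1 : c 1 = 0) (hc2 : c 2 = 0)
    (hq : ∀ᵐ z, z ∈ D → ∀ i, Qv u ux uy i z = 0) {κ : ℝ} (k0 : 0 < κ) (k1 : κ < 1)
    {η : ℂ → ℝ} (hη : ContDiff ℝ ∞ η) (hηc : HasCompactSupport η) (hη0 : ∀ z, 0 ≤ η z)
    (hηD : ∀ z, z ∉ D → η z = 0) :
    - (1 / 2) * (∫ z, η z * eD ux uy z) ≤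
      ∫ z, (Real.log (1 - κ * (1 + cl (u 0 z - 1))) - Real.log (1 - κ)) * lap η z := by
  have hk : 0 < 1 - κ := by linarith
  -- the function `u 0 - 1`
  have hm : Measurable fun z => cl (u 0 z - 1) :=
    measurable_const.max (measurable_const.min ((h.meas 0).sub_const 1))
  have hfe : ∀ᵐ z, u 0 z - 1 = cl (u 0 z - 1) := by
    filter_upwards [h.bdd hb 0] with z hz
    rw [cl_eq]; simpa using hz
  have hf : S1 (fun z => cl (u 0 z - 1)) (ux 0) (uy 0) := by
    refine (h.s1 0).congr hm (h.s1 0).lx.1 (h.s1 0).ly.1 ?_ (ae_eq_refl _) (ae_eq_refl _)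
    filter_upwards [hfe] with z hz
    rw [← hz, hc0]
  set f : ℂ → ℝ := fun z => cl (u 0 z - 1) with hfdef
  have hfS : ∀ z, f z ∈ Icc (-2:ℝ) 0 := fun z => cl_mem _
  have hden : ∀ t ∈ Icc (-2:ℝ) 0, 1 - κ ≤ 1 - κ * (1 + t) := by
    intro t ht
    have := ht.2
    nlinarith
  have hdenf : ∀ z, 1 - κ ≤ 1 - κ * (1 + f z) := fun z => hden _ (hfS z)
  -- the logarithm
  have hlogd : ∀ t ∈ Icc (-2:ℝ) 0, HasDerivAt (fun t => Real.log (1 - κ * (1 + t)) -
      Real.log (1 - κ)) (-κ / (1 - κ * (1 + t))) t := by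
    intro t ht
    have h2 : HasDerivAt (fun t => 1 - κ * (1 + t)) (-κ) t := by
      have := (((hasDerivAt_id t).const_add 1).const_mul κ).const_sub 1
      simpa using this
    exact (h2.log (by have := hden t ht; linarith)).sub_const _
  have hGm : Measurable fun z => Real.log (1 - κ * (1 + f z)) - Real.log (1 - κ) :=
    (Real.measurable_log.comp (measurable_const.sub (measurable_const.mul
      (measurable_const.add hm)))).sub_const _
  have hlogb : ∀ t ∈ Icc (-2:ℝ) 0, |Real.log (1 - κ * (1 + t)) - Real.log (1 - κ)| ≤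
      κ / (1 - κ) * |t| := by
    intro t ht
    have := Convex.norm_image_sub_le_of_norm_hasDerivWithin_le (f := fun t =>
      Real.log (1 - κ * (1 + t)) - Real.log (1 - κ)) (f' := fun t => -κ / (1 - κ * (1 + t)))
      (s := Icc (-2:ℝ) 0) (x := 0) (y := t) (C := κ / (1 - κ))
      (fun x hx => (hlogd x hx).hasDerivWithinAt) (fun x hx => by
        have := hden x hx
        rw [Real.norm_eq_abs, abs_div, abs_neg, abs_of_pos k0, abs_of_pos (by linarith)]
        gcongr) (convex_Icc _ _) ⟨by norm_num, le_rfl⟩ ht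
    simpa using this
  have hG : S1 (fun z => Real.log (1 - κ * (1 + f z)) - Real.log (1 - κ))
      (fun z => -κ / (1 - κ * (1 + f z)) * ux 0 z) (fun z => -κ / (1 - κ * (1 + f z)) * uy 0 z) := by
    refine hf.comp (convex_Icc (-2) 0) hfS hlogd (κ / (1 - κ)) ?_ ?_ ?_
    · intro t ht
      have := hden t ht
      rw [abs_div, abs_neg, abs_of_pos k0, abs_of_pos (by linarith)]
      gcongr
    · refine (hf.l.const_mul (κ / (1 - κ))).mono hGm ?_
      filter_upwards with z
      rw [abs_mul, abs_of_pos (div_pos k0 hk)]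
      exact hlogb _ (hfS z)
    · exact measurable_const.div (measurable_const.sub (measurable_const.mul
        (measurable_const.add hm)))
  -- the test function
  have hPd : ∀ t ∈ Icc (-2:ℝ) 0, HasDerivAt (fun t => (1 - κ * (1 + t))⁻¹ - (1 - κ)⁻¹)
      (κ / (1 - κ * (1 + t)) ^ 2) t := by
    intro t ht
    have h2 : HasDerivAt (fun t => 1 - κ * (1 + t)) (-κ) t := by
      have := (((hasDerivAt_id t).const_add 1).const_mul κ).const_sub 1
      simpa using this
    have h3 := (h2.inv (by have := hden t ht; linarith)).sub_const ((1 - κ)⁻¹)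
    simpa using h3
  have hPb : ∀ t ∈ Icc (-2:ℝ) 0, |κ / (1 - κ * (1 + t)) ^ 2| ≤ κ / (1 - κ) ^ 2 := by
    intro t ht
    have := hden t ht
    rw [abs_div, abs_of_pos k0, abs_of_nonneg (by positivity)]
    gcongr
  have hPb2 : ∀ t ∈ Icc (-2:ℝ) 0, |(1 - κ * (1 + t))⁻¹ - (1 - κ)⁻¹| ≤
      κ / (1 - κ) ^ 2 * |t| := by
    intro t ht
    have := Convex.norm_image_sub_le_of_norm_hasDerivWithin_le (f := fun t =>
      (1 - κ * (1 + t))⁻¹ - (1 - κ)⁻¹) (f' := fun t => κ / (1 - κ * (1 + t)) ^ 2)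
      (s := Icc (-2:ℝ) 0) (x := 0) (y := t) (C := κ / (1 - κ) ^ 2)
      (fun x hx => (hPd x hx).hasDerivWithinAt) (fun x hx => hPb x hx)
      (convex_Icc _ _) ⟨by norm_num, le_rfl⟩ ht
    simpa using this
  have hPm : Measurable fun z => (1 - κ * (1 + f z))⁻¹ - (1 - κ)⁻¹ :=
    ((measurable_const.sub (measurable_const.mul (measurable_const.add hm))).inv).sub_const _
  have hP : S1 (fun z => (1 - κ * (1 + f z))⁻¹ - (1 - κ)⁻¹)
      (fun z => κ / (1 - κ * (1 + f z)) ^ 2 * ux 0 z)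
      (fun z => κ / (1 - κ * (1 + f z)) ^ 2 * uy 0 z) := by
    refine hf.comp (convex_Icc (-2) 0) hfS hPd _ hPb ?_ ?_
    · refine (hf.l.const_mul (κ / (1 - κ) ^ 2)).mono hPm ?_
      filter_upwards with z
      rw [abs_mul, abs_of_pos (by positivity : 0 < κ / (1 - κ) ^ 2)]
      exact hPb2 _ (hfS z)
    · exact measurable_const.div ((measurable_const.sub (measurable_const.mul
        (measurable_const.add hm))).pow_const 2)
  have hφ : S1 (fun z => η z * (1 - κ * (1 + f z))⁻¹)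
      (fun z => fderiv ℝ η z 1 * (1 - κ * (1 + f z))⁻¹ +
        η z * (κ / (1 - κ * (1 + f z)) ^ 2 * ux 0 z))
      (fun z => fderiv ℝ η z Complex.I * (1 - κ * (1 + f z))⁻¹ +
        η z * (κ / (1 - κ * (1 + f z)) ^ 2 * uy 0 z)) := by
    refine (((S1.of_smooth hη hηc).const_mul ((1 - κ)⁻¹)).add (hP.mul_cc hη hηc)).of_eq ?_ ?_ ?_
    · intro z; ring
    · intro z; ring
    · intro z; ring
  obtain ⟨M, hM⟩ := hηc.exists_bound_of_continuous hη.continuous
  have hweak := sol_weak h hb hc hc1 hc2 hq hφ ⟨M * (1 - κ)⁻¹, by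
    filter_upwards with z
    rw [abs_mul, abs_inv, abs_of_pos (show 0 < 1 - κ * (1 + f z) by have := hdenf z; linarith)]
    have h1 := hM z
    rw [Real.norm_eq_abs] at h1
    have h2 := hdenf z
    have h3 : 0 ≤ M := (abs_nonneg _).trans h1
    have h5 : 0 ≤ (1 - κ * (1 + f z))⁻¹ := inv_nonneg.2 (by linarith)
    gcongr⟩ (by
    filter_upwards with z hz
    rw [hηD z hz, zero_mul])
  -- the Laplacian
  have hx1 : ContDiff ℝ ∞ fun z => fderiv ℝ η z 1 :=
    (hη.fderiv_right (m := ∞) (by simp)).clm_apply contDiff_const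
  have hy1 : ContDiff ℝ ∞ fun z => fderiv ℝ η z Complex.I :=
    (hη.fderiv_right (m := ∞) (by simp)).clm_apply contDiff_const
  have hxc : HasCompactSupport fun z => fderiv ℝ η z 1 := fderiv_cc_support hηc _
  have hyc : HasCompactSupport fun z => fderiv ℝ η z Complex.I := fderiv_cc_support hηc _
  have w1 := hG.dx _ hx1 hxc
  have w2 := hG.dy _ hy1 hyc
  have sx := S1.of_smooth hx1 hxc
  have sy := S1.of_smooth hy1 hyc
  have g1 := hG.l.mul sx.lx
  have g2 := hG.l.mul sy.ly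
  have g3 := hG.lx.mul sx.l
  have g4 := hG.ly.mul sy.l
  have hlapint : ∫ z, (Real.log (1 - κ * (1 + f z)) - Real.log (1 - κ)) * lap η z =
      κ * ∫ z, (1 - κ * (1 + f z))⁻¹ * (ux 0 z * fderiv ℝ η z 1 +
        uy 0 z * fderiv ℝ η z Complex.I) := by
    have e1 : (fun z => (Real.log (1 - κ * (1 + f z)) - Real.log (1 - κ)) * lap η z) =
        fun z => (Real.log (1 - κ * (1 + f z)) - Real.log (1 - κ)) *
          fderiv ℝ (fun z => fderiv ℝ η z 1) z 1 +
          (Real.log (1 - κ * (1 + f z)) - Real.log (1 - κ)) *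
          fderiv ℝ (fun z => fderiv ℝ η z Complex.I) z Complex.I := by
      ext z; unfold lap; ring
    rw [e1, integral_add g1 g2, w1, w2, ← integral_const_mul, ← neg_add, ← integral_add g3 g4,
      ← integral_neg]
    congr 1; ext z
    rw [div_eq_mul_inv]; ring
  show _ ≤ ∫ z, (Real.log (1 - κ * (1 + f z)) - Real.log (1 - κ)) * lap η z
  rw [hlapint]
  -- combine
  have iA : Integrable fun z => (1 - κ * (1 + f z))⁻¹ * (ux 0 z * fderiv ℝ η z 1 +
        uy 0 z * fderiv ℝ η z Complex.I) := by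
    refine (((hG.lx.mul sx.l).add (hG.ly.mul sy.l)).const_mul (-κ⁻¹)).congr ?_
    filter_upwards with z
    simp only [Pi.add_apply]
    rw [div_eq_mul_inv]
    field_simp
    ring
  have iT : Integrable fun z => ux 0 z * (fderiv ℝ η z 1 * (1 - κ * (1 + f z))⁻¹ +
        η z * (κ / (1 - κ * (1 + f z)) ^ 2 * ux 0 z)) +
        uy 0 z * (fderiv ℝ η z Complex.I * (1 - κ * (1 + f z))⁻¹ +
        η z * (κ / (1 - κ * (1 + f z)) ^ 2 * uy 0 z)) :=
    ((h.s1 0).lx.mul hφ.lx).add ((h.s1 0).ly.mul hφ.ly)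
  have iB : Integrable fun z => η z * κ / (1 - κ * (1 + f z)) ^ 2 * (ux 0 z ^ 2 + uy 0 z ^ 2) := by
    refine (iT.sub iA).congr ?_
    filter_upwards with z
    simp only [Pi.sub_apply]
    ring
  have iE : Integrable fun z => η z * eD ux uy z := by
    have h1 := h.eD_int
    refine (h1.const_mul M).mono' (hη.continuous.measurable.aestronglyMeasurable.mul
      h1.aestronglyMeasurable) ?_
    filter_upwards with z
    rw [Real.norm_eq_abs, abs_mul, abs_of_nonneg (eD_nonneg ux uy z)]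
    exact mul_le_mul_of_nonneg_right (hM z) (eD_nonneg ux uy z)
  have iR : Integrable fun z => eD ux uy z * u 0 z * (η z * (1 - κ * (1 + f z))⁻¹) := by
    refine (iE.const_mul ((1 - κ)⁻¹)).mono' ?_ ?_
    · exact ((h.eD_int.aestronglyMeasurable.mul (h.meas 0).aestronglyMeasurable).mul
        (hη.continuous.measurable.mul ((measurable_const.sub (measurable_const.mul
          (measurable_const.add hm))).inv)).aestronglyMeasurable)
    · filter_upwards [h.bdd hb 0] with z hz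
      rw [max_self] at hz
      rw [Real.norm_eq_abs, abs_mul, abs_mul, abs_mul, abs_of_nonneg (eD_nonneg ux uy z),
        abs_of_nonneg (hη0 z), abs_inv, abs_of_pos (show 0 < 1 - κ * (1 + f z) by
          have := hdenf z; linarith)]
      have h4 : (1 - κ * (1 + f z))⁻¹ ≤ (1 - κ)⁻¹ := inv_anti₀ hk (hdenf z)
      have h5 : 0 ≤ (1 - κ * (1 + f z))⁻¹ := inv_nonneg.2 (by have := hdenf z; linarith)
      calc eD ux uy z * |u 0 z| * (η z * (1 - κ * (1 + f z))⁻¹)
          ≤ eD ux uy z * 1 * (η z * (1 - κ)⁻¹) := by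
            have := eD_nonneg ux uy z
            have := hη0 z
            gcongr
        _ = (1 - κ)⁻¹ * (η z * eD ux uy z) := by ring
  have hsplit : ∫ z, (1 - κ * (1 + f z))⁻¹ * (ux 0 z * fderiv ℝ η z 1 +
        uy 0 z * fderiv ℝ η z Complex.I) =
      ∫ z, (eD ux uy z * u 0 z * (η z * (1 - κ * (1 + f z))⁻¹) -
        η z * κ / (1 - κ * (1 + f z)) ^ 2 * (ux 0 z ^ 2 + uy 0 z ^ 2)) := by
    rw [integral_sub iR iB, ← hweak, ← integral_sub iT iB]
    congr 1; ext z
    ring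
  rw [hsplit, ← integral_const_mul, ← integral_const_mul]
  refine integral_mono_ae (iE.const_mul _) ((iR.sub iB).const_mul κ) ?_
  filter_upwards [hfe, h.unit, h.orth hb hc, hq] with z z1 z2 z3 z4
  by_cases hz : z ∈ D
  · have q := z4 hz
    obtain ⟨a1, a2, a3⟩ := alg_eq (z2 hz) (z3 hz).2 (q 0) (q 1) (q 2)
    have a4 : ux 0 z ^ 2 + uy 0 z ^ 2 = eD ux uy z / 2 * (1 - u 0 z ^ 2) := by
      unfold eD; rw [Fin.sum_univ_three]; exact a3
    have z1' : f z = u 0 z - 1 := z1.symm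
    have hd := hdenf z
    rw [z1'] at hd
    show _ ≤ κ * (eD ux uy z * u 0 z * (η z * (1 - κ * (1 + f z))⁻¹) -
        η z * κ / (1 - κ * (1 + f z)) ^ 2 * (ux 0 z ^ 2 + uy 0 z ^ 2))
    rw [a4, z1']
    have e5 : 1 + (u 0 z - 1) = u 0 z := by ring
    rw [e5] at hd ⊢
    have hd0 : 0 < 1 - κ * u 0 z := by linarith
    have e6 : κ * (eD ux uy z * u 0 z * (η z * (1 - κ * u 0 z)⁻¹) -
        η z * κ / (1 - κ * u 0 z) ^ 2 * (eD ux uy z / 2 * (1 - u 0 z ^ 2))) -
        (-(1 / 2) * (η z * eD ux uy z)) =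
        (1 - κ ^ 2) / 2 * (η z * eD ux uy z) / (1 - κ * u 0 z) ^ 2 := by
      field_simp
      ring
    have e7 : 0 ≤ (1 - κ ^ 2) / 2 * (η z * eD ux uy z) / (1 - κ * u 0 z) ^ 2 := by
      have := hη0 z
      have := eD_nonneg ux uy z
      have : 0 ≤ 1 - κ ^ 2 := by nlinarith
      positivity
    linarith
  · rw [hηD z hz]; simp

theorem sol_lim (h : Adm D c b u ux uy) (hb : ∀ i, ∀ᵐ z, |b i z| ≤ 1)
    (hc : c 0 ^ 2 + c 1 ^ 2 + c 2 ^ 2 = 1) (hc0 : c 0 = 1) (hc1 : c 1 = 0) (hc2 : c 2 = 0)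
    (hq : ∀ᵐ z, z ∈ D → ∀ i, Qv u ux uy i z = 0)
    {η : ℂ → ℝ} (hη : ContDiff ℝ ∞ η) (hηc : HasCompactSupport η) (hη0 : ∀ z, 0 ≤ η z)
    (hηD : ∀ z, z ∉ D → η z = 0) :
    ∫ z in {z | cl (u 0 z - 1) = 0}, lap η z ≤ 0 := by
  have hm : Measurable fun z => cl (u 0 z - 1) :=
    measurable_const.max (measurable_const.min ((h.meas 0).sub_const 1))
  set f : ℂ → ℝ := fun z => cl (u 0 z - 1) with hfdef
  have hfS : ∀ z, f z ∈ Icc (-2:ℝ) 0 := fun z => cl_mem _
  have hZ : MeasurableSet {z | f z = 0} := hm (measurableSet_singleton 0)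
  have hx1 : ContDiff ℝ ∞ fun z => fderiv ℝ η z 1 :=
    (hη.fderiv_right (m := ∞) (by simp)).clm_apply contDiff_const
  have hy1 : ContDiff ℝ ∞ fun z => fderiv ℝ η z Complex.I :=
    (hη.fderiv_right (m := ∞) (by simp)).clm_apply contDiff_const
  have hxc : HasCompactSupport fun z => fderiv ℝ η z 1 := fderiv_cc_support hηc _
  have hyc : HasCompactSupport fun z => fderiv ℝ η z Complex.I := fderiv_cc_support hηc _
  have hlc : Continuous (lap η) :=
    (fderiv_cc_continuous hx1 _).add (fderiv_cc_continuous hy1 _)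
  have hls : HasCompactSupport (lap η) :=
    (fderiv_cc_support hxc _).add (fderiv_cc_support hyc _)
  have hli : Integrable (lap η) := hlc.integrable_of_hasCompactSupport hls
  -- the total integral of the Laplacian vanishes
  have htot : ∫ z, lap η z = 0 := by
    have hv : ∀ (g : ℂ → ℝ) (v : ℂ), ContDiff ℝ ∞ g → HasCompactSupport g →
        ∫ z, fderiv ℝ g z v = 0 := by
      intro g v hg hgc
      have i1 : Integrable fun z => (fun _ => (1:ℝ)) z * fderiv ℝ g z v := by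
        have := (fderiv_cc_continuous hg v).integrable_of_hasCompactSupport
          (μ := (volume : Measure ℂ)) (fderiv_cc_support hgc v)
        simpa using this
      have i2 : Integrable fun z => (fun _ => (1:ℝ)) z * g z := by
        have := hg.continuous.integrable_of_hasCompactSupport (μ := (volume : Measure ℂ)) hgc
        simpa using this
      have h1 := integral_mul_fderiv_eq_neg_fderiv_mul_of_integrable (μ := (volume : Measure ℂ))
        (f := fun _ => (1:ℝ)) (g := g) (v := v) (by simp) i1 i2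
        (fun x _ => differentiableAt_const _) (fun x _ => (hg.differentiable (by simp)) x)
      simpa using h1
    unfold lap
    rw [integral_add ((fderiv_cc_continuous hx1 _).integrable_of_hasCompactSupport
      (fderiv_cc_support hxc _)) ((fderiv_cc_continuous hy1 _).integrable_of_hasCompactSupport
      (fderiv_cc_support hyc _)), hv _ _ hx1 hxc, hv _ _ hy1 hyc, add_zero]
  -- the sequence
  set κ : ℕ → ℝ := fun n => 1 - Real.exp (-((n:ℝ) + 1)) with hκ
  have kp : ∀ n, 0 < κ n := by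
    intro n
    simp only [hκ, sub_pos, Real.exp_lt_one_iff]
    have : (0:ℝ) ≤ n := Nat.cast_nonneg n
    linarith
  have k1 : ∀ n, κ n < 1 := by
    intro n
    simp only [hκ]
    have := Real.exp_pos (-((n:ℝ) + 1))
    linarith
  have hlogk : ∀ n, Real.log (1 - κ n) = -((n:ℝ) + 1) := by
    intro n
    simp only [hκ, sub_sub_cancel, Real.log_exp]
  have key : ∀ n : ℕ, - (1 / 2) * (∫ z, η z * eD ux uy z) * (1 / ((n:ℝ) + 1)) ≤
      ∫ z, (Real.log (1 - κ n * (1 + f z)) + ((n:ℝ) + 1)) / ((n:ℝ) + 1) * lap η z := by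
    intro n
    have h1 := sol_log h hb hc hc0 hc1 hc2 hq (kp n) (k1 n) hη hηc hη0 hηD
    have h2 : (0:ℝ) < (n:ℝ) + 1 := by positivity
    have e1 : ∫ z, (Real.log (1 - κ n * (1 + f z)) + ((n:ℝ) + 1)) / ((n:ℝ) + 1) * lap η z =
        (∫ z, (Real.log (1 - κ n * (1 + f z)) - Real.log (1 - κ n)) * lap η z) *
          (1 / ((n:ℝ) + 1)) := by
      rw [← integral_mul_const]
      congr 1; ext z
      rw [hlogk n]; ring
    rw [e1]
    gcongr
  have hL : Tendsto (fun n : ℕ => - (1 / 2) * (∫ z, η z * eD ux uy z) * (1 / ((n:ℝ) + 1))) atTop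
      (𝓝 0) := by
    have := (tendsto_one_div_add_atTop_nhds_zero_nat (𝕜 := ℝ)).const_mul
      (- (1 / 2) * (∫ z, η z * eD ux uy z))
    simpa using this
  have hR : Tendsto (fun n : ℕ => ∫ z, (Real.log (1 - κ n * (1 + f z)) + ((n:ℝ) + 1)) /
      ((n:ℝ) + 1) * lap η z) atTop (𝓝 (∫ z, ({z | f z = 0}ᶜ).indicator (lap η) z)) := by
    refine tendsto_integral_of_dominated_convergence (fun z => 2 * |lap η z|) ?_
      (hli.abs.const_mul 2) ?_ ?_
    · intro n
      exact (((Real.measurable_log.comp (measurable_const.sub (measurable_const.mul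
        (measurable_const.add hm)))).add_const _).div_const _).aestronglyMeasurable.mul
        hlc.aestronglyMeasurable
    · intro n
      filter_upwards with z
      rw [Real.norm_eq_abs, abs_mul]
      gcongr
      have h2 : (0:ℝ) < (n:ℝ) + 1 := by positivity
      have h3 : 1 - κ n ≤ 1 - κ n * (1 + f z) := by
        have := (hfS z).2
        have := kp n
        nlinarith
      have h4 : 1 - κ n * (1 + f z) ≤ 2 := by
        have := (hfS z).1
        have := kp n
        have := k1 n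
        nlinarith
      have h5 : 0 < 1 - κ n := by have := k1 n; linarith
      have h6 := Real.log_le_log h5 h3
      rw [hlogk n] at h6
      have h7 : Real.log (1 - κ n * (1 + f z)) ≤ 1 := by
        have := Real.log_le_sub_one_of_pos (show 0 < 1 - κ n * (1 + f z) by linarith)
        linarith
      rw [abs_div, abs_of_pos h2, div_le_iff₀ h2, abs_le]
      have h8 : (0:ℝ) ≤ n := Nat.cast_nonneg n
      constructor <;> nlinarith
    · filter_upwards with z
      rcases eq_or_ne (f z) 0 with hz | hz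
      · have e1 : ∀ n : ℕ, (Real.log (1 - κ n * (1 + f z)) + ((n:ℝ) + 1)) / ((n:ℝ) + 1) *
            lap η z = 0 := by
          intro n
          rw [hz, add_zero, mul_one, hlogk n]; simp
        simp only [e1]
        rw [indicator_of_notMem (by simp [hz])]
        exact tendsto_const_nhds
      · rw [indicator_of_mem (by simpa using hz)]
        have hlt : f z < 0 := lt_of_le_of_ne (hfS z).2 hz
        have h1 : Tendsto κ atTop (𝓝 1) := by
          have h2 : Tendsto (fun n : ℕ => Real.exp (-((n:ℝ) + 1))) atTop (𝓝 0) := by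
            refine Real.tendsto_exp_neg_atTop_nhds_zero.comp ?_
            exact tendsto_atTop_add_const_right _ _ tendsto_natCast_atTop_atTop
          have := h2.const_sub 1
          rwa [sub_zero] at this
        have h3 : Tendsto (fun n => Real.log (1 - κ n * (1 + f z))) atTop
            (𝓝 (Real.log (1 - 1 * (1 + f z)))) := by
          refine Tendsto.log ((h1.mul_const _).const_sub 1) ?_
          linarith
        have h4 := h3.mul (tendsto_one_div_add_atTop_nhds_zero_nat (𝕜 := ℝ))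
        have h5 := (h4.add_const 1).mul_const (lap η z)
        rw [mul_zero, zero_add, one_mul] at h5
        refine h5.congr fun n => ?_
        have h2 : (0:ℝ) < (n:ℝ) + 1 := by positivity
        field_simp
  have hfin := le_of_tendsto_of_tendsto' hL hR key
  rw [integral_indicator hZ.compl] at hfin
  have := integral_add_compl hZ hli
  rw [htot] at this
  linarith

end sol

end Pool.Agent.H617_HM
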