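import Pool.Agent.H617_HM.S2

/-!
# Maps into the sphere with prescribed values outside a bounded set: compactness
-/

set_option autoImplicit false

open MeasureTheory Filter Topology Set
open scoped ContDiff

namespace Pool.Agent.H617_HM

open Pool.Agent.Helper985.VR

/-- maps `u = (u 0, u 1, u 2)` with weak derivatives `ux`, `uy`, equal to `b` outside `D`, with
values in the unit sphere on `D`; `u - c` is square integrable -/
structure Adm (D : Set ℂ) (c : Fin 3 → ℝ) (b u ux uy : Fin 3 → ℂ → ℝ) : Prop where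
  s1 : ∀ i, S1 (fun z => u i z - c i) (ux i) (uy i)
  bc : ∀ i, ∀ᵐ z, z ∉ D → u i z = b i z
  unit : ∀ᵐ z, z ∈ D → u 0 z ^ 2 + u 1 z ^ 2 + u 2 z ^ 2 = 1

/-- the energy density -/
noncomputable def eD (ux uy : Fin 3 → ℂ → ℝ) (z : ℂ) : ℝ := ∑ i, (ux i z ^ 2 + uy i z ^ 2)

/-- the components of `u_x + u × u_y` -/
noncomputable def Qv (u ux uy : Fin 3 → ℂ → ℝ) (i : Fin 3) (z : ℂ) : ℝ :=
  ux i z + (u (i + 1) z * uy (i + 2) z - u (i + 2) z * uy (i + 1) z)

/-- the square of `u_x + u × u_y` -/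
noncomputable def qD (u ux uy : Fin 3 → ℂ → ℝ) (z : ℂ) : ℝ := ∑ i, Qv u ux uy i z ^ 2

noncomputable def EN (D : Set ℂ) (ux uy : Fin 3 → ℂ → ℝ) : ℝ := ∫ z in D, eD ux uy z
noncomputable def QN (D : Set ℂ) (u ux uy : Fin 3 → ℂ → ℝ) : ℝ := ∫ z in D, qD u ux uy z

theorem eD_nonneg (ux uy : Fin 3 → ℂ → ℝ) (z : ℂ) : 0 ≤ eD ux uy z :=
  Finset.sum_nonneg fun _ _ => by positivity

theorem qD_nonneg (u ux uy : Fin 3 → ℂ → ℝ) (z : ℂ) : 0 ≤ qD u ux uy z :=
  Finset.sum_nonneg fun _ _ => by positivity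

section adm
variable {D : Set ℂ} {c : Fin 3 → ℝ} {b u ux uy : Fin 3 → ℂ → ℝ}

theorem Adm.meas (h : Adm D c b u ux uy) (i : Fin 3) : Measurable (u i) := by
  have := (h.s1 i).l.1.add_const (c i)
  simpa using this

theorem Adm.le_one (h : Adm D c b u ux uy) (i : Fin 3) : ∀ᵐ z, z ∈ D → |u i z| ≤ 1 := by
  filter_upwards [h.unit] with z hz hD
  have := hz hD
  rw [abs_le_one_iff_mul_self_le_one]
  fin_cases i
  · show u 0 z * u 0 z ≤ 1
    nlinarith [sq_nonneg (u 1 z), sq_nonneg (u 2 z)]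
  · show u 1 z * u 1 z ≤ 1
    nlinarith [sq_nonneg (u 0 z), sq_nonneg (u 2 z)]
  · show u 2 z * u 2 z ≤ 1
    nlinarith [sq_nonneg (u 1 z), sq_nonneg (u 0 z)]

theorem l2_ind {f : ℂ → ℝ} (hf : L2 f) (hD : MeasurableSet D) : L2 (D.indicator f) := by
  refine hf.mono (hf.1.indicator hD) ?_
  filter_upwards with z
  by_cases hz : z ∈ D
  · rw [indicator_of_mem hz]
  · rw [indicator_of_notMem hz]; simp

/-- product with a component of an admissible map, on `D` -/
theorem Adm.mul_ind (h : Adm D c b u ux uy) (hD : MeasurableSet D) (i : Fin 3) {f : ℂ → ℝ}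
    (hf : L2 f) : L2 (fun z => u i z * D.indicator f z) := by
  refine (l2_ind hf hD).mono ((h.meas i).mul (hf.1.indicator hD)) ?_
  filter_upwards [h.le_one i] with z hz
  by_cases hzD : z ∈ D
  · rw [abs_mul]
    calc _ ≤ 1 * |D.indicator f z| := mul_le_mul_of_nonneg_right (hz hzD) (abs_nonneg _)
      _ = _ := one_mul _
  · rw [indicator_of_notMem hzD]; simp

theorem Adm.Q_L2 (h : Adm D c b u ux uy) (hD : MeasurableSet D) (i : Fin 3) :
    L2 (D.indicator (Qv u ux uy i)) := by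
  have h1 := (l2_ind (h.s1 i).lx hD).add ((h.mul_ind hD (i+1) (h.s1 (i+2)).ly).sub
    (h.mul_ind hD (i+2) (h.s1 (i+1)).ly))
  refine h1.mono ?_ ?_
  · refine Measurable.indicator ?_ hD
    exact (h.s1 i).lx.1.add (((h.meas _).mul (h.s1 _).ly.1).sub ((h.meas _).mul (h.s1 _).ly.1))
  · filter_upwards with z
    by_cases hz : z ∈ D
    · simp only [indicator_of_mem hz]; rfl
    · simp only [indicator_of_notMem hz]; simp

theorem Adm.eD_int (h : Adm D c b u ux uy) : Integrable (eD ux uy) := by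
  unfold eD
  refine integrable_finsetSum _ fun i _ => ?_
  exact (h.s1 i).lx.2.add (h.s1 i).ly.2

theorem Adm.qD_int (h : Adm D c b u ux uy) (hD : MeasurableSet D) :
    IntegrableOn (qD u ux uy) D := by
  unfold qD
  refine integrable_finsetSum _ fun i _ => ?_
  have := (h.Q_L2 hD i).2
  have h2 : (fun z => D.indicator (Qv u ux uy i) z ^ 2) =
      D.indicator (fun z => Qv u ux uy i z ^ 2) := by
    ext z
    by_cases hz : z ∈ D
    · simp only [indicator_of_mem hz]
    · simp only [indicator_of_notMem hz]; norm_num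
  rw [h2, integrable_indicator_iff hD] at this
  exact this

/-- two admissible maps have the same derivatives outside `D` -/
theorem Adm.eq_off {v vx vy : Fin 3 → ℂ → ℝ} (h : Adm D c b u ux uy) (h' : Adm D c b v vx vy)
    (i : Fin 3) : ∀ᵐ z, z ∉ D → u i z = v i z ∧ ux i z = vx i z ∧ uy i z = vy i z := by
  have h1 := ((h.s1 i).sub (h'.s1 i)).zero_set
  filter_upwards [h1, h.bc i, h'.bc i] with z hz h2 h3 hzD
  have h4 : u i z = v i z := (h2 hzD).trans (h3 hzD).symm
  obtain ⟨h5, h6⟩ := hz (by rw [h4]; ring)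
  exact ⟨h4, by linarith, by linarith⟩

end adm

/-- weak convergence times strong convergence -/
theorem tendsto_weak_strong {a b : ℕ → ℂ → ℝ} {A B : ℂ → ℝ} (ha : ∀ n, L2 (a n))
    (hb : ∀ n, L2 (b n)) (hB : L2 B) {C : ℝ} (hC : ∀ n, N2 (a n) ≤ C)
    (hw : Tendsto (fun n => ∫ z, a n z * B z) atTop (𝓝 (∫ z, A z * B z)))
    (hs : Tendsto (fun n => N2 (fun z => b n z - B z)) atTop (𝓝 0)) :
    Tendsto (fun n => ∫ z, a n z * b n z) atTop (𝓝 (∫ z, A z * B z)) := by
  have h1 : Tendsto (fun n => ∫ z, a n z * (b n z - B z)) atTop (𝓝 0) := by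
    have hs' : Tendsto (fun n => √C * √(N2 (fun z => b n z - B z))) atTop (𝓝 0) := by
      have := ((Real.continuous_sqrt.tendsto 0).comp hs).const_mul (√C)
      simpa [Function.comp_def] using this
    refine squeeze_zero_norm ?_ hs'
    intro n
    rw [Real.norm_eq_abs]
    refine (cs (ha n) ((hb n).sub hB)).trans ?_
    exact mul_le_mul_of_nonneg_right (Real.sqrt_le_sqrt (hC n)) (Real.sqrt_nonneg _)
  have h2 := hw.add h1
  rw [add_zero] at h2
  refine h2.congr fun n => ?_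
  rw [← integral_add ((ha n).mul hB) ((ha n).mul ((hb n).sub hB))]
  congr 1; ext z; ring

theorem S1.toH1 {f fx fy : ℂ → ℝ} (h : S1 f fx fy) :
    H1 (Complex.basisOneI : Fin 2 → ℂ) f ![fx, fy] := by
  refine ⟨h.l, ?_, ?_⟩
  · intro i; fin_cases i
    · exact h.lx
    · exact h.ly
  · intro i
    rw [Complex.coe_basisOneI]
    fin_cases i
    · exact h.dx
    · exact h.dy

/-- extraction of an almost everywhere convergent subsequence -/
theorem exists_subseq_ae {D : Set ℂ} (hD : MeasurableSet D) {g : ℕ → ℂ → ℝ}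
    (hg : ∀ n, IntegrableOn (g n) D) (h0 : ∀ n z, 0 ≤ g n z)
    (h : Tendsto (fun n => ∫ z in D, g n z) atTop (𝓝 0)) :
    ∃ τ : ℕ → ℕ, StrictMono τ ∧ ∀ᵐ z, z ∈ D → Tendsto (fun n => g (τ n) z) atTop (𝓝 0) := by
  have h1 : Tendsto (fun n => eLpNorm (g n - 0) 1 (volume.restrict D)) atTop (𝓝 0) := by
    have h2 : ∀ n, eLpNorm (g n - 0) 1 (volume.restrict D) = ENNReal.ofReal (∫ z in D, g n z) := by
      intro n
      rw [sub_zero, eLpNorm_one_eq_lintegral_enorm, ← ofReal_integral_norm_eq_lintegral_enorm (hg n)]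
      congr 1
      refine integral_congr_ae ?_
      filter_upwards with z
      rw [Real.norm_eq_abs, abs_of_nonneg (h0 n z)]
    simp only [h2]
    have := (ENNReal.continuous_ofReal.tendsto 0).comp h
    simpa [Function.comp_def] using this
  have h3 := tendstoInMeasure_of_tendsto_eLpNorm (one_ne_zero)
    (fun n => (hg n).aestronglyMeasurable) (by fun_prop) h1
  obtain ⟨τ, hτ, hae⟩ := h3.exists_seq_tendsto_ae
  refine ⟨τ, hτ, ?_⟩
  exact (ae_restrict_iff' hD).1 hae

end Pool.Agent.H617_HM
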