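import Pool.Agent.H617_HM.V1

/-!
# Compactness of admissible maps
-/

set_option autoImplicit false

open MeasureTheory Filter Topology Set
open scoped ContDiff

namespace Pool.Agent.H617_HM

open Pool.Agent.Helper985.VR

theorem setInt_ind {D : Set ℂ} (hD : MeasurableSet D) (f g : ℂ → ℝ) :
    ∫ z in D, f z * g z = ∫ z, f z * D.indicator g z := by
  rw [← integral_indicator hD]
  congr 1; ext z
  by_cases hz : z ∈ D
  · simp only [indicator_of_mem hz]
  · simp only [indicator_of_notMem hz]; ring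

theorem N2_split {D : Set ℂ} (hD : MeasurableSet D) {f : ℂ → ℝ} (hf : L2 f) :
    N2 f = (∫ z in D, f z ^ 2) + ∫ z in Dᶜ, f z ^ 2 := by
  unfold N2
  exact (integral_add_compl hD hf.2).symm

theorem set_le_N2 (D : Set ℂ) {f : ℂ → ℝ} (hf : L2 f) : ∫ z in D, f z ^ 2 ≤ N2 f :=
  setIntegral_le_integral hf.2 (by filter_upwards with z using sq_nonneg _)

theorem Adm.bounds {D : Set ℂ} {c : Fin 3 → ℝ} {b : Fin 3 → ℂ → ℝ} (hD : MeasurableSet D)
    {R : ℝ} (hDR : D ⊆ Metric.ball 0 R) {u ux uy : ℕ → Fin 3 → ℂ → ℝ}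
    (h : ∀ n, Adm D c b (u n) (ux n) (uy n)) {M : ℝ} (hM : ∀ n, EN D (ux n) (uy n) ≤ M) :
    ∃ C : ℝ, ∀ n i, N2 (fun z => u n i z - c i) ≤ C ∧ N2 (ux n i) ≤ C ∧ N2 (uy n i) ≤ C := by
  have hDfin : volume D ≠ ⊤ := ((measure_mono hDR).trans_lt measure_ball_lt_top).ne
  have hDint : ∀ a : ℝ, IntegrableOn (fun _ : ℂ => a) D := fun a => by
    rw [integrableOn_const_iff]; right; exact hDfin.lt_top
  have hoff : ∀ n i, ∀ᵐ z, z ∉ D → u n i z = u 0 i z ∧ ux n i z = ux 0 i z ∧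
      uy n i z = uy 0 i z := fun n i => (h n).eq_off (h 0) i
  have b0 : ∀ n i, N2 (fun z => u n i z - c i) ≤
      (∫ z in D, (1 + |c i|) ^ 2) + N2 (fun z => u 0 i z - c i) := by
    intro n i
    rw [N2_split hD ((h n).s1 i).l]
    refine add_le_add ?_ ?_
    · refine setIntegral_mono_on_ae ((h n).s1 i).l.2.integrableOn (hDint _) hD ?_
      filter_upwards [(h n).le_one i] with z hz hzD
      rw [← sq_abs (u n i z - c i)]
      refine pow_le_pow_left₀ (abs_nonneg _) ?_ 2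
      exact (abs_sub _ _).trans (by linarith [hz hzD])
    · refine le_trans (le_of_eq ?_) (set_le_N2 Dᶜ ((h 0).s1 i).l)
      refine setIntegral_congr_ae hD.compl ?_
      filter_upwards [hoff n i] with z hz hzD
      rw [(hz hzD).1]
  have hEN : ∀ n i, ∫ z in D, (ux n i z ^ 2 + uy n i z ^ 2) ≤ M := by
    intro n i
    refine le_trans ?_ (hM n)
    refine setIntegral_mono (((h n).s1 i).lx.2.add ((h n).s1 i).ly.2).integrableOn
      (h n).eD_int.integrableOn ?_
    intro z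
    exact Finset.single_le_sum (f := fun i => ux n i z ^ 2 + uy n i z ^ 2)
      (fun i _ => by positivity) (Finset.mem_univ i)
  have b1 : ∀ n i, N2 (ux n i) ≤ M + N2 (ux 0 i) := by
    intro n i
    rw [N2_split hD ((h n).s1 i).lx]
    refine add_le_add ?_ ?_
    · refine le_trans ?_ (hEN n i)
      refine setIntegral_mono ((h n).s1 i).lx.2.integrableOn
        (((h n).s1 i).lx.2.add ((h n).s1 i).ly.2).integrableOn ?_
      intro z
      simp only
      nlinarith [sq_nonneg (uy n i z)]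
    · refine le_trans (le_of_eq ?_) (set_le_N2 Dᶜ ((h 0).s1 i).lx)
      refine setIntegral_congr_ae hD.compl ?_
      filter_upwards [hoff n i] with z hz hzD
      rw [(hz hzD).2.1]
  have b2 : ∀ n i, N2 (uy n i) ≤ M + N2 (uy 0 i) := by
    intro n i
    rw [N2_split hD ((h n).s1 i).ly]
    refine add_le_add ?_ ?_
    · refine le_trans ?_ (hEN n i)
      refine setIntegral_mono ((h n).s1 i).ly.2.integrableOn
        (((h n).s1 i).lx.2.add ((h n).s1 i).ly.2).integrableOn ?_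
      intro z
      simp only
      nlinarith [sq_nonneg (ux n i z)]
    · refine le_trans (le_of_eq ?_) (set_le_N2 Dᶜ ((h 0).s1 i).ly)
      refine setIntegral_congr_ae hD.compl ?_
      filter_upwards [hoff n i] with z hz hzD
      rw [(hz hzD).2.2]
  set t : Fin 3 → ℝ := fun i => (∫ z in D, (1 + |c i|) ^ 2) + N2 (fun z => u 0 i z - c i) + |M| +
    N2 (ux 0 i) + N2 (uy 0 i) with ht
  have hI : ∀ i, 0 ≤ ∫ z in D, (1 + |c i|) ^ 2 := fun i =>
    setIntegral_nonneg hD fun z _ => sq_nonneg _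
  have ht0 : ∀ i, 0 ≤ t i := fun i => by
    have := N2_nonneg (fun z => u 0 i z - c i)
    have := N2_nonneg (ux 0 i)
    have := N2_nonneg (uy 0 i)
    have := hI i
    have := abs_nonneg M
    simp only [ht]; linarith
  refine ⟨∑ i, t i, fun n i => ?_⟩
  have hti : t i ≤ ∑ i, t i := Finset.single_le_sum (fun i _ => ht0 i) (Finset.mem_univ i)
  have e1 := N2_nonneg (fun z => u 0 i z - c i)
  have e2 := N2_nonneg (ux 0 i)
  have e3 := N2_nonneg (uy 0 i)
  have e4 := hI i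
  have e5 := le_abs_self M
  have e6 := abs_nonneg M
  have e7 : t i = (∫ z in D, (1 + |c i|) ^ 2) + N2 (fun z => u 0 i z - c i) + |M| +
    N2 (ux 0 i) + N2 (uy 0 i) := rfl
  have := b0 n i
  have := b1 n i
  have := b2 n i
  refine ⟨?_, ?_, ?_⟩ <;> linarith

theorem Kn_two (fx fy : ℂ → ℝ) : Kn ![fx, fy] = N2 fx + N2 fy := by
  unfold Kn
  rw [Fin.sum_univ_two]
  rfl

/-- weak subsequences with pointwise convergence -/
theorem Adm.weak {D : Set ℂ} {c : Fin 3 → ℝ} {b : Fin 3 → ℂ → ℝ} (hD : MeasurableSet D)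
    {R : ℝ} (hDR : D ⊆ Metric.ball 0 R) {u ux uy : ℕ → Fin 3 → ℂ → ℝ}
    (h : ∀ n, Adm D c b (u n) (ux n) (uy n)) {C : ℝ}
    (hC : ∀ n i, N2 (fun z => u n i z - c i) ≤ C ∧ N2 (ux n i) ≤ C ∧ N2 (uy n i) ≤ C) :
    ∃ σ : ℕ → ℕ, StrictMono σ ∧ ∃ U Ux Uy : Fin 3 → ℂ → ℝ,
      (∀ i, S1 (fun z => U i z - c i) (Ux i) (Uy i)) ∧
      (∀ i, ∀ᵐ z, z ∉ D → U i z = b i z) ∧
      (∀ i, ∀ᵐ z, z ∈ D → Tendsto (fun n => u (σ n) i z) atTop (𝓝 (U i z))) ∧
      (∀ i, ∀ g : ℂ → ℝ, L2 g →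
        Tendsto (fun n => ∫ z, ux (σ n) i z * g z) atTop (𝓝 (∫ z, Ux i z * g z))) ∧
      (∀ i, ∀ g : ℂ → ℝ, L2 g →
        Tendsto (fun n => ∫ z, uy (σ n) i z * g z) atTop (𝓝 (∫ z, Uy i z * g z))) := by
  classical
  have hoff : ∀ n i, ∀ᵐ z, z ∉ D → u n i z = u 0 i z ∧ ux n i z = ux 0 i z ∧
      uy n i z = uy 0 i z := fun n i => (h n).eq_off (h 0) i
  -- weak subsequence
  obtain ⟨σ₀, hσ₀, hw⟩ := exists_weak_subseq_family (α := ℂ)
    (Finset.univ : Finset (Fin 3 × Fin 3))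
    (u := fun p n => if p.2 = 0 then (fun z => u n p.1 z - c p.1) else
      if p.2 = 1 then ux n p.1 else uy n p.1)
    (fun p n => by
      split_ifs
      · exact ((h n).s1 _).l
      · exact ((h n).s1 _).lx
      · exact ((h n).s1 _).ly) C
    (fun p n => by
      split_ifs
      · exact (hC n _).1
      · exact (hC n _).2.1
      · exact (hC n _).2.2)
  choose F hFL hF using fun p => hw p (Finset.mem_univ p)
  have f0 : ∀ i, ∀ g : ℂ → ℝ, L2 g → Tendsto (fun n => ∫ z, (u (σ₀ n) i z - c i) * g z) atTop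
      (𝓝 (∫ z, F (i, 0) z * g z)) := fun i g hg => by simpa using hF (i, 0) g hg
  have f1 : ∀ i, ∀ g : ℂ → ℝ, L2 g → Tendsto (fun n => ∫ z, ux (σ₀ n) i z * g z) atTop
      (𝓝 (∫ z, F (i, 1) z * g z)) := fun i g hg => by simpa using hF (i, 1) g hg
  have f2 : ∀ i, ∀ g : ℂ → ℝ, L2 g → Tendsto (fun n => ∫ z, uy (σ₀ n) i z * g z) atTop
      (𝓝 (∫ z, F (i, 2) z * g z)) := fun i g hg => by simpa using hF (i, 2) g hg
  have hS : ∀ i, S1 (F (i, 0)) (F (i, 1)) (F (i, 2)) := by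
    intro i
    refine ⟨hFL _, hFL _, hFL _, ?_, ?_⟩
    · refine WD.limit (fun n => ((h (σ₀ n)).s1 i).dx) ?_ ?_
      · intro φ hφ hc; exact f0 i φ (L2_of_cc hφ hc)
      · intro φ hφ hc; exact f1 i φ (L2_of_cc hφ hc)
    · refine WD.limit (fun n => ((h (σ₀ n)).s1 i).dy) ?_ ?_
      · intro φ hφ hc; exact f0 i φ (L2_of_cc hφ hc)
      · intro φ hφ hc; exact f2 i φ (L2_of_cc hφ hc)
  -- Rellich
  have hrel : ∀ i (B : Set ℂ), MeasurableSet B → volume B ≠ ⊤ →
      Tendsto (fun n => ∫ z in B, ((u (σ₀ n) i z - c i) - F (i, 0) z) ^ 2) atTop (𝓝 0) := by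
    intro i B hB hBf
    have hW : WCv (Complex.basisOneI : Fin 2 → ℂ) (fun n z => u (σ₀ n) i z - c i)
        (fun n => ![ux (σ₀ n) i, uy (σ₀ n) i]) (F (i, 0)) ![F (i, 1), F (i, 2)] := by
      refine ⟨(hS i).toH1, f0 i, ?_⟩
      intro j
      fin_cases j
      · exact f1 i
      · exact f2 i
    refine hW.rellich (b := Complex.basisOneI) (fun n => ((h (σ₀ n)).s1 i).toH1) (C + C) ?_ ?_
      hB hBf
    · intro n
      have h1 := (hC (σ₀ n) i).1
      have h2 := N2_nonneg (fun z => u (σ₀ n) i z - c i)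
      linarith
    · intro n
      rw [Kn_two]
      exact add_le_add (hC _ i).2.1 (hC _ i).2.2
  have hDfin : volume D ≠ ⊤ := ((measure_mono hDR).trans_lt measure_ball_lt_top).ne
  -- values outside D
  have hout : ∀ i, ∀ᵐ z, z ∉ D → F (i, 0) z + c i = b i z := by
    intro i
    have key : ∀ r : ℕ, ∀ᵐ z, z ∈ Metric.ball (0:ℂ) r \ D → F (i, 0) z = u 0 i z - c i := by
      intro r
      have hBm : MeasurableSet (Metric.ball (0:ℂ) r \ D) :=
        Metric.isOpen_ball.measurableSet.diff hD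
      have hBf : volume (Metric.ball (0:ℂ) r \ D) ≠ ⊤ :=
        ((measure_mono sdiff_subset).trans_lt measure_ball_lt_top).ne
      have h1 := hrel i _ hBm hBf
      have h2 : ∀ n, ∫ z in Metric.ball (0:ℂ) r \ D, ((u (σ₀ n) i z - c i) - F (i, 0) z) ^ 2 =
          ∫ z in Metric.ball (0:ℂ) r \ D, ((u 0 i z - c i) - F (i, 0) z) ^ 2 := by
        intro n
        refine setIntegral_congr_ae hBm ?_
        filter_upwards [hoff (σ₀ n) i] with z hz hzD
        rw [(hz hzD.2).1]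
      simp only [h2] at h1
      have h3 : ∫ z in Metric.ball (0:ℂ) r \ D, ((u 0 i z - c i) - F (i, 0) z) ^ 2 = 0 :=
        tendsto_nhds_unique tendsto_const_nhds h1
      have h4 := (setIntegral_eq_zero_iff_of_nonneg_ae
        (by filter_upwards with z using sq_nonneg _)
        ((((h 0).s1 i).l.sub (hS i).l).2.integrableOn)).1 h3
      have h5 := (ae_restrict_iff' hBm).1 h4
      filter_upwards [h5] with z hz hzD
      have := hz hzD
      simp only [Pi.zero_apply] at this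
      have := pow_eq_zero_iff (two_ne_zero) |>.1 this
      linarith
    have key2 : ∀ᵐ z, ∀ r : ℕ, z ∈ Metric.ball (0:ℂ) r \ D → F (i, 0) z = u 0 i z - c i :=
      ae_all_iff.2 key
    filter_upwards [key2, (h 0).bc i] with z hz hz2 hzD
    obtain ⟨r, hr⟩ := exists_nat_gt ‖z‖
    have := hz r ⟨by simpa using hr, hzD⟩
    rw [this, ← hz2 hzD]; ring
  -- pointwise convergence
  have hgi : ∀ n i, IntegrableOn (fun z => ((u (σ₀ n) i z - c i) - F (i, 0) z) ^ 2) D :=
    fun n i => (((h (σ₀ n)).s1 i).l.sub (hS i).l).2.integrableOn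
  obtain ⟨τ, hτ, hτae⟩ := exists_subseq_ae hD
    (g := fun n z => ∑ i, ((u (σ₀ n) i z - c i) - F (i, 0) z) ^ 2)
    (fun n => integrable_finsetSum _ fun i _ => hgi n i)
    (fun n z => Finset.sum_nonneg fun i _ => sq_nonneg _) (by
      have : ∀ n, ∫ z in D, ∑ i, ((u (σ₀ n) i z - c i) - F (i, 0) z) ^ 2 =
          ∑ i, ∫ z in D, ((u (σ₀ n) i z - c i) - F (i, 0) z) ^ 2 := fun n =>
        integral_finsetSum _ fun i _ => hgi n i
      simp only [this]
      have := tendsto_finsetSum (Finset.univ : Finset (Fin 3)) fun i _ => hrel i D hD hDfin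
      simpa using this)
  refine ⟨fun n => σ₀ (τ n), hσ₀.comp hτ, fun i z => F (i, 0) z + c i, fun i => F (i, 1),
    fun i => F (i, 2), ?_, hout, ?_, ?_, ?_⟩
  · intro i
    simpa using hS i
  · intro i
    filter_upwards [hτae] with z hz hzD
    have h1 := hz hzD
    have h2 : Tendsto (fun n => ((u (σ₀ (τ n)) i z - c i) - F (i, 0) z) ^ 2) atTop (𝓝 0) := by
      refine squeeze_zero (fun n => sq_nonneg _) (fun n => ?_) h1
      exact Finset.single_le_sum (f := fun i => ((u (σ₀ (τ n)) i z - c i) - F (i, 0) z) ^ 2)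
        (fun i _ => sq_nonneg _) (Finset.mem_univ i)
    have h3 : Tendsto (fun n => ((u (σ₀ (τ n)) i z - c i) - F (i, 0) z)) atTop (𝓝 0) := by
      have h4 := (Real.continuous_sqrt.tendsto 0).comp h2
      simp only [Function.comp_def, Real.sqrt_sq_eq_abs, Real.sqrt_zero] at h4
      exact (tendsto_zero_iff_abs_tendsto_zero _).2 h4
    have h5 := h3.add_const (F (i, 0) z + c i)
    rw [zero_add] at h5
    refine h5.congr fun n => ?_
    ring
  · intro i g hg
    exact (f1 i g hg).comp hτ.tendsto_atTop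
  · intro i g hg
    exact (f2 i g hg).comp hτ.tendsto_atTop

end Pool.Agent.H617_HM
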