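import Pool.Agent.H617_HM.V2

/-!
# Lower semicontinuity and existence of minimizers
-/

set_option autoImplicit false

open MeasureTheory Filter Topology Set
open scoped ContDiff

namespace Pool.Agent.H617_HM

open Pool.Agent.Helper985.VR

/-- convergence of the products with a bounded converging sequence -/
theorem tendsto_bdd_mul {D : Set ℂ} (hD : MeasurableSet D) {u : ℕ → ℂ → ℝ} {U g : ℂ → ℝ}
    (hu : ∀ n, Measurable (u n)) (hU : Measurable U) (hub : ∀ n, ∀ᵐ z, z ∈ D → |u n z| ≤ 1)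
    (hUb : ∀ᵐ z, z ∈ D → |U z| ≤ 1) (hg : L2 g)
    (hc : ∀ᵐ z, z ∈ D → Tendsto (fun n => u n z) atTop (𝓝 (U z))) :
    Tendsto (fun n => N2 (fun z => u n z * D.indicator g z - U z * D.indicator g z)) atTop
      (𝓝 0) := by
  unfold N2
  have h0 : ∫ z : ℂ, (0:ℝ) = 0 := by simp
  rw [← h0]
  refine tendsto_integral_of_dominated_convergence (fun z => 4 * D.indicator g z ^ 2) ?_
    ((l2_ind hg hD).2.const_mul 4) ?_ ?_
  · intro n
    exact ((((hu n).mul (hg.1.indicator hD)).sub (hU.mul (hg.1.indicator hD))).pow_const 2).aestronglyMeasurable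
  · intro n
    filter_upwards [hub n, hUb] with z h1 h2
    rw [Real.norm_eq_abs, abs_of_nonneg (sq_nonneg _)]
    by_cases hz : z ∈ D
    · have e1 := h1 hz
      have e2 := h2 hz
      rw [← sub_mul, mul_pow]
      refine mul_le_mul_of_nonneg_right ?_ (sq_nonneg _)
      have e3 : |u n z - U z| ≤ 2 := (abs_sub _ _).trans (by linarith)
      rw [← sq_abs]
      nlinarith [abs_nonneg (u n z - U z)]
    · simp only [indicator_of_notMem hz]; norm_num
  · filter_upwards [hc] with z h1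
    by_cases hz : z ∈ D
    · have h2 := ((((h1 hz).mul_const (D.indicator g z)).sub_const (U z * D.indicator g z)).pow 2)
      simpa using h2
    · simp only [indicator_of_notMem hz]; simp

/-- compactness and lower semicontinuity -/
theorem Adm.compact {D : Set ℂ} {c : Fin 3 → ℝ} {b : Fin 3 → ℂ → ℝ} (hD : MeasurableSet D)
    {R : ℝ} (hDR : D ⊆ Metric.ball 0 R) {u ux uy : ℕ → Fin 3 → ℂ → ℝ}
    (h : ∀ n, Adm D c b (u n) (ux n) (uy n)) {M : ℝ} (hM : ∀ n, EN D (ux n) (uy n) ≤ M) :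
    ∃ σ : ℕ → ℕ, StrictMono σ ∧ ∃ U Ux Uy, Adm D c b U Ux Uy ∧
      ∀ α β : ℝ, 0 ≤ α → 0 ≤ β → ∀ (k : ℕ → ℝ) (K : ℝ),
        (∀ n, α * EN D (ux (σ n)) (uy (σ n)) + β * QN D (u (σ n)) (ux (σ n)) (uy (σ n)) ≤ k n) →
        Tendsto k atTop (𝓝 K) → α * EN D Ux Uy + β * QN D U Ux Uy ≤ K := by
  classical
  obtain ⟨C, hC⟩ := Adm.bounds hD hDR h hM
  obtain ⟨σ, hσ, U, Ux, Uy, hS, hbc, hpt, hwx, hwy⟩ := Adm.weak hD hDR h hC
  have hunit : ∀ᵐ z, z ∈ D → U 0 z ^ 2 + U 1 z ^ 2 + U 2 z ^ 2 = 1 := by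
    have hu : ∀ᵐ z, ∀ n, z ∈ D → u (σ n) 0 z ^ 2 + u (σ n) 1 z ^ 2 + u (σ n) 2 z ^ 2 = 1 :=
      ae_all_iff.2 fun n => (h (σ n)).unit
    filter_upwards [hu, hpt 0, hpt 1, hpt 2] with z h0 h1 h2 h3 hz
    have h4 := (((h1 hz).pow 2).add ((h2 hz).pow 2)).add ((h3 hz).pow 2)
    refine tendsto_nhds_unique h4 ?_
    refine tendsto_const_nhds.congr fun n => ?_
    exact (h0 n hz).symm
  have hA : Adm D c b U Ux Uy := ⟨hS, hbc, hunit⟩
  refine ⟨σ, hσ, U, Ux, Uy, hA, ?_⟩
  intro α β hα hβ k K hk hkK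
  have hUm : ∀ i, Measurable (U i) := hA.meas
  have hprod : ∀ i j (g : ℂ → ℝ), L2 g → Tendsto
      (fun n => ∫ z, uy (σ n) i z * (u (σ n) j z * D.indicator g z)) atTop
      (𝓝 (∫ z, Uy i z * (U j z * D.indicator g z))) := by
    intro i j g hg
    refine tendsto_weak_strong (fun n => ((h (σ n)).s1 i).ly)
      (fun n => (h (σ n)).mul_ind hD j hg) (hA.mul_ind hD j hg) (fun n => (hC (σ n) i).2.2)
      (hwy i _ (hA.mul_ind hD j hg)) ?_
    exact tendsto_bdd_mul hD (fun n => (h (σ n)).meas j) (hUm j) (fun n => (h (σ n)).le_one j)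
      (hA.le_one j) hg (hpt j)
  -- the cross terms
  have hx : ∀ i, Tendsto (fun n => ∫ z in D, ux (σ n) i z * Ux i z) atTop
      (𝓝 (∫ z in D, Ux i z * Ux i z)) := by
    intro i
    have := hwx i _ (l2_ind (hS i).lx hD)
    simpa only [setInt_ind hD] using this
  have hy : ∀ i, Tendsto (fun n => ∫ z in D, uy (σ n) i z * Uy i z) atTop
      (𝓝 (∫ z in D, Uy i z * Uy i z)) := by
    intro i
    have := hwy i _ (l2_ind (hS i).ly hD)
    simpa only [setInt_ind hD] using this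
  have split : ∀ (v vx vy : Fin 3 → ℂ → ℝ), Adm D c b v vx vy → ∀ i,
      ∫ z in D, Qv v vx vy i z * Qv U Ux Uy i z =
        (∫ z, vx i z * D.indicator (Qv U Ux Uy i) z) +
        ((∫ z, vy (i + 2) z * (v (i + 1) z * D.indicator (D.indicator (Qv U Ux Uy i)) z)) -
          ∫ z, vy (i + 1) z * (v (i + 2) z * D.indicator (D.indicator (Qv U Ux Uy i)) z)) := by
    intro v vx vy hv i
    have hQ := hA.Q_L2 hD i
    have i1 := (hv.s1 i).lx.mul hQ
    have i2 := (hv.s1 (i+2)).ly.mul (hv.mul_ind hD (i+1) hQ)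
    have i3 := (hv.s1 (i+1)).ly.mul (hv.mul_ind hD (i+2) hQ)
    have i23 : Integrable (fun z => vy (i + 2) z * (v (i + 1) z * D.indicator
        (D.indicator (Qv U Ux Uy i)) z) - vy (i + 1) z * (v (i + 2) z * D.indicator
        (D.indicator (Qv U Ux Uy i)) z)) := i2.sub i3
    rw [setInt_ind hD, ← integral_sub i2 i3, ← integral_add i1 i23]
    congr 1; ext z
    rw [indicator_indicator, inter_self]
    generalize D.indicator (Qv U Ux Uy i) z = q
    unfold Qv
    ring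
  have hq : ∀ i, Tendsto (fun n => ∫ z in D, Qv (u (σ n)) (ux (σ n)) (uy (σ n)) i z *
      Qv U Ux Uy i z) atTop (𝓝 (∫ z in D, Qv U Ux Uy i z * Qv U Ux Uy i z)) := by
    intro i
    have hQ := hA.Q_L2 hD i
    simp only [split _ _ _ (h (σ _)) i]
    rw [split _ _ _ hA i]
    exact (hwx i _ hQ).add ((hprod _ _ _ hQ).sub (hprod _ _ _ hQ))
  -- the total
  set T : ℕ → ℝ := fun n => α * (∑ i, ((∫ z in D, ux (σ n) i z * Ux i z) +
    ∫ z in D, uy (σ n) i z * Uy i z)) + β * ∑ i, ∫ z in D, Qv (u (σ n)) (ux (σ n)) (uy (σ n)) i z *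
      Qv U Ux Uy i z with hT
  have hTlim : Tendsto T atTop (𝓝 (α * (∑ i, ((∫ z in D, Ux i z * Ux i z) +
    ∫ z in D, Uy i z * Uy i z)) + β * ∑ i, ∫ z in D, Qv U Ux Uy i z * Qv U Ux Uy i z)) :=
    ((tendsto_finsetSum _ fun i _ => (hx i).add (hy i)).const_mul α).add
      ((tendsto_finsetSum _ fun i _ => hq i).const_mul β)
  have eE : ∀ (vx vy : Fin 3 → ℂ → ℝ), (∀ i, L2 (vx i)) → (∀ i, L2 (vy i)) →
      EN D vx vy = ∑ i, ((∫ z in D, vx i z * vx i z) + ∫ z in D, vy i z * vy i z) := by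
    intro vx vy h1 h2
    unfold EN eD
    have hi : ∀ i ∈ (Finset.univ : Finset (Fin 3)),
        Integrable (fun z => vx i z ^ 2 + vy i z ^ 2) (volume.restrict D) :=
      fun i _ => ((h1 i).2.add (h2 i).2).integrableOn
    rw [integral_finsetSum _ hi]
    refine Finset.sum_congr rfl fun i _ => ?_
    rw [← integral_add ((h1 i).mul (h1 i)).integrableOn ((h2 i).mul (h2 i)).integrableOn]
    congr 1; ext z; ring
  have iQ : ∀ (v vx vy : Fin 3 → ℂ → ℝ), Adm D c b v vx vy → ∀ i,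
      IntegrableOn (fun z => Qv v vx vy i z ^ 2) D := by
    intro v vx vy hv i
    have := (hv.Q_L2 hD i).2
    have h2 : (fun z => D.indicator (Qv v vx vy i) z ^ 2) =
        D.indicator (fun z => Qv v vx vy i z ^ 2) := by
      ext z
      by_cases hz : z ∈ D
      · simp only [indicator_of_mem hz]
      · simp only [indicator_of_notMem hz]; norm_num
    rw [h2, integrable_indicator_iff hD] at this
    exact this
  have iQQ : ∀ (v vx vy : Fin 3 → ℂ → ℝ), Adm D c b v vx vy → ∀ i,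
      IntegrableOn (fun z => Qv v vx vy i z * Qv U Ux Uy i z) D := by
    intro v vx vy hv i
    have := (hv.Q_L2 hD i).mul (hA.Q_L2 hD i)
    have h2 : (fun z => D.indicator (Qv v vx vy i) z * D.indicator (Qv U Ux Uy i) z) =
        D.indicator (fun z => Qv v vx vy i z * Qv U Ux Uy i z) := by
      ext z
      by_cases hz : z ∈ D
      · simp only [indicator_of_mem hz]
      · simp only [indicator_of_notMem hz]; norm_num
    rw [h2, integrable_indicator_iff hD] at this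
    exact this
  have eQ : ∀ (v vx vy : Fin 3 → ℂ → ℝ), Adm D c b v vx vy →
      QN D v vx vy = ∑ i, ∫ z in D, Qv v vx vy i z ^ 2 := by
    intro v vx vy hv
    unfold QN qD
    rw [integral_finsetSum _ fun i _ => iQ v vx vy hv i]
  have eQU : QN D U Ux Uy = ∑ i, ∫ z in D, Qv U Ux Uy i z * Qv U Ux Uy i z := by
    rw [eQ _ _ _ hA]
    refine Finset.sum_congr rfl fun i _ => ?_
    congr 1; ext z; ring
  rw [← eE Ux Uy (fun i => (hS i).lx) (fun i => (hS i).ly), ← eQU] at hTlim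
  have hTle : ∀ n, T n ≤ (1/2) * k n + (1/2) * (α * EN D Ux Uy + β * QN D U Ux Uy) := by
    intro n
    have h1 : ∑ i, ((∫ z in D, ux (σ n) i z * Ux i z) + ∫ z in D, uy (σ n) i z * Uy i z) ≤
        (1/2) * EN D (ux (σ n)) (uy (σ n)) + (1/2) * EN D Ux Uy := by
      rw [eE _ _ (fun i => ((h (σ n)).s1 i).lx) (fun i => ((h (σ n)).s1 i).ly),
        eE Ux Uy (fun i => (hS i).lx) (fun i => (hS i).ly), Finset.mul_sum, Finset.mul_sum,
        ← Finset.sum_add_distrib]
      refine Finset.sum_le_sum fun i _ => ?_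
      have am : ∀ (p q : ℂ → ℝ), L2 p → L2 q → ∫ z in D, p z * q z ≤
          (1/2) * (∫ z in D, p z * p z) + (1/2) * ∫ z in D, q z * q z := by
        intro p q hp hq
        rw [← integral_const_mul, ← integral_const_mul, ← integral_add
          ((hp.mul hp).integrableOn.const_mul _) ((hq.mul hq).integrableOn.const_mul _)]
        refine setIntegral_mono (hp.mul hq).integrableOn
          (((hp.mul hp).integrableOn.const_mul _).add ((hq.mul hq).integrableOn.const_mul _)) ?_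
        intro z
        simp only
        nlinarith [sq_nonneg (p z - q z)]
      have a1 := am _ _ ((h (σ n)).s1 i).lx (hS i).lx
      have a2 := am _ _ ((h (σ n)).s1 i).ly (hS i).ly
      linarith
    have h2 : ∑ i, ∫ z in D, Qv (u (σ n)) (ux (σ n)) (uy (σ n)) i z * Qv U Ux Uy i z ≤
        (1/2) * QN D (u (σ n)) (ux (σ n)) (uy (σ n)) + (1/2) * QN D U Ux Uy := by
      rw [eQ _ _ _ (h (σ n)), eQ _ _ _ hA, Finset.mul_sum, Finset.mul_sum,
        ← Finset.sum_add_distrib]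
      refine Finset.sum_le_sum fun i _ => ?_
      rw [← integral_const_mul, ← integral_const_mul, ← integral_add
          ((iQ _ _ _ (h (σ n)) i).const_mul _) ((iQ _ _ _ hA i).const_mul _)]
      refine setIntegral_mono (iQQ _ _ _ (h (σ n)) i)
          (((iQ _ _ _ (h (σ n)) i).const_mul _).add ((iQ _ _ _ hA i).const_mul _)) ?_
      intro z
      simp only
      nlinarith [sq_nonneg (Qv (u (σ n)) (ux (σ n)) (uy (σ n)) i z - Qv U Ux Uy i z)]
    have h3 := hk n
    have h4 := mul_le_mul_of_nonneg_left h1 hα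
    have h5 := mul_le_mul_of_nonneg_left h2 hβ
    simp only [hT]
    nlinarith
  have hfin := le_of_tendsto_of_tendsto' hTlim ((hkK.const_mul (1/2)).add_const
    ((1/2) * (α * EN D Ux Uy + β * QN D U Ux Uy))) hTle
  linarith

/-- existence of minimizers of `(1 - s) E + s Q` -/
theorem Adm.exists_min {D : Set ℂ} {c : Fin 3 → ℝ} {b : Fin 3 → ℂ → ℝ} (hD : MeasurableSet D)
    {R : ℝ} (hDR : D ⊆ Metric.ball 0 R) {u₀ ux₀ uy₀ : Fin 3 → ℂ → ℝ}
    (h₀ : Adm D c b u₀ ux₀ uy₀) {s : ℝ} (hs0 : 0 ≤ s) (hs1 : s < 1) :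
    ∃ u ux uy, Adm D c b u ux uy ∧ ∀ v vx vy, Adm D c b v vx vy →
      (1 - s) * EN D ux uy + s * QN D u ux uy ≤ (1 - s) * EN D vx vy + s * QN D v vx vy := by
  set S : Set ℝ := {e | ∃ v vx vy, Adm D c b v vx vy ∧
    e = (1 - s) * EN D vx vy + s * QN D v vx vy} with hS
  have hEN : ∀ vx vy : Fin 3 → ℂ → ℝ, 0 ≤ EN D vx vy := fun vx vy =>
    setIntegral_nonneg hD fun z _ => eD_nonneg _ _ _
  have hQN : ∀ v vx vy : Fin 3 → ℂ → ℝ, 0 ≤ QN D v vx vy := fun v vx vy =>
    setIntegral_nonneg hD fun z _ => qD_nonneg _ _ _ _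
  have hbdd : BddBelow S := ⟨0, by
    rintro _ ⟨v, vx, vy, -, rfl⟩
    have := hEN vx vy
    have := hQN v vx vy
    have : 0 ≤ 1 - s := by linarith
    positivity⟩
  have hne : S.Nonempty := ⟨_, u₀, ux₀, uy₀, h₀, rfl⟩
  obtain ⟨e, -, he, heS⟩ := exists_seq_tendsto_sInf hne hbdd
  choose v vx vy hv hve using heS
  obtain ⟨B, hB⟩ := he.bddAbove_range
  have hB' : ∀ n, e n ≤ B := fun n => hB (mem_range_self n)
  have h1s : 0 < 1 - s := by linarith
  have hM : ∀ n, EN D (vx n) (vy n) ≤ B / (1 - s) := by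
    intro n
    rw [le_div_iff₀ h1s]
    have := hB' n
    rw [hve n] at this
    have := mul_nonneg hs0 (hQN (v n) (vx n) (vy n))
    linarith
  obtain ⟨σ, hσ, U, Ux, Uy, hA, hlsc⟩ := Adm.compact hD hDR hv hM
  refine ⟨U, Ux, Uy, hA, ?_⟩
  intro w wx wy hw
  have h1 := hlsc (1 - s) s h1s.le hs0 (fun n => e (σ n)) (sInf S)
    (fun n => (hve (σ n)).symm.le) (he.comp hσ.tendsto_atTop)
  exact h1.trans (csInf_le hbdd ⟨w, wx, wy, hw, rfl⟩)

end Pool.Agent.H617_HM
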