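import Pool.Agent.H617_HM.V3

/-!
# The Euler-Lagrange equation of minimizers
-/

set_option autoImplicit false

open MeasureTheory Filter Topology Set
open scoped ContDiff

namespace Pool.Agent.H617_HM

open Pool.Agent.Helper985.VR

theorem S1.of_eq {f fx fy g gx gy : ℂ → ℝ} (h : S1 f fx fy) (e : ∀ z, f z = g z)
    (ex : ∀ z, fx z = gx z) (ey : ∀ z, fy z = gy z) : S1 g gx gy := by
  have h1 : f = g := funext e
  have h2 : fx = gx := funext ex
  have h3 : fy = gy := funext ey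
  rw [← h1, ← h2, ← h3]; exact h

section adm
variable {D : Set ℂ} {c : Fin 3 → ℝ} {b u ux uy : Fin 3 → ℂ → ℝ}

theorem Adm.bdd (h : Adm D c b u ux uy) {B : ℝ} (hb : ∀ i, ∀ᵐ z, |b i z| ≤ B) (i : Fin 3) :
    ∀ᵐ z, |u i z| ≤ max B 1 := by
  filter_upwards [h.le_one i, h.bc i, hb i] with z h1 h2 h3
  by_cases hz : z ∈ D
  · exact (h1 hz).trans (le_max_right _ _)
  · rw [h2 hz]; exact h3.trans (le_max_left _ _)

theorem Adm.bdd' (h : Adm D c b u ux uy) {B : ℝ} (hb : ∀ i, ∀ᵐ z, |b i z| ≤ B) (i : Fin 3) :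
    ∀ᵐ z, |u i z - c i| ≤ max B 1 + |c i| := by
  filter_upwards [h.bdd hb i] with z h1
  exact (abs_sub _ _).trans (by linarith)

/-- derivatives are orthogonal to the map -/
theorem Adm.orth (h : Adm D c b u ux uy) {B : ℝ} (hb : ∀ i, ∀ᵐ z, |b i z| ≤ B)
    (hc : c 0 ^ 2 + c 1 ^ 2 + c 2 ^ 2 = 1) :
    ∀ᵐ z, z ∈ D → u 0 z * ux 0 z + u 1 z * ux 1 z + u 2 z * ux 2 z = 0 ∧
      u 0 z * uy 0 z + u 1 z * uy 1 z + u 2 z * uy 2 z = 0 := by
  have hi : ∀ i, S1 (fun z => (u i z - c i) * (u i z - c i) + (2 * c i) * (u i z - c i))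
      (fun z => 2 * (u i z * ux i z)) (fun z => 2 * (u i z * uy i z)) := by
    intro i
    refine (((h.s1 i).mul (h.s1 i) (h.bdd' hb i) (h.bdd' hb i)).add
      ((h.s1 i).const_mul (2 * c i))).of_eq (fun z => rfl) (fun z => ?_) (fun z => ?_) <;> ring
  have hS := ((hi 0).add (hi 1)).add (hi 2)
  filter_upwards [hS.zero_set, h.unit] with z h1 h2 hz
  have h3 := h2 hz
  obtain ⟨h4, h5⟩ := h1 (by nlinarith)
  constructor <;> linarith

end adm

/-- the Jacobian `u · (u_x × u_y)` -/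
noncomputable def Jd (u ux uy : Fin 3 → ℂ → ℝ) (z : ℂ) : ℝ :=
  u 0 z * (ux 1 z * uy 2 z - ux 2 z * uy 1 z) + u 1 z * (ux 2 z * uy 0 z - ux 0 z * uy 2 z) +
    u 2 z * (ux 0 z * uy 1 z - ux 1 z * uy 0 z)

theorem qD_eq (u ux uy : Fin 3 → ℂ → ℝ) (z : ℂ)
    (h1 : u 0 z ^ 2 + u 1 z ^ 2 + u 2 z ^ 2 = 1)
    (h2 : u 0 z * uy 0 z + u 1 z * uy 1 z + u 2 z * uy 2 z = 0) :
    qD u ux uy z = eD ux uy z - 2 * Jd u ux uy z := by
  have e0 : Qv u ux uy 0 z = ux 0 z + (u 1 z * uy 2 z - u 2 z * uy 1 z) := rfl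
  have e1 : Qv u ux uy 1 z = ux 1 z + (u 2 z * uy 0 z - u 0 z * uy 2 z) := rfl
  have e2 : Qv u ux uy 2 z = ux 2 z + (u 0 z * uy 1 z - u 1 z * uy 0 z) := rfl
  unfold qD eD Jd
  rw [Fin.sum_univ_three, Fin.sum_univ_three, e0, e1, e2]
  linear_combination (uy 0 z ^ 2 + uy 1 z ^ 2 + uy 2 z ^ 2) * h1 -
    (u 0 z * uy 0 z + u 1 z * uy 1 z + u 2 z * uy 2 z) * h2

/-- a minimizer of `(1 - s) E + s Q` -/
structure IsMin (D : Set ℂ) (c : Fin 3 → ℝ) (b : Fin 3 → ℂ → ℝ) (s : ℝ)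
    (u ux uy : Fin 3 → ℂ → ℝ) : Prop where
  adm : Adm D c b u ux uy
  min : ∀ v vx vy, Adm D c b v vx vy →
      (1 - s) * EN D ux uy + s * QN D u ux uy ≤ (1 - s) * EN D vx vy + s * QN D v vx vy

/-- cyclic shift of the components -/
def cy {α : Type*} (u : Fin 3 → α) : Fin 3 → α := fun j => u (j + 1)

theorem cy_cy_cy {α : Type*} (u : Fin 3 → α) : cy (cy (cy u)) = u := by
  funext j; fin_cases j <;> rfl

theorem eD_cy (ux uy : Fin 3 → ℂ → ℝ) (z : ℂ) : eD (cy ux) (cy uy) z = eD ux uy z := by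
  unfold eD
  rw [Fin.sum_univ_three, Fin.sum_univ_three]
  show (ux 1 z ^ 2 + uy 1 z ^ 2) + (ux 2 z ^ 2 + uy 2 z ^ 2) + (ux 0 z ^ 2 + uy 0 z ^ 2) = _
  ring

theorem qD_cy (u ux uy : Fin 3 → ℂ → ℝ) (z : ℂ) :
    qD (cy u) (cy ux) (cy uy) z = qD u ux uy z := by
  unfold qD
  rw [Fin.sum_univ_three, Fin.sum_univ_three]
  show Qv u ux uy 1 z ^ 2 + Qv u ux uy 2 z ^ 2 + Qv u ux uy 0 z ^ 2 = _
  ring

theorem Adm.cy {D : Set ℂ} {c : Fin 3 → ℝ} {b u ux uy : Fin 3 → ℂ → ℝ} (h : Adm D c b u ux uy) :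
    Adm D (cy c) (cy b) (cy u) (cy ux) (cy uy) := by
  refine ⟨fun i => h.s1 (i + 1), fun i => h.bc (i + 1), ?_⟩
  filter_upwards [h.unit] with z hz hD
  have := hz hD
  show u 1 z ^ 2 + u 2 z ^ 2 + u 0 z ^ 2 = 1
  linarith

theorem EN_cy (D : Set ℂ) (ux uy : Fin 3 → ℂ → ℝ) : EN D (cy ux) (cy uy) = EN D ux uy := by
  unfold EN; simp only [eD_cy]

theorem QN_cy (D : Set ℂ) (u ux uy : Fin 3 → ℂ → ℝ) :
    QN D (cy u) (cy ux) (cy uy) = QN D u ux uy := by
  unfold QN; simp only [qD_cy]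

theorem IsMin.cy {D : Set ℂ} {c : Fin 3 → ℝ} {b u ux uy : Fin 3 → ℂ → ℝ} {s : ℝ}
    (h : IsMin D c b s u ux uy) : IsMin D (cy c) (cy b) s (cy u) (cy ux) (cy uy) := by
  refine ⟨h.adm.cy, fun v vx vy hv => ?_⟩
  have h1 := h.min _ _ _ (by
    have := hv.cy.cy
    rw [cy_cy_cy, cy_cy_cy] at this
    exact this)
  rw [EN_cy, EN_cy, QN_cy, QN_cy] at h1
  rw [EN_cy, QN_cy]
  exact h1

/-- rotation of the last two components by the angle `t φ` -/
theorem Adm.rot {D : Set ℂ} {c : Fin 3 → ℝ} {b u ux uy : Fin 3 → ℂ → ℝ}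
    (h : Adm D c b u ux uy) {B : ℝ} (hb : ∀ i, ∀ᵐ z, |b i z| ≤ B) {φ φx φy : ℂ → ℝ}
    (hφ : S1 φ φx φy) (h0 : ∀ᵐ z, z ∉ D → φ z = 0) (t : ℝ) :
    Adm D c b
      ![u 0, fun z => Real.cos (t * φ z) * u 1 z - Real.sin (t * φ z) * u 2 z,
        fun z => Real.sin (t * φ z) * u 1 z + Real.cos (t * φ z) * u 2 z]
      ![ux 0, fun z => Real.cos (t * φ z) * ux 1 z - Real.sin (t * φ z) * ux 2 z -
          (t * φx z) * (Real.sin (t * φ z) * u 1 z + Real.cos (t * φ z) * u 2 z),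
        fun z => Real.sin (t * φ z) * ux 1 z + Real.cos (t * φ z) * ux 2 z +
          (t * φx z) * (Real.cos (t * φ z) * u 1 z - Real.sin (t * φ z) * u 2 z)]
      ![uy 0, fun z => Real.cos (t * φ z) * uy 1 z - Real.sin (t * φ z) * uy 2 z -
          (t * φy z) * (Real.sin (t * φ z) * u 1 z + Real.cos (t * φ z) * u 2 z),
        fun z => Real.sin (t * φ z) * uy 1 z + Real.cos (t * φ z) * uy 2 z +
          (t * φy z) * (Real.cos (t * φ z) * u 1 z - Real.sin (t * φ z) * u 2 z)] := by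
  set M : ℝ := 2 + (max B 1 + |c 1| + |c 2|) with hM
  have hmB : 0 ≤ max B 1 := le_trans zero_le_one (le_max_right _ _)
  have hA : S1 (fun z => Real.cos (t * φ z) - 1) (fun z => (-(t * Real.sin (t * φ z))) * φx z)
      (fun z => (-(t * Real.sin (t * φ z))) * φy z) := by
    refine hφ.comp' (F := fun r => Real.cos (t * r) - 1) (F' := fun r => -(t * Real.sin (t * r)))
      (L := |t|) ?_ (by fun_prop) ?_ (by simp)
    · intro r
      have h1 : HasDerivAt (fun r : ℝ => t * r) t r := by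
        simpa using (hasDerivAt_id r).const_mul t
      refine ((Real.hasDerivAt_cos (t * r)).comp r h1 |>.sub_const 1).congr_deriv ?_
      ring
    · intro r
      rw [abs_neg, abs_mul]
      have := Real.abs_sin_le_one (t * r)
      nlinarith [abs_nonneg t]
  have hS : S1 (fun z => Real.sin (t * φ z)) (fun z => (t * Real.cos (t * φ z)) * φx z)
      (fun z => (t * Real.cos (t * φ z)) * φy z) := by
    refine hφ.comp' (F := fun r => Real.sin (t * r)) (F' := fun r => t * Real.cos (t * r))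
      (L := |t|) ?_ (by fun_prop) ?_ (by simp)
    · intro r
      have h1 : HasDerivAt (fun r : ℝ => t * r) t r := by
        simpa using (hasDerivAt_id r).const_mul t
      refine ((Real.hasDerivAt_sin (t * r)).comp r h1).congr_deriv ?_
      ring
    · intro r
      rw [abs_mul]
      have := Real.abs_cos_le_one (t * r)
      nlinarith [abs_nonneg t]
  have bA : ∀ᵐ z, |Real.cos (t * φ z) - 1| ≤ M := by
    filter_upwards with z
    have h1 := Real.neg_one_le_cos (t * φ z)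
    have h2 := Real.cos_le_one (t * φ z)
    rw [abs_le]
    constructor <;> simp only [hM] <;> nlinarith [abs_nonneg (c 1), abs_nonneg (c 2)]
  have bS : ∀ᵐ z, |Real.sin (t * φ z)| ≤ M := by
    filter_upwards with z
    have h1 := Real.abs_sin_le_one (t * φ z)
    simp only [hM]; linarith [abs_nonneg (c 1), abs_nonneg (c 2)]
  have b1 : ∀ᵐ z, |u 1 z - c 1| ≤ M := by
    filter_upwards [h.bdd' hb 1] with z h1
    simp only [hM]; linarith [abs_nonneg (c 1), abs_nonneg (c 2)]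
  have b2 : ∀ᵐ z, |u 2 z - c 2| ≤ M := by
    filter_upwards [h.bdd' hb 2] with z h1
    simp only [hM]; linarith [abs_nonneg (c 1), abs_nonneg (c 2)]
  refine ⟨?_, ?_, ?_⟩
  · intro i
    fin_cases i
    · exact h.s1 0
    · have h1 := (((hA.mul (h.s1 1) bA b1).sub (hS.mul (h.s1 2) bS b2)).add (h.s1 1)).add
        ((hA.const_mul (c 1)).sub (hS.const_mul (c 2)))
      refine h1.of_eq (fun z => ?_) (fun z => ?_) (fun z => ?_)
      · show _ = Real.cos (t * φ z) * u 1 z - Real.sin (t * φ z) * u 2 z - c 1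
        ring
      · show _ = Real.cos (t * φ z) * ux 1 z - Real.sin (t * φ z) * ux 2 z -
          (t * φx z) * (Real.sin (t * φ z) * u 1 z + Real.cos (t * φ z) * u 2 z)
        ring
      · show _ = Real.cos (t * φ z) * uy 1 z - Real.sin (t * φ z) * uy 2 z -
          (t * φy z) * (Real.sin (t * φ z) * u 1 z + Real.cos (t * φ z) * u 2 z)
        ring
    · have h1 := (((hS.mul (h.s1 1) bS b1).add (hA.mul (h.s1 2) bA b2)).add (h.s1 2)).add
        ((hS.const_mul (c 1)).add (hA.const_mul (c 2)))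
      refine h1.of_eq (fun z => ?_) (fun z => ?_) (fun z => ?_)
      · show _ = Real.sin (t * φ z) * u 1 z + Real.cos (t * φ z) * u 2 z - c 2
        ring
      · show _ = Real.sin (t * φ z) * ux 1 z + Real.cos (t * φ z) * ux 2 z +
          (t * φx z) * (Real.cos (t * φ z) * u 1 z - Real.sin (t * φ z) * u 2 z)
        ring
      · show _ = Real.sin (t * φ z) * uy 1 z + Real.cos (t * φ z) * uy 2 z +
          (t * φy z) * (Real.cos (t * φ z) * u 1 z - Real.sin (t * φ z) * u 2 z)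
        ring
  · intro i
    fin_cases i
    · exact h.bc 0
    · filter_upwards [h0, h.bc 1] with z h1 h2 hz
      show Real.cos (t * φ z) * u 1 z - Real.sin (t * φ z) * u 2 z = b 1 z
      rw [h1 hz, ← h2 hz]; simp
    · filter_upwards [h0, h.bc 2] with z h1 h2 hz
      show Real.sin (t * φ z) * u 1 z + Real.cos (t * φ z) * u 2 z = b 2 z
      rw [h1 hz, ← h2 hz]; simp
  · filter_upwards [h.unit] with z h1 hz
    have h2 := h1 hz
    show u 0 z ^ 2 + (Real.cos (t * φ z) * u 1 z - Real.sin (t * φ z) * u 2 z) ^ 2 +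
      (Real.sin (t * φ z) * u 1 z + Real.cos (t * φ z) * u 2 z) ^ 2 = 1
    have h3 := Real.sin_sq_add_cos_sq (t * φ z)
    linear_combination h2 + (u 1 z ^ 2 + u 2 z ^ 2) * h3

end Pool.Agent.H617_HM
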