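import Pool.Agent.H617_HM.V4

/-!
# The Euler-Lagrange equation of minimizers
-/

set_option autoImplicit false

open MeasureTheory Filter Topology Set
open scoped ContDiff

namespace Pool.Agent.H617_HM

open Pool.Agent.Helper985.VR

theorem lin_zero {A B : ℝ} (h : ∀ t : ℝ, 0 ≤ t ^ 2 * A + 2 * t * B) : B = 0 := by
  by_contra hB
  rcases le_or_gt A 0 with hA | hA
  · have := h (-B); nlinarith [sq_nonneg B, mul_self_pos.2 hB]
  · have := h (-B / A)
    have h2 : (-B / A) ^ 2 * A + 2 * (-B / A) * B = - (B ^ 2 / A) := by field_simp; ring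
    rw [h2] at this
    have : 0 < B ^ 2 / A := by positivity
    linarith

/-- the flux density of the rotation about the first axis -/
noncomputable def fl0 (φx φy : ℂ → ℝ) (u ux uy : Fin 3 → ℂ → ℝ) (z : ℂ) : ℝ :=
  φx z * (u 1 z * ux 2 z - u 2 z * ux 1 z) + φy z * (u 1 z * uy 2 z - u 2 z * uy 1 z)

theorem IsMin.el0 {D : Set ℂ} (hD : MeasurableSet D) {c : Fin 3 → ℝ}
    {b u ux uy : Fin 3 → ℂ → ℝ} {s : ℝ}
    (h : IsMin D c b s u ux uy) {B : ℝ} (hb : ∀ i, ∀ᵐ z, |b i z| ≤ B)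
    (hc : c 0 ^ 2 + c 1 ^ 2 + c 2 ^ 2 = 1) {φ φx φy : ℂ → ℝ}
    (hφ : S1 φ φx φy) (h0 : ∀ᵐ z, z ∉ D → φ z = 0) :
    ∫ z in D, fl0 φx φy u ux uy z = 0 := by
  have hA := h.adm
  have orth := hA.orth hb hc
  -- integrability
  have im : ∀ (i j : Fin 3) (p : ℂ → ℝ) (q : Fin 3 → ℂ → ℝ), L2 p → (∀ j, L2 (q j)) →
      IntegrableOn (fun z => p z * (u i z * q j z)) D := by
    intro i j p q hp hq
    have h1 := hp.mul (hA.mul_ind hD i (hq j))
    have h2 : (fun z => p z * (u i z * D.indicator (q j) z)) =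
        D.indicator (fun z => p z * (u i z * q j z)) := by
      ext z
      by_cases hz : z ∈ D
      · simp only [indicator_of_mem hz]
      · simp only [indicator_of_notMem hz]; ring
    rw [h2, integrable_indicator_iff hD] at h1
    exact h1
  have ifl : IntegrableOn (fl0 φx φy u ux uy) D := by
    have h1 := ((im 1 2 φx ux hφ.lx (fun j => (hA.s1 j).lx)).sub
      (im 2 1 φx ux hφ.lx (fun j => (hA.s1 j).lx))).add
      ((im 1 2 φy uy hφ.ly (fun j => (hA.s1 j).ly)).sub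
      (im 2 1 φy uy hφ.ly (fun j => (hA.s1 j).ly)))
    refine h1.congr ?_
    filter_upwards with z
    simp only [Pi.add_apply, Pi.sub_apply, fl0]; ring
  have isq : IntegrableOn (fun z => (φx z ^ 2 + φy z ^ 2) * (u 1 z ^ 2 + u 2 z ^ 2)) D := by
    have h1 : ∀ i, ∀ p : ℂ → ℝ, L2 p → IntegrableOn (fun z => p z ^ 2 * u i z ^ 2) D := by
      intro i p hp
      have h2 := (hA.mul_ind hD i hp).2
      have h3 : (fun z => (u i z * D.indicator p z) ^ 2) =
          D.indicator (fun z => p z ^ 2 * u i z ^ 2) := by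
        ext z
        by_cases hz : z ∈ D
        · simp only [indicator_of_mem hz]; ring
        · simp only [indicator_of_notMem hz]; ring
      rw [h3, integrable_indicator_iff hD] at h2
      exact h2
    refine (((h1 1 φx hφ.lx).add (h1 2 φx hφ.lx)).add
      ((h1 1 φy hφ.ly).add (h1 2 φy hφ.ly))).congr ?_
    filter_upwards with z
    simp only [Pi.add_apply]; ring
  -- the null Lagrangian
  have hdet : ∫ z in D, (φx z * uy 0 z - φy z * ux 0 z) = 0 := by
    have h1 := det_int hφ (hA.s1 0)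
    have i1 : Integrable fun z => φx z * uy 0 z := hφ.lx.mul (hA.s1 0).ly
    have i2 : Integrable fun z => φy z * ux 0 z := hφ.ly.mul (hA.s1 0).lx
    have h2 : ∫ z, (φx z * uy 0 z - φy z * ux 0 z) = 0 := by
      rw [integral_sub i1 i2, h1, sub_self]
    rw [← h2]
    refine setIntegral_eq_integral_of_ae_compl_eq_zero ?_
    filter_upwards [h0, hφ.zero_set] with z h3 h4 hz
    obtain ⟨h5, h6⟩ := h4 (h3 hz)
    rw [h5, h6]; ring
  have idet : IntegrableOn (fun z => φx z * uy 0 z - φy z * ux 0 z) D :=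
    ((hφ.lx.mul (hA.s1 0).ly).sub (hφ.ly.mul (hA.s1 0).lx)).integrableOn
  -- the comparison
  refine lin_zero (A := ∫ z in D, (φx z ^ 2 + φy z ^ 2) * (u 1 z ^ 2 + u 2 z ^ 2)) fun t => ?_
  have hr := hA.rot hb hφ h0 t
  have hm := h.min _ _ _ hr
  have orth' := hr.orth hb hc
  set w : Fin 3 → ℂ → ℝ := ![u 0, fun z => Real.cos (t * φ z) * u 1 z - Real.sin (t * φ z) * u 2 z,
        fun z => Real.sin (t * φ z) * u 1 z + Real.cos (t * φ z) * u 2 z] with hw
  set wx : Fin 3 → ℂ → ℝ := ![ux 0, fun z => Real.cos (t * φ z) * ux 1 z -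
      Real.sin (t * φ z) * ux 2 z -
          (t * φx z) * (Real.sin (t * φ z) * u 1 z + Real.cos (t * φ z) * u 2 z),
        fun z => Real.sin (t * φ z) * ux 1 z + Real.cos (t * φ z) * ux 2 z +
          (t * φx z) * (Real.cos (t * φ z) * u 1 z - Real.sin (t * φ z) * u 2 z)] with hwx
  set wy : Fin 3 → ℂ → ℝ := ![uy 0, fun z => Real.cos (t * φ z) * uy 1 z -
      Real.sin (t * φ z) * uy 2 z -
          (t * φy z) * (Real.sin (t * φ z) * u 1 z + Real.cos (t * φ z) * u 2 z),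
        fun z => Real.sin (t * φ z) * uy 1 z + Real.cos (t * φ z) * uy 2 z +
          (t * φy z) * (Real.cos (t * φ z) * u 1 z - Real.sin (t * φ z) * u 2 z)] with hwy
  have key : ∀ᵐ z, z ∈ D → (1 - s) * eD wx wy z + s * qD w wx wy z =
      ((1 - s) * eD ux uy z + s * qD u ux uy z) +
      (t ^ 2 * ((φx z ^ 2 + φy z ^ 2) * (u 1 z ^ 2 + u 2 z ^ 2)) +
        2 * t * fl0 φx φy u ux uy z - 2 * s * t * (φx z * uy 0 z - φy z * ux 0 z)) := by
    filter_upwards [orth, orth', hA.unit, hr.unit] with z o1 o2 n1 n2 hz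
    obtain ⟨ox, oy⟩ := o1 hz
    obtain ⟨ox', oy'⟩ := o2 hz
    have n1' := n1 hz
    rw [qD_eq w wx wy z (n2 hz) oy', qD_eq u ux uy z n1' oy]
    have hcs := Real.sin_sq_add_cos_sq (t * φ z)
    have hE : eD wx wy z = eD ux uy z + t ^ 2 * ((φx z ^ 2 + φy z ^ 2) *
        (u 1 z ^ 2 + u 2 z ^ 2)) + 2 * t * fl0 φx φy u ux uy z := by
      unfold eD fl0
      rw [Fin.sum_univ_three, Fin.sum_univ_three]
      show (ux 0 z ^ 2 + uy 0 z ^ 2) + ((Real.cos (t * φ z) * ux 1 z - Real.sin (t * φ z) * ux 2 z -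
          (t * φx z) * (Real.sin (t * φ z) * u 1 z + Real.cos (t * φ z) * u 2 z)) ^ 2 +
          (Real.cos (t * φ z) * uy 1 z - Real.sin (t * φ z) * uy 2 z -
          (t * φy z) * (Real.sin (t * φ z) * u 1 z + Real.cos (t * φ z) * u 2 z)) ^ 2) +
          ((Real.sin (t * φ z) * ux 1 z + Real.cos (t * φ z) * ux 2 z +
          (t * φx z) * (Real.cos (t * φ z) * u 1 z - Real.sin (t * φ z) * u 2 z)) ^ 2 +
          (Real.sin (t * φ z) * uy 1 z + Real.cos (t * φ z) * uy 2 z +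
          (t * φy z) * (Real.cos (t * φ z) * u 1 z - Real.sin (t * φ z) * u 2 z)) ^ 2) = _
      generalize Real.cos (t * φ z) = C at *
      generalize Real.sin (t * φ z) = S at *
      linear_combination (ux 1 z ^ 2 + ux 2 z ^ 2 + uy 1 z ^ 2 + uy 2 z ^ 2 +
        2 * t * (φx z * (u 1 z * ux 2 z - u 2 z * ux 1 z) +
          φy z * (u 1 z * uy 2 z - u 2 z * uy 1 z)) +
        t ^ 2 * (φx z ^ 2 + φy z ^ 2) * (u 1 z ^ 2 + u 2 z ^ 2)) * hcs
    have hJ : Jd w wx wy z = Jd u ux uy z + t * (φx z * uy 0 z - φy z * ux 0 z) := by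
      unfold Jd
      show u 0 z * ((Real.cos (t * φ z) * ux 1 z - Real.sin (t * φ z) * ux 2 z -
          (t * φx z) * (Real.sin (t * φ z) * u 1 z + Real.cos (t * φ z) * u 2 z)) *
          (Real.sin (t * φ z) * uy 1 z + Real.cos (t * φ z) * uy 2 z +
          (t * φy z) * (Real.cos (t * φ z) * u 1 z - Real.sin (t * φ z) * u 2 z)) -
          (Real.sin (t * φ z) * ux 1 z + Real.cos (t * φ z) * ux 2 z +
          (t * φx z) * (Real.cos (t * φ z) * u 1 z - Real.sin (t * φ z) * u 2 z)) *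
          (Real.cos (t * φ z) * uy 1 z - Real.sin (t * φ z) * uy 2 z -
          (t * φy z) * (Real.sin (t * φ z) * u 1 z + Real.cos (t * φ z) * u 2 z))) +
          (Real.cos (t * φ z) * u 1 z - Real.sin (t * φ z) * u 2 z) *
          ((Real.sin (t * φ z) * ux 1 z + Real.cos (t * φ z) * ux 2 z +
          (t * φx z) * (Real.cos (t * φ z) * u 1 z - Real.sin (t * φ z) * u 2 z)) * uy 0 z -
          ux 0 z * (Real.sin (t * φ z) * uy 1 z + Real.cos (t * φ z) * uy 2 z +
          (t * φy z) * (Real.cos (t * φ z) * u 1 z - Real.sin (t * φ z) * u 2 z))) +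
          (Real.sin (t * φ z) * u 1 z + Real.cos (t * φ z) * u 2 z) *
          (ux 0 z * (Real.cos (t * φ z) * uy 1 z - Real.sin (t * φ z) * uy 2 z -
          (t * φy z) * (Real.sin (t * φ z) * u 1 z + Real.cos (t * φ z) * u 2 z)) -
          (Real.cos (t * φ z) * ux 1 z - Real.sin (t * φ z) * ux 2 z -
          (t * φx z) * (Real.sin (t * φ z) * u 1 z + Real.cos (t * φ z) * u 2 z)) * uy 0 z) = _
      generalize Real.cos (t * φ z) = C at *
      generalize Real.sin (t * φ z) = S at *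
      linear_combination (u 0 z * (ux 1 z * uy 2 z - ux 2 z * uy 1 z) +
        u 1 z * (ux 2 z * uy 0 z - ux 0 z * uy 2 z) +
        u 2 z * (ux 0 z * uy 1 z - ux 1 z * uy 0 z) + t * φx z * ((u 1 z ^ 2 + u 2 z ^ 2) * uy 0 z -
        u 0 z * (u 1 z * uy 1 z + u 2 z * uy 2 z)) - t * φy z * ((u 1 z ^ 2 + u 2 z ^ 2) * ux 0 z -
        u 0 z * (u 1 z * ux 1 z + u 2 z * ux 2 z))) * hcs +
        (t * φx z * uy 0 z - t * φy z * ux 0 z) * n1' - t * φx z * u 0 z * oy +
        t * φy z * u 0 z * ox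
    rw [hE, hJ]; ring
  have ie : IntegrableOn (eD ux uy) D := hA.eD_int.integrableOn
  have iq : IntegrableOn (qD u ux uy) D := hA.qD_int hD
  have ie' : IntegrableOn (eD wx wy) D := hr.eD_int.integrableOn
  have iq' : IntegrableOn (qD w wx wy) D := hr.qD_int hD
  have hint : (1 - s) * EN D wx wy + s * QN D w wx wy =
      ((1 - s) * EN D ux uy + s * QN D u ux uy) +
      (t ^ 2 * (∫ z in D, (φx z ^ 2 + φy z ^ 2) * (u 1 z ^ 2 + u 2 z ^ 2)) +
        2 * t * (∫ z in D, fl0 φx φy u ux uy z) -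
        2 * s * t * ∫ z in D, (φx z * uy 0 z - φy z * ux 0 z)) := by
    unfold EN QN
    have j1 : IntegrableOn (fun z => (1 - s) * eD ux uy z) D := ie.const_mul _
    have j2 : IntegrableOn (fun z => s * qD u ux uy z) D := iq.const_mul _
    have j3 : IntegrableOn (fun z => (1 - s) * eD wx wy z) D := ie'.const_mul _
    have j4 : IntegrableOn (fun z => s * qD w wx wy z) D := iq'.const_mul _
    have j5 : IntegrableOn (fun z => t ^ 2 * ((φx z ^ 2 + φy z ^ 2) *
      (u 1 z ^ 2 + u 2 z ^ 2))) D := isq.const_mul _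
    have j6 : IntegrableOn (fun z => 2 * t * fl0 φx φy u ux uy z) D := ifl.const_mul _
    have j7 : IntegrableOn (fun z => 2 * s * t * (φx z * uy 0 z - φy z * ux 0 z)) D :=
      idet.const_mul _
    have j12 : IntegrableOn (fun z => (1 - s) * eD ux uy z + s * qD u ux uy z) D := j1.add j2
    have j56 : IntegrableOn (fun z => t ^ 2 * ((φx z ^ 2 + φy z ^ 2) *
      (u 1 z ^ 2 + u 2 z ^ 2)) + 2 * t * fl0 φx φy u ux uy z) D := j5.add j6
    have j567 : IntegrableOn (fun z => t ^ 2 * ((φx z ^ 2 + φy z ^ 2) *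
      (u 1 z ^ 2 + u 2 z ^ 2)) + 2 * t * fl0 φx φy u ux uy z -
      2 * s * t * (φx z * uy 0 z - φy z * ux 0 z)) D := j56.sub j7
    rw [← integral_const_mul, ← integral_const_mul, ← integral_const_mul, ← integral_const_mul,
      ← integral_const_mul, ← integral_const_mul, ← integral_const_mul,
      ← integral_add j3 j4, ← integral_add j1 j2, ← integral_add j5 j6, ← integral_sub j56 j7,
      ← integral_add j12 j567]
    exact setIntegral_congr_ae hD key
  rw [hint, hdet] at hm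
  linarith

/-- the flux density of the rotation about the axis `i` -/
noncomputable def fl (i : Fin 3) (φx φy : ℂ → ℝ) (u ux uy : Fin 3 → ℂ → ℝ) (z : ℂ) : ℝ :=
  φx z * (u (i + 1) z * ux (i + 2) z - u (i + 2) z * ux (i + 1) z) +
    φy z * (u (i + 1) z * uy (i + 2) z - u (i + 2) z * uy (i + 1) z)

theorem IsMin.el {D : Set ℂ} (hD : MeasurableSet D) {c : Fin 3 → ℝ}
    {b u ux uy : Fin 3 → ℂ → ℝ} {s : ℝ}
    (h : IsMin D c b s u ux uy) {B : ℝ} (hb : ∀ i, ∀ᵐ z, |b i z| ≤ B)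
    (hc : c 0 ^ 2 + c 1 ^ 2 + c 2 ^ 2 = 1) {φ φx φy : ℂ → ℝ}
    (hφ : S1 φ φx φy) (h0 : ∀ᵐ z, z ∉ D → φ z = 0) (i : Fin 3) :
    ∫ z in D, fl i φx φy u ux uy z = 0 := by
  fin_cases i
  · exact h.el0 hD hb hc hφ h0
  · refine h.cy.el0 hD (fun i => hb (i + 1)) ?_ hφ h0
    show c 1 ^ 2 + c 2 ^ 2 + c 0 ^ 2 = 1
    linarith
  · refine h.cy.cy.el0 hD (fun i => hb (i + 1 + 1)) ?_ hφ h0
    show c 2 ^ 2 + c 0 ^ 2 + c 1 ^ 2 = 1
    linarith

end Pool.Agent.H617_HM
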