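import Pool.Agent.H617_HM.G1

/-!
# Maps into the sphere in homogeneous coordinates
-/

set_option autoImplicit false

open MeasureTheory Filter Topology Set
open scoped ContDiff

namespace Pool.Agent.H617_HM

open Pool.Agent.Helper985.VR

/-- numerators of the inverse stereographic projection -/
noncomputable def nu (N d : ℂ) : Fin 3 → ℝ :=
  ![2 * (N.re * d.re + N.im * d.im), 2 * (N.im * d.re - N.re * d.im),
    d.re ^ 2 + d.im ^ 2 - N.re ^ 2 - N.im ^ 2]

/-- the denominator -/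
noncomputable def de (N d : ℂ) : ℝ := N.re ^ 2 + N.im ^ 2 + d.re ^ 2 + d.im ^ 2

/-- the point of the sphere with homogeneous coordinates `(N, d)` -/
noncomputable def sp (N d : ℂ) (i : Fin 3) : ℝ := nu N d i / de N d

theorem de_pos {N d : ℂ} (h : N ≠ 0 ∨ d ≠ 0) : 0 < de N d := by
  have h1 : de N d = Complex.normSq N + Complex.normSq d := by
    rw [Complex.normSq_apply, Complex.normSq_apply]; unfold de; ring
  rw [h1]
  rcases h with h | h
  · have := Complex.normSq_pos.2 h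
    have := Complex.normSq_nonneg d
    linarith
  · have := Complex.normSq_pos.2 h
    have := Complex.normSq_nonneg N
    linarith

theorem sp_unit {N d : ℂ} (h : N ≠ 0 ∨ d ≠ 0) : sp N d 0 ^ 2 + sp N d 1 ^ 2 + sp N d 2 ^ 2 = 1 := by
  have h1 := de_pos h
  show ((2 * (N.re * d.re + N.im * d.im)) / de N d) ^ 2 +
    ((2 * (N.im * d.re - N.re * d.im)) / de N d) ^ 2 +
    ((d.re ^ 2 + d.im ^ 2 - N.re ^ 2 - N.im ^ 2) / de N d) ^ 2 = 1
  rw [div_pow, div_pow, div_pow, ← add_div, ← add_div, div_eq_one_iff_eq (by positivity)]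
  unfold de; ring

theorem sp_scale (N d k : ℂ) (hk : k ≠ 0) (i : Fin 3) : sp (N * k) (d * k) i = sp N d i := by
  have h1 : 0 < k.re ^ 2 + k.im ^ 2 := by
    have := Complex.normSq_pos.2 hk
    rw [Complex.normSq_apply] at this; nlinarith
  have h2 : de (N * k) (d * k) = de N d * (k.re ^ 2 + k.im ^ 2) := by
    unfold de; simp only [Complex.mul_re, Complex.mul_im]; ring
  have h3 : ∀ i, nu (N * k) (d * k) i = nu N d i * (k.re ^ 2 + k.im ^ 2) := by
    intro i
    fin_cases i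
    · show 2 * ((N * k).re * (d * k).re + (N * k).im * (d * k).im) =
        2 * (N.re * d.re + N.im * d.im) * (k.re ^ 2 + k.im ^ 2)
      simp only [Complex.mul_re, Complex.mul_im]; ring
    · show 2 * ((N * k).im * (d * k).re - (N * k).re * (d * k).im) =
        2 * (N.im * d.re - N.re * d.im) * (k.re ^ 2 + k.im ^ 2)
      simp only [Complex.mul_re, Complex.mul_im]; ring
    · show (d * k).re ^ 2 + (d * k).im ^ 2 - (N * k).re ^ 2 - (N * k).im ^ 2 =
        (d.re ^ 2 + d.im ^ 2 - N.re ^ 2 - N.im ^ 2) * (k.re ^ 2 + k.im ^ 2)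
      simp only [Complex.mul_re, Complex.mul_im]; ring
  unfold sp
  rw [h2, h3 i, mul_div_mul_right _ _ h1.ne']

theorem sp_abs_le {N d : ℂ} (h : N ≠ 0 ∨ d ≠ 0) (i : Fin 3) : |sp N d i| ≤ 1 := by
  have h1 := sp_unit h
  rw [abs_le_one_iff_mul_self_le_one]
  fin_cases i
  · show sp N d 0 * sp N d 0 ≤ 1
    nlinarith [sq_nonneg (sp N d 1), sq_nonneg (sp N d 2)]
  · show sp N d 1 * sp N d 1 ≤ 1
    nlinarith [sq_nonneg (sp N d 0), sq_nonneg (sp N d 2)]
  · show sp N d 2 * sp N d 2 ≤ 1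
    nlinarith [sq_nonneg (sp N d 1), sq_nonneg (sp N d 0)]

theorem nu_contDiff {N d : ℂ → ℂ} (hN : ContDiff ℝ ∞ N) (hd : ContDiff ℝ ∞ d) (i : Fin 3) :
    ContDiff ℝ ∞ fun z => nu (N z) (d z) i := by
  have h1 : ContDiff ℝ ∞ fun z => (N z).re := Complex.reCLM.contDiff.comp hN
  have h2 : ContDiff ℝ ∞ fun z => (N z).im := Complex.imCLM.contDiff.comp hN
  have h3 : ContDiff ℝ ∞ fun z => (d z).re := Complex.reCLM.contDiff.comp hd
  have h4 : ContDiff ℝ ∞ fun z => (d z).im := Complex.imCLM.contDiff.comp hd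
  fin_cases i
  · exact contDiff_const.mul ((h1.mul h3).add (h2.mul h4))
  · exact contDiff_const.mul ((h2.mul h3).sub (h1.mul h4))
  · exact (((h3.pow 2).add (h4.pow 2)).sub (h1.pow 2)).sub (h2.pow 2)

theorem de_contDiff {N d : ℂ → ℂ} (hN : ContDiff ℝ ∞ N) (hd : ContDiff ℝ ∞ d) :
    ContDiff ℝ ∞ fun z => de (N z) (d z) := by
  have h1 : ContDiff ℝ ∞ fun z => (N z).re := Complex.reCLM.contDiff.comp hN
  have h2 : ContDiff ℝ ∞ fun z => (N z).im := Complex.imCLM.contDiff.comp hN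
  have h3 : ContDiff ℝ ∞ fun z => (d z).re := Complex.reCLM.contDiff.comp hd
  have h4 : ContDiff ℝ ∞ fun z => (d z).im := Complex.imCLM.contDiff.comp hd
  exact (((h1.pow 2).add (h2.pow 2)).add (h3.pow 2)).add (h4.pow 2)

theorem sp_contDiff {N d : ℂ → ℂ} (hN : ContDiff ℝ ∞ N) (hd : ContDiff ℝ ∞ d)
    (h : ∀ z, N z ≠ 0 ∨ d z ≠ 0) (i : Fin 3) : ContDiff ℝ ∞ fun z => sp (N z) (d z) i :=
  (nu_contDiff hN hd i).div (de_contDiff hN hd) fun z => (de_pos (h z)).ne'

/-- derivative of the numerators -/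
noncomputable def nud (N d N' d' : ℂ) : Fin 3 → ℝ :=
  ![2 * (N'.re * d.re + N.re * d'.re + (N'.im * d.im + N.im * d'.im)),
    2 * (N'.im * d.re + N.im * d'.re - (N'.re * d.im + N.re * d'.im)),
    2 * d.re * d'.re + 2 * d.im * d'.im - 2 * N.re * N'.re - 2 * N.im * N'.im]

/-- derivative of the denominator -/
noncomputable def ded (N d N' d' : ℂ) : ℝ :=
  2 * N.re * N'.re + 2 * N.im * N'.im + 2 * d.re * d'.re + 2 * d.im * d'.im

/-- derivative of the sphere-valued map -/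
noncomputable def spd (N d N' d' : ℂ) (i : Fin 3) : ℝ :=
  (nud N d N' d' i * de N d - nu N d i * ded N d N' d') / de N d ^ 2

theorem sp_hasDerivAt {N d : ℝ → ℂ} {N' d' : ℂ} {t : ℝ} (hN : HasDerivAt N N' t)
    (hd : HasDerivAt d d' t) (h : N t ≠ 0 ∨ d t ≠ 0) (i : Fin 3) :
    HasDerivAt (fun s => sp (N s) (d s) i) (spd (N t) (d t) N' d' i) t := by
  have h1 : HasDerivAt (fun s => (N s).re) N'.re t :=
    (Complex.reCLM.hasFDerivAt (x := N t)).comp_hasDerivAt t hN
  have h2 : HasDerivAt (fun s => (N s).im) N'.im t :=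
    (Complex.imCLM.hasFDerivAt (x := N t)).comp_hasDerivAt t hN
  have h3 : HasDerivAt (fun s => (d s).re) d'.re t :=
    (Complex.reCLM.hasFDerivAt (x := d t)).comp_hasDerivAt t hd
  have h4 : HasDerivAt (fun s => (d s).im) d'.im t :=
    (Complex.imCLM.hasFDerivAt (x := d t)).comp_hasDerivAt t hd
  have hde : HasDerivAt (fun s => de (N s) (d s)) (ded (N t) (d t) N' d') t := by
    have := (((h1.pow 2).add (h2.pow 2)).add (h3.pow 2)).add (h4.pow 2)
    refine this.congr_deriv ?_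
    simp only [ded]; norm_num
  have hnu : HasDerivAt (fun s => nu (N s) (d s) i) (nud (N t) (d t) N' d' i) t := by
    fin_cases i
    · exact ((h1.mul h3).add (h2.mul h4)).const_mul 2
    · exact ((h2.mul h3).sub (h1.mul h4)).const_mul 2
    · have := (((h3.pow 2).add (h4.pow 2)).sub (h1.pow 2)).sub (h2.pow 2)
      refine this.congr_deriv ?_
      show _ = 2 * (d t).re * d'.re + 2 * (d t).im * d'.im - 2 * (N t).re * N'.re -
        2 * (N t).im * N'.im
      norm_num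
  exact hnu.div hde (de_pos h).ne'

/-- the real part of `2 K conj(d) ^ 2 - 2 N ^ 2 conj(K)` and so on -/
theorem nu_ident (N d N1 N2 d1 d2 : ℂ) (K : ℂ)
    (hK : K = (N1 + Complex.I * N2) * d - N * (d1 + Complex.I * d2)) (i : Fin 3) :
    nud N d N1 d1 i * de N d - nu N d i * ded N d N1 d1 +
      (nu N d (i + 1) * nud N d N2 d2 (i + 2) - nu N d (i + 2) * nud N d N2 d2 (i + 1)) =
    (![2 * (K.re * (d.re ^ 2 - d.im ^ 2) + 2 * K.im * d.re * d.im) -
        2 * ((N.re ^ 2 - N.im ^ 2) * K.re + 2 * N.re * N.im * K.im),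
      2 * (K.im * (d.re ^ 2 - d.im ^ 2) - 2 * K.re * d.re * d.im) -
        2 * (2 * N.re * N.im * K.re - (N.re ^ 2 - N.im ^ 2) * K.im),
      -4 * ((N.re * d.re - N.im * d.im) * K.re + (N.re * d.im + N.im * d.re) * K.im)] :
      Fin 3 → ℝ) i := by
  have hr : K.re = (N1.re - N2.im) * d.re - (N1.im + N2.re) * d.im -
      (N.re * (d1.re - d2.im) - N.im * (d1.im + d2.re)) := by
    rw [hK]; simp; ring
  have hi : K.im = (N1.re - N2.im) * d.im + (N1.im + N2.re) * d.re -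
      (N.re * (d1.im + d2.re) + N.im * (d1.re - d2.im)) := by
    rw [hK]; simp; ring
  fin_cases i
  · show (2 * (N1.re * d.re + N.re * d1.re + (N1.im * d.im + N.im * d1.im))) * de N d -
      (2 * (N.re * d.re + N.im * d.im)) * ded N d N1 d1 +
      ((2 * (N.im * d.re - N.re * d.im)) *
        (2 * d.re * d2.re + 2 * d.im * d2.im - 2 * N.re * N2.re - 2 * N.im * N2.im) -
      (d.re ^ 2 + d.im ^ 2 - N.re ^ 2 - N.im ^ 2) *
        (2 * (N2.im * d.re + N.im * d2.re - (N2.re * d.im + N.re * d2.im)))) =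
      2 * (K.re * (d.re ^ 2 - d.im ^ 2) + 2 * K.im * d.re * d.im) -
        2 * ((N.re ^ 2 - N.im ^ 2) * K.re + 2 * N.re * N.im * K.im)
    rw [hr, hi]; unfold de ded; ring
  · show (2 * (N1.im * d.re + N.im * d1.re - (N1.re * d.im + N.re * d1.im))) * de N d -
      (2 * (N.im * d.re - N.re * d.im)) * ded N d N1 d1 +
      ((d.re ^ 2 + d.im ^ 2 - N.re ^ 2 - N.im ^ 2) *
        (2 * (N2.re * d.re + N.re * d2.re + (N2.im * d.im + N.im * d2.im))) -
      (2 * (N.re * d.re + N.im * d.im)) *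
        (2 * d.re * d2.re + 2 * d.im * d2.im - 2 * N.re * N2.re - 2 * N.im * N2.im)) =
      2 * (K.im * (d.re ^ 2 - d.im ^ 2) - 2 * K.re * d.re * d.im) -
        2 * (2 * N.re * N.im * K.re - (N.re ^ 2 - N.im ^ 2) * K.im)
    rw [hr, hi]; unfold de ded; ring
  · show (2 * d.re * d1.re + 2 * d.im * d1.im - 2 * N.re * N1.re - 2 * N.im * N1.im) * de N d -
      (d.re ^ 2 + d.im ^ 2 - N.re ^ 2 - N.im ^ 2) * ded N d N1 d1 +
      ((2 * (N.re * d.re + N.im * d.im)) *
        (2 * (N2.im * d.re + N.im * d2.re - (N2.re * d.im + N.re * d2.im))) -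
      (2 * (N.im * d.re - N.re * d.im)) *
        (2 * (N2.re * d.re + N.re * d2.re + (N2.im * d.im + N.im * d2.im)))) =
      -4 * ((N.re * d.re - N.im * d.im) * K.re + (N.re * d.im + N.im * d.re) * K.im)
    rw [hr, hi]; unfold de ded; ring

/-- the square of `v_x + v × v_y` in homogeneous coordinates -/
theorem sp_qD (N d N1 N2 d1 d2 : ℂ) (h : N ≠ 0 ∨ d ≠ 0) :
    ∑ i : Fin 3, (spd N d N1 d1 i + (sp N d (i + 1) * spd N d N2 d2 (i + 2) -
      sp N d (i + 2) * spd N d N2 d2 (i + 1))) ^ 2 =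
    4 * Complex.normSq ((N1 + Complex.I * N2) * d - N * (d1 + Complex.I * d2)) / de N d ^ 2 := by
  have hp := de_pos h
  set K : ℂ := (N1 + Complex.I * N2) * d - N * (d1 + Complex.I * d2) with hK
  have h1 : ∀ i : Fin 3, spd N d N1 d1 i + (sp N d (i + 1) * spd N d N2 d2 (i + 2) -
      sp N d (i + 2) * spd N d N2 d2 (i + 1)) =
      (nud N d N1 d1 i * de N d - nu N d i * ded N d N1 d1 +
      (nu N d (i + 1) * nud N d N2 d2 (i + 2) - nu N d (i + 2) * nud N d N2 d2 (i + 1))) /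
        de N d ^ 2 := by
    intro i
    unfold spd sp
    field_simp
    ring
  simp only [h1, nu_ident N d N1 N2 d1 d2 K hK]
  rw [Fin.sum_univ_three]
  show ((2 * (K.re * (d.re ^ 2 - d.im ^ 2) + 2 * K.im * d.re * d.im) -
        2 * ((N.re ^ 2 - N.im ^ 2) * K.re + 2 * N.re * N.im * K.im)) / de N d ^ 2) ^ 2 +
      ((2 * (K.im * (d.re ^ 2 - d.im ^ 2) - 2 * K.re * d.re * d.im) -
        2 * (2 * N.re * N.im * K.re - (N.re ^ 2 - N.im ^ 2) * K.im)) / de N d ^ 2) ^ 2 +
      ((-4 * ((N.re * d.re - N.im * d.im) * K.re + (N.re * d.im + N.im * d.re) * K.im)) /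
        de N d ^ 2) ^ 2 = _
  rw [Complex.normSq_apply, div_pow, div_pow, div_pow, ← add_div, ← add_div,
    div_eq_div_iff (by positivity) (by positivity)]
  unfold de
  ring

end Pool.Agent.H617_HM
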