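import Pool.Agent.H617_HM.W1

/-!
# Gluing in a ball
-/

set_option autoImplicit false

open MeasureTheory Filter Topology Set
open scoped ContDiff

namespace Pool.Agent.H617_HM

open Pool.Agent.Helper985.VR

theorem glue_lipschitz {F : ℂ → ℝ} {b : ℂ} {r : ℝ} {C : NNReal}
    (hF : LipschitzOnWith C F (Metric.closedBall b r)) (h0 : ∀ z ∈ Metric.sphere b r, F z = 0) :
    LipschitzWith C ((Metric.ball b r).indicator F) := by
  have hin : ∀ z ∈ Metric.closedBall b r, (Metric.ball b r).indicator F z = F z := by
    intro z hz
    by_cases h : z ∈ Metric.ball b r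
    · rw [indicator_of_mem h]
    · rw [indicator_of_notMem h, h0 z]
      rw [Metric.mem_closedBall] at hz
      rw [Metric.mem_ball, not_lt] at h
      exact le_antisymm hz h
  have key : ∀ x y, x ∈ Metric.closedBall b r → y ∉ Metric.closedBall b r →
      dist ((Metric.ball b r).indicator F x) ((Metric.ball b r).indicator F y) ≤ C * dist x y := by
    intro x y hx hy
    rw [hin x hx, indicator_of_notMem fun h => hy (Metric.ball_subset_closedBall h)]
    have hcont : ContinuousOn (fun t : ℝ => dist (x + t • (y - x)) b) (Icc 0 1) := by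
      apply Continuous.continuousOn; fun_prop
    have hmem : r ∈ Icc (dist (x + (0:ℝ) • (y - x)) b) (dist (x + (1:ℝ) • (y - x)) b) := by
      rw [Metric.mem_closedBall] at hx
      rw [Metric.mem_closedBall, not_le] at hy
      rw [zero_smul, add_zero, one_smul, add_sub_cancel]
      exact ⟨hx, hy.le⟩
    obtain ⟨t, ht, hte⟩ := intermediate_value_Icc zero_le_one hcont hmem
    have hs : x + t • (y - x) ∈ Metric.sphere b r := hte
    have h1 := hF.dist_le_mul x hx _ (Metric.sphere_subset_closedBall hs)
    rw [h0 _ hs] at h1
    refine h1.trans ?_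
    gcongr
    rw [dist_self_add_right, norm_smul, Real.norm_eq_abs, abs_of_nonneg ht.1, dist_comm,
      dist_eq_norm]
    exact mul_le_of_le_one_left (norm_nonneg _) ht.2
  refine LipschitzWith.of_dist_le_mul fun x y => ?_
  by_cases hx : x ∈ Metric.closedBall b r
  · by_cases hy : y ∈ Metric.closedBall b r
    · rw [hin x hx, hin y hy]; exact hF.dist_le_mul x hx y hy
    · exact key x y hx hy
  · by_cases hy : y ∈ Metric.closedBall b r
    · rw [dist_comm, dist_comm x y]; exact key y x hy hx
    · rw [indicator_of_notMem fun h => hx (Metric.ball_subset_closedBall h),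
        indicator_of_notMem fun h => hy (Metric.ball_subset_closedBall h), dist_self]
      positivity

theorem glue_S1 {F : ℂ → ℝ} (hF : ContDiff ℝ ∞ F) {b : ℂ} {r : ℝ}
    (h0 : ∀ z ∈ Metric.sphere b r, F z = 0) :
    S1 ((Metric.ball b r).indicator F) ((Metric.ball b r).indicator fun z => fderiv ℝ F z 1)
      ((Metric.ball b r).indicator fun z => fderiv ℝ F z Complex.I) := by
  have hFc : Continuous (fderiv ℝ F) := hF.continuous_fderiv (by simp)
  obtain ⟨C, hC⟩ := (isCompact_closedBall b r).exists_bound_of_continuousOn hFc.continuousOn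
  have hlip : LipschitzOnWith (Real.toNNReal C) F (Metric.closedBall b r) := by
    refine (convex_closedBall b r).lipschitzOnWith_of_nnnorm_fderiv_le
      (fun z _ => (hF.differentiable (by simp)) z) fun z hz => ?_
    rw [← NNReal.coe_le_coe, coe_nnnorm]
    exact (hC z hz).trans (Real.le_coe_toNNReal C)
  have h1 := S1.of_lipschitz (glue_lipschitz hlip h0)
    (HasCompactSupport.intro (isCompact_closedBall b r) fun z hz =>
      indicator_of_notMem (fun h => hz (Metric.ball_subset_closedBall h)) F)
  have hb : MeasurableSet (Metric.ball b r) := Metric.isOpen_ball.measurableSet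
  have hsp : ∀ᵐ z : ℂ, z ∉ Metric.sphere b r := by
    have := Measure.addHaar_sphere (volume : Measure ℂ) b r
    exact compl_mem_ae_iff.2 this
  have hv : ∀ v : ℂ, (fun z => lineDeriv ℝ ((Metric.ball b r).indicator F) z v) =ᵐ[volume]
      (Metric.ball b r).indicator fun z => fderiv ℝ F z v := by
    intro v
    filter_upwards [hsp] with z hz
    by_cases hzb : z ∈ Metric.ball b r
    · rw [indicator_of_mem hzb]
      have h2 : (Metric.ball b r).indicator F =ᶠ[𝓝 z] F := by
        filter_upwards [Metric.isOpen_ball.mem_nhds hzb] with w hw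
        rw [indicator_of_mem hw]
      rw [h2.lineDeriv_eq]
      exact ((hF.differentiable (by simp)) z).lineDeriv_eq_fderiv
    · rw [indicator_of_notMem hzb]
      have hzc : z ∉ Metric.closedBall b r := by
        intro h
        rw [Metric.mem_closedBall] at h
        rw [Metric.mem_ball, not_lt] at hzb
        exact hz (le_antisymm h hzb)
      have h2 : (Metric.ball b r).indicator F =ᶠ[𝓝 z] fun _ => 0 := by
        filter_upwards [Metric.isClosed_closedBall.isOpen_compl.mem_nhds hzc] with w hw
        exact indicator_of_notMem (fun h => hw (Metric.ball_subset_closedBall h)) F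
      rw [h2.lineDeriv_eq]
      simp [lineDeriv]
  have hm : ∀ v : ℂ, Measurable ((Metric.ball b r).indicator fun z => fderiv ℝ F z v) := by
    intro v
    exact Measurable.indicator ((hFc.clm_apply continuous_const).measurable) hb
  exact h1.congr (Measurable.indicator hF.continuous.measurable hb) (hm 1) (hm Complex.I)
    (ae_eq_refl _) (hv 1) (hv Complex.I)

end Pool.Agent.H617_HM
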