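import Pool.Agent.H617_HM.W2

/-!
# The base map in the half disc
-/

set_option autoImplicit false

open MeasureTheory Filter Topology Set
open scoped ContDiff

namespace Pool.Agent.H617_HM

open Pool.Agent.Helper985.VR

/-- the open upper half plane -/
def Up : Set ℂ := {z | 0 < z.im}

theorem Up_open : IsOpen Up := isOpen_lt continuous_const Complex.continuous_im

theorem im_ne_zero_ae : ∀ᵐ z : ℂ, z.im ≠ 0 := by
  have h1 : (volume : Measure ℂ) (LinearMap.ker (Complex.imCLM : ℂ →ₗ[ℝ] ℝ) : Submodule ℝ ℂ) = 0 := by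
    refine Measure.addHaar_submodule _ _ fun h => ?_
    have h2 : Complex.I ∈ LinearMap.ker (Complex.imCLM : ℂ →ₗ[ℝ] ℝ) := by rw [h]; trivial
    rw [LinearMap.mem_ker] at h2
    simp at h2
  have h2 : ∀ᵐ z : ℂ, z ∉ (LinearMap.ker (Complex.imCLM : ℂ →ₗ[ℝ] ℝ) : Set ℂ) :=
    compl_mem_ae_iff.2 h1
  filter_upwards [h2] with z hz h
  apply hz
  rw [SetLike.mem_coe, LinearMap.mem_ker]
  exact h

/-- the projection to the closed upper half plane -/
noncomputable def upj (z : ℂ) : ℂ := ⟨z.re, max z.im 0⟩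

theorem upj_lip : LipschitzWith 1 upj := by
  refine LipschitzWith.of_dist_le_mul fun x y => ?_
  rw [NNReal.coe_one, one_mul, dist_eq_norm, dist_eq_norm]
  have h1 : ‖upj x - upj y‖ ^ 2 ≤ ‖x - y‖ ^ 2 := by
    rw [Complex.sq_norm, Complex.sq_norm, Complex.normSq_apply, Complex.normSq_apply]
    simp only [upj, Complex.sub_re, Complex.sub_im]
    have h2 : |max x.im 0 - max y.im 0| ≤ |x.im - y.im| := abs_max_sub_max_le_abs _ _ _
    have h3 := pow_le_pow_left₀ (abs_nonneg _) h2 2
    rw [sq_abs, sq_abs] at h3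
    nlinarith
  exact (sq_le_sq₀ (norm_nonneg _) (norm_nonneg _)).1 h1

theorem half_eq {F : ℂ → ℝ} (h0 : ∀ z : ℂ, z.im = 0 → F z = 0) (z : ℂ) :
    Up.indicator F z = F (upj z) := by
  by_cases hz : z ∈ Up
  · rw [indicator_of_mem hz]
    have h1 : upj z = z := by
      apply Complex.ext
      · rfl
      · exact max_eq_left (le_of_lt hz)
    rw [h1]
  · rw [indicator_of_notMem hz, h0]
    exact max_eq_right (not_lt.1 hz)

theorem half_cont {F : ℂ → ℝ} (hF : Continuous F) (h0 : ∀ z : ℂ, z.im = 0 → F z = 0) :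
    Continuous (Up.indicator F) := by
  have : Up.indicator F = F ∘ upj := by ext z; exact half_eq h0 z
  rw [this]
  exact hF.comp upj_lip.continuous

theorem half_S1 {F : ℂ → ℝ} (hF : ContDiff ℝ ∞ F) (hc : HasCompactSupport F)
    (h0 : ∀ z : ℂ, z.im = 0 → F z = 0) :
    S1 (Up.indicator F) (Up.indicator fun z => fderiv ℝ F z 1)
      (Up.indicator fun z => fderiv ℝ F z Complex.I) := by
  have hFc : Continuous (fderiv ℝ F) := hF.continuous_fderiv (by simp)
  obtain ⟨C, hC⟩ := hF.lipschitzWith_of_hasCompactSupport hc (by simp)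
  have hlip : LipschitzWith (C * 1) (Up.indicator F) := by
    have : Up.indicator F = F ∘ upj := by ext z; exact half_eq h0 z
    rw [this]
    exact hC.comp upj_lip
  have hcs : HasCompactSupport (Up.indicator F) := by
    refine HasCompactSupport.intro hc fun z hz => ?_
    have : F z = 0 := image_eq_zero_of_notMem_tsupport hz
    by_cases h : z ∈ Up
    · rw [indicator_of_mem h, this]
    · rw [indicator_of_notMem h]
  have h1 := S1.of_lipschitz hlip hcs
  have hb : MeasurableSet Up := Up_open.measurableSet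
  have hv : ∀ v : ℂ, (fun z => lineDeriv ℝ (Up.indicator F) z v) =ᵐ[volume]
      Up.indicator fun z => fderiv ℝ F z v := by
    intro v
    filter_upwards [im_ne_zero_ae] with z hz
    by_cases hzb : z ∈ Up
    · rw [indicator_of_mem hzb]
      have h2 : Up.indicator F =ᶠ[𝓝 z] F := by
        filter_upwards [Up_open.mem_nhds hzb] with w hw
        rw [indicator_of_mem hw]
      rw [h2.lineDeriv_eq]
      exact ((hF.differentiable (by simp)) z).lineDeriv_eq_fderiv
    · rw [indicator_of_notMem hzb]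
      have hlt : z.im < 0 := lt_of_le_of_ne (not_lt.1 hzb) hz
      have h2 : Up.indicator F =ᶠ[𝓝 z] fun _ => 0 := by
        filter_upwards [(isOpen_lt Complex.continuous_im continuous_const).mem_nhds hlt] with w hw
        refine indicator_of_notMem (fun h => ?_) F
        have h3 : w.im < 0 := hw
        exact absurd h (not_lt.2 h3.le)
      rw [h2.lineDeriv_eq]
      simp [lineDeriv]
  have hm : ∀ v : ℂ, Measurable (Up.indicator fun z => fderiv ℝ F z v) := by
    intro v
    exact Measurable.indicator ((hFc.clm_apply continuous_const).measurable) hb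
  exact h1.congr (Measurable.indicator hF.continuous.measurable hb) (hm 1) (hm Complex.I)
    (ae_eq_refl _) (hv 1) (hv Complex.I)

/-- the derivative computed along lines -/
theorem fderiv_of_line {F : ℂ → ℝ} {z : ℂ} (hF : DifferentiableAt ℝ F z) {v : ℂ} {c : ℝ}
    (h : HasDerivAt (fun t : ℝ => F (z + t • v)) c 0) : fderiv ℝ F z v = c := by
  have h1 : HasLineDerivAt ℝ F (fderiv ℝ F z v) z v := hF.hasFDerivAt.hasLineDerivAt v
  exact HasLineDerivAt.unique h1 h

/-- the polynomial `z ^ (2 l) + 1 - |z| ^ (2 l)` -/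
noncomputable def Wp (l : ℕ) (z : ℂ) : ℂ := z ^ (2 * l) + 1 - (z * (starRingEnd ℂ) z) ^ l

/-- its derivative in the direction `v` -/
noncomputable def Wd (l : ℕ) (z v : ℂ) : ℂ := (2 * l : ℕ) * z ^ (2 * l - 1) * v -
  l * (z * (starRingEnd ℂ) z) ^ (l - 1) * (v * (starRingEnd ℂ) z + z * (starRingEnd ℂ) v)

theorem line_deriv (z v : ℂ) : HasDerivAt (fun t : ℝ => z + t • v) v 0 := by
  have h1 : HasDerivAt (fun t : ℝ => t • v) ((1:ℝ) • v) 0 := (hasDerivAt_id (0:ℝ)).smul_const v
  rw [one_smul] at h1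
  exact h1.const_add z

theorem line_conj {f : ℝ → ℂ} {f' : ℂ} {t : ℝ} (h : HasDerivAt f f' t) :
    HasDerivAt (fun s => (starRingEnd ℂ) (f s)) ((starRingEnd ℂ) f') t := h.star

theorem Wp_line (l : ℕ) (z v : ℂ) : HasDerivAt (fun t : ℝ => Wp l (z + t • v)) (Wd l z v) 0 := by
  have h1 := line_deriv z v
  have h2 : HasDerivAt (fun t : ℝ => (starRingEnd ℂ) (z + t • v)) ((starRingEnd ℂ) v) 0 :=
    line_conj h1
  have h3 := ((h1.pow (2 * l)).add_const 1).sub ((h1.mul h2).pow l)
  refine h3.congr_deriv ?_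
  simp only [zero_smul, add_zero, Pi.mul_apply]
  unfold Wd; ring

theorem Wd_bar (l : ℕ) (z : ℂ) : Wd l z 1 + Complex.I * Wd l z Complex.I =
    -(2 * l * z * (z * (starRingEnd ℂ) z) ^ (l - 1)) := by
  unfold Wd
  have h := Complex.I_mul_I
  rw [map_one, Complex.conj_I]
  linear_combination ((2 * l : ℕ) * z ^ (2 * l - 1) -
    l * (z * (starRingEnd ℂ) z) ^ (l - 1) * ((starRingEnd ℂ) z - z)) * h

theorem Wp_real (l : ℕ) {z : ℂ} (hz : z.im = 0) : Wp l z = 1 := by
  have h1 : (starRingEnd ℂ) z = z := Complex.conj_eq_iff_im.2 hz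
  unfold Wp
  rw [h1, pow_mul]; ring

theorem Wp_circle (l : ℕ) {z : ℂ} (hz : ‖z‖ = 1) : Wp l z = z ^ (2 * l) := by
  unfold Wp
  rw [Complex.mul_conj, Complex.normSq_eq_norm_sq, hz]; simp

theorem Wp_contDiff (l : ℕ) : ContDiff ℝ ∞ (Wp l) := by
  have h1 : ContDiff ℝ ∞ fun z : ℂ => (starRingEnd ℂ) z := Complex.conjCLE.contDiff
  exact ((contDiff_id.pow _).add contDiff_const).sub ((contDiff_id.mul h1).pow _)

end Pool.Agent.H617_HM
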