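import Pool.Agent.H617_HM.W3

/-!
# The base map and the non-existence of solutions of the first order equation
-/

set_option autoImplicit false

open MeasureTheory Filter Topology Set
open scoped ContDiff Real

namespace Pool.Agent.H617_HM

open Pool.Agent.Helper985.VR

/-- the value on the real axis -/
def cc : Fin 3 → ℝ := ![1, 0, 0]

/-- a smooth cutoff function -/
noncomputable def bp : ContDiffBump (0:ℂ) := ⟨1, 2, one_pos, one_lt_two⟩

theorem bp_one {z : ℂ} (hz : ‖z‖ ≤ 1) : bp z = 1 :=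
  bp.one_of_mem_closedBall (by rw [mem_closedBall_zero_iff]; exact hz)

/-- the cut off map -/
noncomputable def G0 (l : ℕ) (i : Fin 3) (z : ℂ) : ℝ := bp z * (sp (Wp l z) 1 i - cc i)

/-- the cut off map in the upper half plane, and its derivatives -/
noncomputable def f0 (l : ℕ) (i : Fin 3) : ℂ → ℝ := Up.indicator (G0 l i)
noncomputable def f0x (l : ℕ) (i : Fin 3) : ℂ → ℝ := Up.indicator fun z => fderiv ℝ (G0 l i) z 1
noncomputable def f0y (l : ℕ) (i : Fin 3) : ℂ → ℝ :=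
  Up.indicator fun z => fderiv ℝ (G0 l i) z Complex.I

/-- the base map -/
noncomputable def bb (l : ℕ) (i : Fin 3) (z : ℂ) : ℝ := cc i + f0 l i z

/-- the open upper half disc -/
def Dp : Set ℂ := Metric.ball 0 1 ∩ Up

theorem Dp_open : IsOpen Dp := Metric.isOpen_ball.inter Up_open

theorem Dp_meas : MeasurableSet Dp := Dp_open.measurableSet

theorem G0_contDiff (l : ℕ) (i : Fin 3) : ContDiff ℝ ∞ (G0 l i) :=
  bp.contDiff.mul ((sp_contDiff (Wp_contDiff l) contDiff_const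
    (fun _ => Or.inr one_ne_zero) i).sub contDiff_const)

theorem G0_cc (l : ℕ) (i : Fin 3) : HasCompactSupport (G0 l i) :=
  bp.hasCompactSupport.mul_right

theorem sp_one (i : Fin 3) : sp 1 1 i = cc i := by
  fin_cases i
  · show (2 * ((1:ℂ).re * (1:ℂ).re + (1:ℂ).im * (1:ℂ).im)) / de 1 1 = 1
    unfold de; norm_num
  · show (2 * ((1:ℂ).im * (1:ℂ).re - (1:ℂ).re * (1:ℂ).im)) / de 1 1 = 0
    unfold de; norm_num
  · show ((1:ℂ).re ^ 2 + (1:ℂ).im ^ 2 - (1:ℂ).re ^ 2 - (1:ℂ).im ^ 2) / de 1 1 = 0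
    unfold de; norm_num

theorem G0_real (l : ℕ) (i : Fin 3) (z : ℂ) (hz : z.im = 0) : G0 l i z = 0 := by
  unfold G0; rw [Wp_real l hz, sp_one, sub_self, mul_zero]

theorem f0_S1 (l : ℕ) (i : Fin 3) : S1 (f0 l i) (f0x l i) (f0y l i) :=
  half_S1 (G0_contDiff l i) (G0_cc l i) (G0_real l i)

theorem f0_cont (l : ℕ) (i : Fin 3) : Continuous (f0 l i) :=
  half_cont (G0_contDiff l i).continuous (G0_real l i)

theorem bb_in (l : ℕ) (i : Fin 3) {z : ℂ} (hz : z ∈ Dp) : bb l i z = sp (Wp l z) 1 i := by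
  unfold bb f0 G0
  rw [indicator_of_mem hz.2, bp_one (by
    have := hz.1; rw [mem_ball_zero_iff] at this; exact this.le)]
  ring

theorem bb_off (l : ℕ) (i : Fin 3) {z : ℂ} (hz : z.im ≤ 0) : bb l i z = cc i := by
  unfold bb f0
  have h : z ∉ Up := not_lt.2 hz
  rw [indicator_of_notMem h, add_zero]

theorem cc_unit : cc 0 ^ 2 + cc 1 ^ 2 + cc 2 ^ 2 = 1 := by
  show (1:ℝ) ^ 2 + 0 ^ 2 + 0 ^ 2 = 1
  norm_num

theorem cc_abs (i : Fin 3) : |cc i| ≤ 1 := by
  fin_cases i
  · show |(1:ℝ)| ≤ 1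
    norm_num
  · show |(0:ℝ)| ≤ 1
    norm_num
  · show |(0:ℝ)| ≤ 1
    norm_num

theorem bb_bdd (l : ℕ) (i : Fin 3) (z : ℂ) : |bb l i z| ≤ 1 := by
  by_cases hz : z ∈ Up
  · unfold bb f0 G0
    rw [indicator_of_mem hz]
    have h1 : |sp (Wp l z) 1 i| ≤ 1 := sp_abs_le (Or.inr one_ne_zero) i
    have h2 := cc_abs i
    have h3 : 0 ≤ bp z := bp.nonneg
    have h4 : bp z ≤ 1 := bp.le_one
    have e : cc i + bp z * (sp (Wp l z) 1 i - cc i) =
        (1 - bp z) * cc i + bp z * sp (Wp l z) 1 i := by ring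
    rw [e]
    refine (abs_add_le _ _).trans ?_
    rw [abs_mul, abs_mul, abs_of_nonneg h3, abs_of_nonneg (by linarith : 0 ≤ 1 - bp z)]
    nlinarith
  · rw [bb_off l i (not_lt.1 hz)]; exact cc_abs i

theorem bb_adm (l : ℕ) : Adm Dp cc (bb l) (bb l) (f0x l) (f0y l) := by
  refine ⟨fun i => (f0_S1 l i).of_eq (fun z => ?_) (fun _ => rfl) (fun _ => rfl),
    fun i => Eventually.of_forall fun _ _ => rfl, ?_⟩
  · simp [bb]
  · filter_upwards with z hz
    rw [bb_in l 0 hz, bb_in l 1 hz, bb_in l 2 hz]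
    exact sp_unit (Or.inr one_ne_zero)

/-- the derivative of the base map -/
theorem G0_deriv (l : ℕ) (i : Fin 3) {z : ℂ} (hz : z ∈ Metric.ball (0:ℂ) 1) (v : ℂ) :
    fderiv ℝ (G0 l i) z v = spd (Wp l z) 1 (Wd l z v) 0 i := by
  have h1 : G0 l i =ᶠ[𝓝 z] fun w => sp (Wp l w) 1 i - cc i := by
    filter_upwards [Metric.isOpen_ball.mem_nhds hz] with w hw
    unfold G0
    rw [bp_one (by rw [mem_ball_zero_iff] at hw; exact hw.le), one_mul]
  rw [h1.fderiv_eq]
  have hs : ContDiff ℝ ∞ fun w => sp (Wp l w) 1 i - cc i :=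
    (sp_contDiff (Wp_contDiff l) contDiff_const (fun _ => Or.inr one_ne_zero) i).sub contDiff_const
  refine fderiv_of_line ((hs.differentiable (by simp)) z) ?_
  have h2 := sp_hasDerivAt (Wp_line l z v) (hasDerivAt_const (0:ℝ) (1:ℂ))
    (Or.inr one_ne_zero) i
  have h3 := h2.sub_const (cc i)
  simpa using h3

/-- Green's formula with a test function -/
theorem green_test {Φ Φx Φy : ℂ → ℝ} (h : S1 Φ Φx Φy) (hc : Continuous Φ) {ψ : ℂ → ℝ}
    (hψ : ContDiff ℝ ∞ ψ) (hψc : HasCompactSupport ψ) :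
    (∫ z in Metric.ball (0:ℂ) 1, (ψ z * Φx z + fderiv ℝ ψ z 1 * Φ z) =
      ∫ θ in (-π)..π, ψ (ce θ) * Φ (ce θ) * Real.cos θ) ∧
    (∫ z in Metric.ball (0:ℂ) 1, (ψ z * Φy z + fderiv ℝ ψ z Complex.I * Φ z) =
      ∫ θ in (-π)..π, ψ (ce θ) * Φ (ce θ) * Real.sin θ) := by
  have h1 := h.mul_cc hψ hψc
  have h2 := green_dir h1.lx h1.dx (hψ.continuous.mul hc)
  have h3 := green_dir h1.ly h1.dy (hψ.continuous.mul hc)
  simp only [Complex.one_re, Complex.one_im, Complex.I_re, Complex.I_im, mul_one, mul_zero,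
    add_zero, zero_add] at h2 h3
  exact ⟨h2, h3⟩

/-- the coordinate functions near the closed disc -/
theorem ce_mem (θ : ℝ) : ce θ ∈ Metric.closedBall (0:ℂ) 1 := by
  rw [mem_closedBall_zero_iff, ce_norm]

theorem f0_circle (l : ℕ) {θ : ℝ} (h0 : 0 < Real.sin θ) :
    f0 l 0 (ce θ) = Real.cos (2 * l * θ) - 1 ∧ f0 l 1 (ce θ) = Real.sin (2 * l * θ) ∧
      f0 l 2 (ce θ) = 0 := by
  have hu : ce θ ∈ Up := by
    show 0 < (ce θ).im
    rw [ce_im]; exact h0
  have hW : Wp l (ce θ) = ce (2 * l * θ) := by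
    rw [Wp_circle l (ce_norm θ)]
    unfold ce
    rw [Complex.ofReal_cos, Complex.ofReal_sin, Complex.cos_add_sin_mul_I_pow, Complex.ofReal_cos,
      Complex.ofReal_sin]
    push_cast
    rfl
  have hde : de (ce (2 * l * θ)) 1 = 2 := by
    unfold de
    rw [ce_re, ce_im]
    have := Real.sin_sq_add_cos_sq (2 * l * θ)
    simp only [Complex.one_re, Complex.one_im]
    linarith
  unfold f0
  rw [indicator_of_mem hu, indicator_of_mem hu, indicator_of_mem hu]
  unfold G0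
  rw [bp_one (ce_norm θ).le, hW]
  refine ⟨?_, ?_, ?_⟩
  · show 1 * ((2 * ((ce (2 * l * θ)).re * (1:ℂ).re + (ce (2 * l * θ)).im * (1:ℂ).im)) /
      de (ce (2 * l * θ)) 1 - 1) = _
    rw [hde, ce_re, ce_im]; simp
  · show 1 * ((2 * ((ce (2 * l * θ)).im * (1:ℂ).re - (ce (2 * l * θ)).re * (1:ℂ).im)) /
      de (ce (2 * l * θ)) 1 - 0) = _
    rw [hde, ce_re, ce_im]; simp
  · show 1 * (((1:ℂ).re ^ 2 + (1:ℂ).im ^ 2 - (ce (2 * l * θ)).re ^ 2 - (ce (2 * l * θ)).im ^ 2) /
      de (ce (2 * l * θ)) 1 - 0) = _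
    rw [hde, ce_re, ce_im]
    have := Real.sin_sq_add_cos_sq (2 * l * θ)
    simp only [Complex.one_re, Complex.one_im]
    linarith

theorem f0_circle' (l : ℕ) {θ : ℝ} (h0 : Real.sin θ ≤ 0) (i : Fin 3) : f0 l i (ce θ) = 0 := by
  unfold f0
  refine indicator_of_notMem (fun h => ?_) _
  have h1 : 0 < (ce θ).im := h
  rw [ce_im] at h1
  linarith

/-- the mean value of the first component -/
theorem f0_mean {l : ℕ} (hl : 0 < l) : ∫ θ in (-π)..π, f0 l 0 (ce θ) = -π := by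
  have hπ := Real.pi_pos
  have hc : Continuous fun θ => f0 l 0 (ce θ) := (f0_cont l 0).comp ce_continuous
  rw [← intervalIntegral.integral_add_adjacent_intervals (b := 0) (hc.intervalIntegrable _ _)
    (hc.intervalIntegrable _ _)]
  have h1 : ∫ θ in (-π)..0, f0 l 0 (ce θ) = ∫ θ in (-π)..0, (0:ℝ) := by
    refine intervalIntegral.integral_congr fun θ hθ => ?_
    rw [uIcc_of_le (by linarith)] at hθ
    exact f0_circle' l (Real.sin_nonpos_of_nonpos_of_neg_pi_le hθ.2 hθ.1) 0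
  have h2 : ∫ θ in (0:ℝ)..π, f0 l 0 (ce θ) = ∫ θ in (0:ℝ)..π, (Real.cos (2 * l * θ) - 1) := by
    refine intervalIntegral.integral_congr fun θ hθ => ?_
    rw [uIcc_of_le hπ.le] at hθ
    rcases eq_or_lt_of_le hθ.1 with h | h
    · subst h
      have : f0 l 0 (ce 0) = 0 := f0_circle' l (by simp) 0
      show f0 l 0 (ce 0) = _
      rw [this]; simp
    · rcases eq_or_lt_of_le hθ.2 with h' | h'
      · subst h'
        have : f0 l 0 (ce π) = 0 := f0_circle' l (by simp) 0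
        show f0 l 0 (ce π) = _
        rw [this]
        have h3 : Real.cos (2 * l * π) = 1 := by
          have := Real.cos_nat_mul_two_pi l
          rw [← this]; congr 1; ring
        rw [h3]; ring
      · exact (f0_circle l (Real.sin_pos_of_pos_of_lt_pi h h')).1
  rw [h1, h2]
  have hl' : (2 * l : ℝ) ≠ 0 := by positivity
  have h3 : ∫ θ in (0:ℝ)..π, Real.cos (2 * l * θ) = 0 := by
    rw [intervalIntegral.integral_comp_mul_left (fun x => Real.cos x) hl', integral_cos]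
    have : Real.sin (2 * l * π) = 0 := by
      have := Real.sin_nat_mul_pi (2 * l)
      push_cast at this
      exact this
    simp [this]
  have i1 : IntervalIntegrable (fun θ : ℝ => Real.cos (2 * l * θ)) volume 0 π :=
    (Real.continuous_cos.comp (by fun_prop)).intervalIntegrable _ _
  rw [intervalIntegral.integral_sub i1 (continuous_const.intervalIntegrable _ _), h3]
  simp

end Pool.Agent.H617_HM
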