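import Pool.Agent.H617_HM.W4

/-!
# No admissible map solves the first order equation
-/

set_option autoImplicit false

open MeasureTheory Filter Topology Set
open scoped ContDiff Real

namespace Pool.Agent.H617_HM

open Pool.Agent.Helper985.VR

/-- an `S1` function vanishing outside the disc has vanishing boundary terms -/
theorem off_test {T Tx Ty : ℂ → ℝ} (h : S1 T Tx Ty)
    (h0 : ∀ᵐ z, z ∉ Metric.ball (0:ℂ) 1 → T z = 0) {ψ : ℂ → ℝ}
    (hψ : ContDiff ℝ ∞ ψ) (hψc : HasCompactSupport ψ) :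
    (∫ z in Metric.ball (0:ℂ) 1, (ψ z * Tx z + fderiv ℝ ψ z 1 * T z) = 0) ∧
    (∫ z in Metric.ball (0:ℂ) 1, (ψ z * Ty z + fderiv ℝ ψ z Complex.I * T z) = 0) := by
  have hz := h.zero_set
  have s := S1.of_smooth hψ hψc
  constructor
  · have h1 := h.dx ψ hψ hψc
    have i1 : Integrable fun z => ψ z * Tx z := s.l.mul h.lx
    have i2 : Integrable fun z => fderiv ℝ ψ z 1 * T z := s.lx.mul h.l
    have h2 : ∫ z, (ψ z * Tx z + fderiv ℝ ψ z 1 * T z) = 0 := by
      rw [integral_add i1 i2]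
      have e1 : ∫ z, ψ z * Tx z = ∫ z, Tx z * ψ z := by congr 1; ext z; ring
      have e2 : ∫ z, fderiv ℝ ψ z 1 * T z = ∫ z, T z * fderiv ℝ ψ z 1 := by
        congr 1; ext z; ring
      rw [e1, e2, h1]; ring
    rw [← h2]
    refine setIntegral_eq_integral_of_ae_compl_eq_zero ?_
    filter_upwards [h0, hz] with z k1 k2 hzb
    rw [(k2 (k1 hzb)).1, k1 hzb]; ring
  · have h1 := h.dy ψ hψ hψc
    have i1 : Integrable fun z => ψ z * Ty z := s.l.mul h.ly
    have i2 : Integrable fun z => fderiv ℝ ψ z Complex.I * T z := s.ly.mul h.l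
    have h2 : ∫ z, (ψ z * Ty z + fderiv ℝ ψ z Complex.I * T z) = 0 := by
      rw [integral_add i1 i2]
      have e1 : ∫ z, ψ z * Ty z = ∫ z, Ty z * ψ z := by congr 1; ext z; ring
      have e2 : ∫ z, fderiv ℝ ψ z Complex.I * T z = ∫ z, T z * fderiv ℝ ψ z Complex.I := by
        congr 1; ext z; ring
      rw [e1, e2, h1]; ring
    rw [← h2]
    refine setIntegral_eq_integral_of_ae_compl_eq_zero ?_
    filter_upwards [h0, hz] with z k1 k2 hzb
    rw [(k2 (k1 hzb)).2, k1 hzb]; ring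

theorem no_zero {l : ℕ} (hl : 0 < l) {u ux uy : Fin 3 → ℂ → ℝ}
    (h : Adm Dp cc (bb l) u ux uy) (hq : QN Dp u ux uy = 0) : False := by
  have hcc0 : cc 0 = 1 := rfl
  have hcc1 : cc 1 = 0 := rfl
  have hcc2 : cc 2 = 0 := rfl
  -- the map is constant in the lower half disc
  have hlow : ∀ᵐ z : ℂ, z.im ≤ 0 → ∀ i, u i z = cc i ∧ ux i z = 0 ∧ uy i z = 0 := by
    have h1 : ∀ i, ∀ᵐ z : ℂ, z.im ≤ 0 → u i z = cc i ∧ ux i z = 0 ∧ uy i z = 0 := by
      intro i
      filter_upwards [h.bc i, (h.s1 i).zero_set] with z k1 k2 hz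
      have k3 : u i z = cc i := by
        rw [k1 fun hD => absurd hD.2 (not_lt.2 hz), bb_off l i hz]
      exact ⟨k3, k2 (by rw [k3, sub_self])⟩
    filter_upwards [h1 0, h1 1, h1 2] with z k0 k1 k2 hz i
    fin_cases i
    · exact k0 hz
    · exact k1 hz
    · exact k2 hz
  have hB : Adm (Metric.ball (0:ℂ) 1) cc (bb l) u ux uy := by
    refine ⟨h.s1, fun i => ?_, ?_⟩
    · filter_upwards [h.bc i] with z k1 hz
      exact k1 fun hD => hz hD.1
    · filter_upwards [h.unit, hlow] with z k1 k2 hz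
      by_cases hu : z ∈ Up
      · exact k1 ⟨hz, hu⟩
      · have k3 := k2 (not_lt.1 hu)
        rw [(k3 0).1, (k3 1).1, (k3 2).1]; exact cc_unit
  have hQ : ∀ᵐ z, z ∈ Metric.ball (0:ℂ) 1 → ∀ i, Qv u ux uy i z = 0 := by
    have h1 : ∀ᵐ z, z ∈ Dp → qD u ux uy z = 0 := by
      have h2 := (setIntegral_eq_zero_iff_of_nonneg_ae
        (Eventually.of_forall fun z => qD_nonneg u ux uy z) (h.qD_int Dp_meas)).1 hq
      exact (ae_restrict_iff' Dp_meas).1 h2
    filter_upwards [h1, hlow] with z k1 k2 hz i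
    by_cases hu : z ∈ Up
    · have k3 := k1 ⟨hz, hu⟩
      unfold qD at k3
      rw [Finset.sum_eq_zero_iff_of_nonneg (fun i _ => sq_nonneg _)] at k3
      have k4 := k3 i (Finset.mem_univ i)
      exact pow_eq_zero_iff (two_ne_zero) |>.1 k4
    · have k3 := k2 (not_lt.1 hu)
      unfold Qv
      rw [(k3 i).2.1, (k3 (i+2)).2.2, (k3 (i+1)).2.2]; ring
  have hbb : ∀ i, ∀ᵐ z, |bb l i z| ≤ 1 := fun i => Eventually.of_forall (bb_bdd l i)
  -- the maximum principle
  have hm : Measurable fun z => cl (u 0 z - 1) :=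
    measurable_const.max (measurable_const.min ((h.meas 0).sub_const 1))
  have hmp := min_principle (Z := {z | cl (u 0 z - 1) = 0}) (hm (measurableSet_singleton 0))
    (fun η h1 h2 h3 h4 => sol_lim hB hbb cc_unit hcc0 hcc1 hcc2 hQ h1 h2 h3 fun z hz => by
      rw [mem_ball_zero_iff, not_lt] at hz
      exact h4 z hz) (by
    filter_upwards [hlow] with z k1 hz
    have hz2 : z.im ≤ 0 := by
      rw [mem_ball_iff_norm] at hz
      have h2 := (Complex.abs_im_le_norm (z - -(Complex.I / 2))).trans hz.le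
      have h3 : (z - -(Complex.I / 2)).im = z.im + 1 / 2 := by simp
      rw [h3] at h2
      have := (abs_le.1 h2).2
      linarith
    show cl (u 0 z - 1) = 0
    rw [(k1 hz2 0).1, hcc0, sub_self]
    unfold cl; norm_num)
  have hone : ∀ᵐ z, z ∈ Metric.ball (0:ℂ) 1 → u 0 z - cc 0 = 0 := by
    filter_upwards [hmp, hB.bdd hbb 0] with z k1 k2 hz
    have k3 : cl (u 0 z - 1) = 0 := k1 hz
    rw [cl_eq (by simpa using k2)] at k3
    rw [hcc0]; exact k3
  -- the trace
  have hT := (h.s1 0).sub (f0_S1 l 0)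
  have hT0 : ∀ᵐ z, z ∉ Metric.ball (0:ℂ) 1 → u 0 z - cc 0 - f0 l 0 z = 0 := by
    filter_upwards [hB.bc 0] with z k1 hz
    rw [k1 hz]; unfold bb; ring
  have hT1 : ∀ᵐ z, z ∈ Metric.ball (0:ℂ) 1 → ux 0 z = 0 ∧ uy 0 z = 0 := by
    filter_upwards [hone, (h.s1 0).zero_set] with z k1 k2 hz
    exact k2 (k1 hz)
  have key : ∀ ψ : ℂ → ℝ, ContDiff ℝ ∞ ψ → HasCompactSupport ψ →
      (∫ θ in (-π)..π, ψ (ce θ) * f0 l 0 (ce θ) * Real.cos θ) = 0 ∧
      (∫ θ in (-π)..π, ψ (ce θ) * f0 l 0 (ce θ) * Real.sin θ) = 0 := by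
    intro ψ hψ hψc
    obtain ⟨g1, g2⟩ := green_test (f0_S1 l 0) (f0_cont l 0) hψ hψc
    obtain ⟨o1, o2⟩ := off_test hT hT0 hψ hψc
    rw [← g1, ← g2]
    constructor
    · rw [← neg_eq_zero, ← integral_neg, ← o1]
      refine setIntegral_congr_ae Metric.isOpen_ball.measurableSet ?_
      filter_upwards [hone, hT1] with z k1 k2 hz
      rw [k1 hz, (k2 hz).1]; ring
    · rw [← neg_eq_zero, ← integral_neg, ← o2]
      refine setIntegral_congr_ae Metric.isOpen_ball.measurableSet ?_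
      filter_upwards [hone, hT1] with z k1 k2 hz
      rw [k1 hz, (k2 hz).2]; ring
  have hre : ContDiff ℝ ∞ fun z : ℂ => bp z * z.re := bp.contDiff.mul Complex.reCLM.contDiff
  have him : ContDiff ℝ ∞ fun z : ℂ => bp z * z.im := bp.contDiff.mul Complex.imCLM.contDiff
  have k1 := (key _ hre bp.hasCompactSupport.mul_right).1
  have k2 := (key _ him bp.hasCompactSupport.mul_right).2
  simp only [ce_re, ce_im, bp_one (ce_norm _).le, one_mul] at k1 k2
  have hc : Continuous fun θ => f0 l 0 (ce θ) := (f0_cont l 0).comp ce_continuous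
  have i1 : IntervalIntegrable (fun θ => Real.cos θ * f0 l 0 (ce θ) * Real.cos θ) volume (-π) π :=
    ((Real.continuous_cos.mul hc).mul Real.continuous_cos).intervalIntegrable _ _
  have i2 : IntervalIntegrable (fun θ => Real.sin θ * f0 l 0 (ce θ) * Real.sin θ) volume (-π) π :=
    ((Real.continuous_sin.mul hc).mul Real.continuous_sin).intervalIntegrable _ _
  have k3 := intervalIntegral.integral_add i1 i2
  rw [k1, k2, add_zero] at k3
  have k4 : ∫ θ in (-π)..π, (Real.cos θ * f0 l 0 (ce θ) * Real.cos θ +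
      Real.sin θ * f0 l 0 (ce θ) * Real.sin θ) = ∫ θ in (-π)..π, f0 l 0 (ce θ) := by
    congr 1; ext θ
    have := Real.sin_sq_add_cos_sq θ
    linear_combination (f0 l 0 (ce θ)) * this
  rw [k4, f0_mean hl] at k3
  have := Real.pi_pos
  linarith

end Pool.Agent.H617_HM
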