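import Pool.Agent.H617_HM.W5

/-!
# Inserting a small orientation preserving bubble
-/

set_option autoImplicit false

open MeasureTheory Filter Topology Set
open scoped ContDiff Real

namespace Pool.Agent.H617_HM

open Pool.Agent.Helper985.VR

/-- twice the antiholomorphic derivative of `Wp l` -/
noncomputable def pb (l : ℕ) (z : ℂ) : ℂ := -(2 * l * z * (z * (starRingEnd ℂ) z) ^ (l - 1))

theorem pb_cont (l : ℕ) : Continuous (pb l) := by
  have h1 : Continuous fun z : ℂ => (starRingEnd ℂ) z := Complex.continuous_conj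
  unfold pb
  exact ((continuous_const.mul continuous_id).mul ((continuous_id.mul h1).pow _)).neg

theorem pb_ne {l : ℕ} (hl : 0 < l) {z : ℂ} (hz : z ≠ 0) : pb l z ≠ 0 := by
  unfold pb
  have h1 : (l:ℂ) ≠ 0 := by exact_mod_cast hl.ne'
  have h2 : (starRingEnd ℂ) z ≠ 0 := by simpa using hz
  exact neg_ne_zero.2 (mul_ne_zero (mul_ne_zero (mul_ne_zero two_ne_zero h1) hz)
    (pow_ne_zero _ (mul_ne_zero hz h2)))

/-- numerator of the modified map -/
noncomputable def Nj (l : ℕ) (b : ℂ) (r : ℝ) (z : ℂ) : ℂ :=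
  (Wp l z - pb l b / 2 * (starRingEnd ℂ) (z - b)) * (z - b) + pb l b / 2 * (r:ℂ) ^ 2

/-- its derivative -/
noncomputable def Njd (l : ℕ) (b : ℂ) (z v : ℂ) : ℂ :=
  (Wd l z v - pb l b / 2 * (starRingEnd ℂ) v) * (z - b) +
    (Wp l z - pb l b / 2 * (starRingEnd ℂ) (z - b)) * v

theorem Nj_contDiff (l : ℕ) (b : ℂ) (r : ℝ) : ContDiff ℝ ∞ (Nj l b r) := by
  have h1 : ContDiff ℝ ∞ fun z : ℂ => (starRingEnd ℂ) z := Complex.conjCLE.contDiff
  have h2 : ContDiff ℝ ∞ fun z : ℂ => z - b := contDiff_id.sub contDiff_const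
  exact (((Wp_contDiff l).sub (contDiff_const.mul (h1.comp h2))).mul h2).add contDiff_const

theorem Nj_line (l : ℕ) (b : ℂ) (r : ℝ) (z v : ℂ) :
    HasDerivAt (fun t : ℝ => Nj l b r (z + t • v)) (Njd l b z v) 0 := by
  have h1 := Wp_line l z v
  have h2 : HasDerivAt (fun t : ℝ => z + t • v - b) v 0 := (line_deriv z v).sub_const b
  have h3 := line_conj h2
  have h4 := ((h1.sub (h3.const_mul (pb l b / 2))).mul h2).add_const (pb l b / 2 * (r:ℂ) ^ 2)
  refine h4.congr_deriv ?_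
  simp only [Pi.sub_apply, zero_smul, add_zero]
  rfl

theorem Nj_ne {l : ℕ} (hl : 0 < l) {b : ℂ} (hb : b ≠ 0) {r : ℝ} (hr : 0 < r) (z : ℂ) :
    Nj l b r z ≠ 0 ∨ z - b ≠ 0 := by
  by_cases h : z - b = 0
  · left
    unfold Nj
    rw [h, mul_zero, zero_add]
    exact mul_ne_zero (div_ne_zero (pb_ne hl hb) two_ne_zero)
      (pow_ne_zero _ (by exact_mod_cast hr.ne'))
  · exact Or.inr h

/-- the modification -/
noncomputable def Fj (l : ℕ) (b : ℂ) (r : ℝ) (i : Fin 3) (z : ℂ) : ℝ :=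
  sp (Nj l b r z) (z - b) i - sp (Wp l z) 1 i

theorem Fj_contDiff {l : ℕ} (hl : 0 < l) {b : ℂ} (hb : b ≠ 0) {r : ℝ} (hr : 0 < r) (i : Fin 3) :
    ContDiff ℝ ∞ (Fj l b r i) :=
  (sp_contDiff (Nj_contDiff l b r) (contDiff_id.sub contDiff_const) (Nj_ne hl hb hr) i).sub
    (sp_contDiff (Wp_contDiff l) contDiff_const (fun _ => Or.inr one_ne_zero) i)

theorem Fj_sphere (l : ℕ) (b : ℂ) {r : ℝ} (hr : 0 < r) (i : Fin 3) (z : ℂ)
    (hz : z ∈ Metric.sphere b r) : Fj l b r i z = 0 := by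
  rw [mem_sphere_iff_norm] at hz
  have h1 : z - b ≠ 0 := by rw [← norm_pos_iff, hz]; exact hr
  have h2 : (starRingEnd ℂ) (z - b) * (z - b) = (r:ℂ) ^ 2 := by
    rw [mul_comm, Complex.mul_conj, Complex.normSq_eq_norm_sq, hz]; push_cast; ring
  have h3 : Nj l b r z = Wp l z * (z - b) := by
    unfold Nj
    linear_combination (- (pb l b / 2)) * h2
  unfold Fj
  rw [h3]
  have h4 := sp_scale (Wp l z) 1 (z - b) h1 i
  rw [one_mul] at h4
  rw [h4, sub_self]

theorem Fj_deriv {l : ℕ} (hl : 0 < l) {b : ℂ} (hb : b ≠ 0) {r : ℝ} (hr : 0 < r) (i : Fin 3)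
    (z v : ℂ) : fderiv ℝ (Fj l b r i) z v =
      spd (Nj l b r z) (z - b) (Njd l b z v) v i - spd (Wp l z) 1 (Wd l z v) 0 i := by
  refine fderiv_of_line (((Fj_contDiff hl hb hr i).differentiable (by simp)) z) ?_
  have h1 : HasDerivAt (fun t : ℝ => z + t • v - b) v 0 := (line_deriv z v).sub_const b
  have hz : z + (0:ℝ) • v = z := by simp
  have h2 := sp_hasDerivAt (Nj_line l b r z v) h1 (by
    rw [hz]; exact Nj_ne hl hb hr z) i
  have h3 := sp_hasDerivAt (Wp_line l z v) (hasDerivAt_const (0:ℝ) (1:ℂ))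
    (Or.inr one_ne_zero) i
  have h4 := h2.sub h3
  rw [hz] at h4
  exact h4

theorem Njd_bar (l : ℕ) (b z : ℂ) :
    Njd l b z 1 + Complex.I * Njd l b z Complex.I = (pb l z - pb l b) * (z - b) := by
  have h1 := Wd_bar l z
  have h := Complex.I_mul_I
  unfold Njd pb at *
  rw [map_one, Complex.conj_I]
  generalize Wd l z 1 = A at *
  generalize Wd l z Complex.I = B at *
  linear_combination (z - b) * h1 + ((Wp l z - -(2 * l * b * (b * (starRingEnd ℂ) b) ^ (l - 1)) / 2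
    * (starRingEnd ℂ) (z - b)) + -(2 * l * b * (b * (starRingEnd ℂ) b) ^ (l - 1)) / 2 * (z - b)) * h

/-- the density of the modified map -/
theorem bubble_qD {l : ℕ} (hl : 0 < l) {b : ℂ} (hb : b ≠ 0) {r : ℝ} (hr : 0 < r)
    {z : ℂ} {ε : ℝ} (hε : ‖pb l z - pb l b‖ ≤ ε) {u ux uy : Fin 3 → ℂ → ℝ}
    (h1 : ∀ i, u i z = sp (Nj l b r z) (z - b) i)
    (h2 : ∀ i, ux i z = spd (Nj l b r z) (z - b) (Njd l b z 1) 1 i)
    (h3 : ∀ i, uy i z = spd (Nj l b r z) (z - b) (Njd l b z Complex.I) Complex.I i) :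
    qD u ux uy z ≤ 4 * ε ^ 2 := by
  unfold qD Qv
  simp only [h1, h2, h3]
  rw [sp_qD _ _ _ _ _ _ (Nj_ne hl hb hr z)]
  have hp := de_pos (Nj_ne hl hb hr z)
  have h4 : (Njd l b z 1 + Complex.I * Njd l b z Complex.I) * (z - b) -
      Nj l b r z * (1 + Complex.I * Complex.I) = (pb l z - pb l b) * (z - b) * (z - b) := by
    rw [Njd_bar, Complex.I_mul_I]; ring
  rw [h4, Complex.normSq_mul, Complex.normSq_mul, Complex.normSq_eq_norm_sq (pb l z - pb l b)]
  have h5 : Complex.normSq (z - b) ≤ de (Nj l b r z) (z - b) := by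
    rw [Complex.normSq_apply]; unfold de
    nlinarith [sq_nonneg (Nj l b r z).re, sq_nonneg (Nj l b r z).im]
  have h6 := Complex.normSq_nonneg (z - b)
  rw [div_le_iff₀ (by positivity)]
  have h7 : ‖pb l z - pb l b‖ ^ 2 ≤ ε ^ 2 := by gcongr
  have h8 : Complex.normSq (z - b) * Complex.normSq (z - b) ≤ de (Nj l b r z) (z - b) ^ 2 := by
    nlinarith
  calc 4 * (‖pb l z - pb l b‖ ^ 2 * Complex.normSq (z - b) * Complex.normSq (z - b))
      = 4 * ‖pb l z - pb l b‖ ^ 2 * (Complex.normSq (z - b) * Complex.normSq (z - b)) := by ring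
    _ ≤ 4 * ε ^ 2 * de (Nj l b r z) (z - b) ^ 2 := by gcongr

theorem f0_deriv (l : ℕ) (i : Fin 3) {z : ℂ} (hz : z ∈ Dp) :
    f0x l i z = spd (Wp l z) 1 (Wd l z 1) 0 i ∧
      f0y l i z = spd (Wp l z) 1 (Wd l z Complex.I) 0 i := by
  unfold f0x f0y
  rw [indicator_of_mem hz.2, indicator_of_mem hz.2, G0_deriv l i hz.1, G0_deriv l i hz.1]
  exact ⟨rfl, rfl⟩

/-- the density of the base map -/
theorem base_qD (l : ℕ) {z : ℂ} (hz : z ∈ Dp) {u ux uy : Fin 3 → ℂ → ℝ}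
    (h1 : ∀ i, u i z = bb l i z) (h2 : ∀ i, ux i z = f0x l i z) (h3 : ∀ i, uy i z = f0y l i z) :
    qD u ux uy z ≤ 4 * ‖pb l z‖ ^ 2 := by
  unfold qD Qv
  simp only [h1, h2, h3, bb_in l _ hz, (f0_deriv l _ hz).1, (f0_deriv l _ hz).2]
  rw [sp_qD _ _ _ _ _ _ (Or.inr one_ne_zero)]
  have hp : 0 < de (Wp l z) 1 := de_pos (Or.inr one_ne_zero)
  have h4 : (Wd l z 1 + Complex.I * Wd l z Complex.I) * 1 - Wp l z * (0 + Complex.I * 0) =
      pb l z := by rw [Wd_bar]; unfold pb; ring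
  rw [h4, Complex.normSq_eq_norm_sq, div_le_iff₀ (by positivity)]
  have h5 : 1 ≤ de (Wp l z) 1 := by
    unfold de
    simp only [Complex.one_re, Complex.one_im]
    nlinarith [sq_nonneg (Wp l z).re, sq_nonneg (Wp l z).im]
  have h6 : 1 ≤ de (Wp l z) 1 ^ 2 := by nlinarith
  nlinarith [sq_nonneg ‖pb l z‖]

/-- inserting one bubble -/
theorem insert_bubble {l : ℕ} (hl : 0 < l) {b : ℂ} {r : ℝ} (hr : 0 < r) (hb : b ∈ Dp)
    (hsub : Metric.ball b r ⊆ Dp) {u ux uy : Fin 3 → ℂ → ℝ} (h : Adm Dp cc (bb l) u ux uy)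
    (hu : ∀ᵐ z, z ∈ Metric.ball b r → ∀ i, u i z = bb l i z ∧ ux i z = f0x l i z ∧
      uy i z = f0y l i z) {ε : ℝ} (hε : ∀ z ∈ Metric.ball b r, ‖pb l z - pb l b‖ ≤ ε) :
    ∃ v vx vy : Fin 3 → ℂ → ℝ, Adm Dp cc (bb l) v vx vy ∧
      (∀ᵐ z, z ∉ Metric.ball b r → ∀ i, v i z = u i z ∧ vx i z = ux i z ∧ vy i z = uy i z) ∧
      (∀ᵐ z, z ∈ Metric.ball b r → qD v vx vy z ≤ 4 * ε ^ 2) := by
  have hb0 : b ≠ 0 := by
    rintro rfl
    have : (0:ℝ) < (0:ℂ).im := hb.2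
    simp at this
  have hv : ∀ᵐ z, z ∈ Metric.ball b r → ∀ i,
      u i z + (Metric.ball b r).indicator (Fj l b r i) z = sp (Nj l b r z) (z - b) i ∧
      ux i z + (Metric.ball b r).indicator (fun z => fderiv ℝ (Fj l b r i) z 1) z =
        spd (Nj l b r z) (z - b) (Njd l b z 1) 1 i ∧
      uy i z + (Metric.ball b r).indicator (fun z => fderiv ℝ (Fj l b r i) z Complex.I) z =
        spd (Nj l b r z) (z - b) (Njd l b z Complex.I) Complex.I i := by
    filter_upwards [hu] with z hz hzb i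
    obtain ⟨k1, k2, k3⟩ := hz hzb i
    rw [indicator_of_mem hzb, indicator_of_mem hzb, indicator_of_mem hzb, k1, k2, k3,
      bb_in l i (hsub hzb), (f0_deriv l i (hsub hzb)).1, (f0_deriv l i (hsub hzb)).2,
      Fj_deriv hl hb0 hr, Fj_deriv hl hb0 hr]
    refine ⟨?_, ?_, ?_⟩
    · unfold Fj; ring
    · ring
    · ring
  refine ⟨fun i z => u i z + (Metric.ball b r).indicator (Fj l b r i) z,
    fun i z => ux i z + (Metric.ball b r).indicator (fun z => fderiv ℝ (Fj l b r i) z 1) z,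
    fun i z => uy i z + (Metric.ball b r).indicator (fun z => fderiv ℝ (Fj l b r i) z Complex.I) z,
    ⟨fun i => ?_, fun i => ?_, ?_⟩, ?_, ?_⟩
  · have h1 := (h.s1 i).add (glue_S1 (Fj_contDiff hl hb0 hr i) (Fj_sphere l b hr i))
    exact h1.of_eq (fun z => by ring) (fun z => rfl) (fun z => rfl)
  · filter_upwards [h.bc i] with z hz hzD
    rw [indicator_of_notMem fun h => hzD (hsub h), add_zero]
    exact hz hzD
  · filter_upwards [hv, h.unit] with z k1 k2 hzD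
    by_cases hzb : z ∈ Metric.ball b r
    · simp only [(k1 hzb _).1]
      exact sp_unit (Nj_ne hl hb0 hr z)
    · simp only [indicator_of_notMem hzb, add_zero]
      exact k2 hzD
  · filter_upwards with z hzb i
    simp only [indicator_of_notMem hzb, add_zero, and_self]
  · filter_upwards [hv] with z k1 hzb
    exact bubble_qD hl hb0 hr (hε z hzb) (fun i => (k1 hzb i).1) (fun i => (k1 hzb i).2.1)
      (fun i => (k1 hzb i).2.2)

end Pool.Agent.H617_HM
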