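import Pool.Agent.H617_HM.W6

/-!
# Admissible maps with small orientation preserving part
-/

set_option autoImplicit false

open MeasureTheory Filter Topology Set
open scoped Real ENNReal

namespace Pool.Agent.H617_HM

open Pool.Agent.Helper985.VR

theorem cover {D : Set ℂ} (hfin : volume D ≠ ⊤) {R : ℂ → ℝ}
    (hR : ∀ x ∈ D, 0 < R x ∧ Metric.ball x (R x) ⊆ D) {δ : ℝ≥0∞} (hδ : 0 < δ) :
    ∃ (F : Finset ℂ) (r : ℂ → ℝ), (∀ x ∈ F, x ∈ D ∧ 0 < r x ∧ r x < R x) ∧
      ((F : Set ℂ).PairwiseDisjoint fun x => Metric.closedBall x (r x)) ∧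
      volume (D \ ⋃ x ∈ F, Metric.closedBall x (r x)) ≤ δ := by
  classical
  obtain ⟨t, r, htc, htD, hr, hnull, hdisj⟩ := Besicovitch.exists_disjoint_closedBall_covering_ae
    (volume : Measure ℂ) (fun _ => univ) D (fun x _ δ hδ => ⟨δ / 2, mem_univ _, by
      constructor <;> linarith⟩) R (fun x hx => (hR x hx).1)
  have hsub : ∀ x ∈ t, Metric.closedBall x (r x) ⊆ D := fun x hx =>
    (Metric.closedBall_subset_ball (hr x hx).2.2).trans (hR x (htD hx)).2
  have : Countable t := htc.to_subtype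
  have hsum : ∑' x : t, volume (Metric.closedBall (x:ℂ) (r x)) ≠ ⊤ := by
    rw [← measure_iUnion]
    · refine ne_top_of_le_ne_top hfin (measure_mono ?_)
      exact iUnion_subset fun x => hsub x x.2
    · intro x y hxy
      exact hdisj x.2 y.2 fun h => hxy (Subtype.ext h)
    · exact fun x => Metric.isClosed_closedBall.measurableSet
  have hT := ENNReal.tendsto_tsum_compl_atTop_zero hsum
  obtain ⟨F, hF⟩ := ((tendsto_order.1 hT).2 δ hδ).exists
  refine ⟨F.image (fun x : t => (x:ℂ)), r, ?_, ?_, ?_⟩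
  · intro x hx
    rw [Finset.mem_image] at hx
    obtain ⟨y, _, rfl⟩ := hx
    exact ⟨htD y.2, (hr y y.2).2.1, (hr y y.2).2.2⟩
  · refine hdisj.subset ?_
    intro x hx
    rw [Finset.mem_coe, Finset.mem_image] at hx
    obtain ⟨y, _, rfl⟩ := hx
    exact y.2
  · have hsub2 : D \ ⋃ x ∈ F.image (fun x : t => (x:ℂ)), Metric.closedBall x (r x) ⊆
        (D \ ⋃ x ∈ t, Metric.closedBall x (r x)) ∪
          ⋃ x : {x : t // x ∉ F}, Metric.closedBall ((x : t) : ℂ) (r (x:t)) := by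
      rintro z ⟨hz, hz2⟩
      by_cases h : z ∈ ⋃ x ∈ t, Metric.closedBall x (r x)
      · right
        rw [mem_iUnion₂] at h
        obtain ⟨x, hx, hzx⟩ := h
        have hxF : (⟨x, hx⟩ : t) ∉ F := by
          intro hxF
          apply hz2
          rw [mem_iUnion₂]
          exact ⟨x, Finset.mem_image.2 ⟨⟨x, hx⟩, hxF, rfl⟩, hzx⟩
        exact mem_iUnion.2 ⟨⟨⟨x, hx⟩, hxF⟩, hzx⟩
      · exact Or.inl ⟨hz, h⟩
    refine (measure_mono hsub2).trans ((measure_union_le _ _).trans ?_)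
    rw [hnull, zero_add]
    exact (measure_iUnion_le _).trans hF.le

theorem insert_bubbles {l : ℕ} (hl : 0 < l) {r : ℂ → ℝ} {ε : ℝ} (F : Finset ℂ) :
    (∀ x ∈ F, x ∈ Dp ∧ 0 < r x ∧ Metric.ball x (r x) ⊆ Dp ∧
      ∀ z ∈ Metric.ball x (r x), ‖pb l z - pb l x‖ ≤ ε) →
    ((F : Set ℂ).PairwiseDisjoint fun x => Metric.closedBall x (r x)) →
    ∃ v vx vy : Fin 3 → ℂ → ℝ, Adm Dp cc (bb l) v vx vy ∧
      (∀ᵐ z, (z ∉ ⋃ x ∈ F, Metric.ball x (r x)) → ∀ i, v i z = bb l i z ∧ vx i z = f0x l i z ∧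
        vy i z = f0y l i z) ∧
      (∀ᵐ z, (z ∈ ⋃ x ∈ F, Metric.ball x (r x)) → qD v vx vy z ≤ 4 * ε ^ 2) := by
  classical
  induction F using Finset.induction_on with
  | empty =>
    intro _ _
    refine ⟨bb l, f0x l, f0y l, bb_adm l, ?_, ?_⟩
    · filter_upwards with z _ i; exact ⟨rfl, rfl, rfl⟩
    · filter_upwards with z hz; simp at hz
  | insert a F haF ih =>
    intro h1 h2
    obtain ⟨v, vx, vy, hv, hoff, hon⟩ := ih (fun x hx => h1 x (Finset.mem_insert_of_mem hx))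
      (h2.subset (by intro x hx; exact Finset.mem_coe.2 (Finset.mem_insert_of_mem hx)))
    obtain ⟨ha1, ha2, ha3, ha4⟩ := h1 a (Finset.mem_insert_self a F)
    have hdis : ∀ z ∈ Metric.ball a (r a), z ∉ ⋃ x ∈ F, Metric.ball x (r x) := by
      intro z hz hz2
      rw [mem_iUnion₂] at hz2
      obtain ⟨x, hx, hzx⟩ := hz2
      have hne : a ≠ x := by rintro rfl; exact haF hx
      have h3 := h2 (Finset.mem_coe.2 (Finset.mem_insert_self a F))
        (Finset.mem_coe.2 (Finset.mem_insert_of_mem hx)) hne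
      exact Set.disjoint_left.1 h3 (Metric.ball_subset_closedBall hz)
        (Metric.ball_subset_closedBall hzx)
    obtain ⟨w, wx, wy, hw, woff, won⟩ := insert_bubble hl ha2 ha1 ha3 hv (by
      filter_upwards [hoff] with z hz hzb
      exact hz (hdis z hzb)) ha4
    refine ⟨w, wx, wy, hw, ?_, ?_⟩
    · filter_upwards [hoff, woff] with z k1 k2 hz i
      have h3 : z ∉ Metric.ball a (r a) := fun h => hz (mem_iUnion₂.2
        ⟨a, Finset.mem_insert_self a F, h⟩)
      have h4 : z ∉ ⋃ x ∈ F, Metric.ball x (r x) := by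
        intro h
        rw [mem_iUnion₂] at h
        obtain ⟨x, hx, hzx⟩ := h
        exact hz (mem_iUnion₂.2 ⟨x, Finset.mem_insert_of_mem hx, hzx⟩)
      obtain ⟨a1, a2, a3⟩ := k2 h3 i
      obtain ⟨b1, b2, b3⟩ := k1 h4 i
      exact ⟨a1.trans b1, a2.trans b2, a3.trans b3⟩
    · filter_upwards [hon, woff, won] with z k1 k2 k3 hz
      by_cases h3 : z ∈ Metric.ball a (r a)
      · exact k3 h3
      · have h4 : z ∈ ⋃ x ∈ F, Metric.ball x (r x) := by
          rw [mem_iUnion₂] at hz ⊢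
          obtain ⟨x, hx, hzx⟩ := hz
          rcases Finset.mem_insert.1 hx with rfl | hx
          · exact absurd hzx h3
          · exact ⟨x, hx, hzx⟩
        have h5 := k2 h3
        have h6 : qD w wx wy z = qD v vx vy z := by
          unfold qD Qv
          refine Finset.sum_congr rfl fun i _ => ?_
          rw [(h5 i).2.1, (h5 (i+1)).1, (h5 (i+2)).2.2, (h5 (i+2)).1, (h5 (i+1)).2.2]
        rw [h6]; exact k1 h4

theorem Dp_fin : volume Dp ≠ ⊤ :=
  ne_top_of_le_ne_top measure_ball_lt_top.ne (measure_mono (inter_subset_left (s := _) (t := Up)))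

theorem small_QN {l : ℕ} (hl : 0 < l) {ε : ℝ} (hε : 0 < ε) :
    ∃ v vx vy : Fin 3 → ℂ → ℝ, Adm Dp cc (bb l) v vx vy ∧ QN Dp v vx vy ≤ ε := by
  -- constants
  obtain ⟨M, hM⟩ := (isCompact_closedBall (0:ℂ) 1).exists_bound_of_continuousOn
    (pb_cont l).continuousOn
  have hM0 : 0 ≤ M := (norm_nonneg _).trans (hM 0 (by simp))
  set m : ℝ := (volume Dp).toReal with hm
  have hm0 : 0 ≤ m := ENNReal.toReal_nonneg
  set η : ℝ := Real.sqrt (ε / (8 * (m + 1))) with hη
  have hη0 : 0 < η := Real.sqrt_pos.2 (by positivity)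
  have hη2 : 4 * η ^ 2 * m ≤ ε / 2 := by
    rw [hη, Real.sq_sqrt (by positivity)]
    rw [show 4 * (ε / (8 * (m + 1))) * m = (ε / 2) * (m / (m + 1)) by field_simp; ring]
    have : m / (m + 1) ≤ 1 := by rw [div_le_one (by positivity)]; linarith
    nlinarith
  set δ : ℝ := ε / (8 * (M ^ 2 + 1)) with hδ
  have hδ0 : 0 < δ := by positivity
  have hδ2 : 4 * M ^ 2 * δ ≤ ε / 2 := by
    rw [hδ, show 4 * M ^ 2 * (ε / (8 * (M ^ 2 + 1))) = (ε / 2) * (M ^ 2 / (M ^ 2 + 1)) by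
      field_simp; ring]
    have : M ^ 2 / (M ^ 2 + 1) ≤ 1 := by rw [div_le_one (by positivity)]; linarith
    nlinarith
  have huc := (isCompact_closedBall (0:ℂ) 1).uniformContinuousOn_of_continuous
    (pb_cont l).continuousOn
  rw [Metric.uniformContinuousOn_iff] at huc
  obtain ⟨ρ, hρ, hρ2⟩ := huc η hη0
  -- radii
  have hex : ∀ x : ℂ, ∃ R : ℝ, x ∈ Dp → 0 < R ∧ R ≤ ρ ∧ Metric.ball x R ⊆ Dp := by
    intro x
    by_cases hx : x ∈ Dp
    · obtain ⟨s, hs, hs2⟩ := Metric.isOpen_iff.1 Dp_open x hx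
      exact ⟨min s ρ, fun _ => ⟨lt_min hs hρ, min_le_right _ _,
        (Metric.ball_subset_ball (min_le_left _ _)).trans hs2⟩⟩
    · exact ⟨0, fun h => absurd h hx⟩
  choose R hR using hex
  obtain ⟨F, r, hF, hdisj, hmeas⟩ := cover (D := Dp) Dp_fin (R := R)
    (fun x hx => ⟨(hR x hx).1, (hR x hx).2.2⟩) (δ := ENNReal.ofReal δ)
    (ENNReal.ofReal_pos.2 hδ0)
  have hDp1 : ∀ z ∈ Dp, z ∈ Metric.closedBall (0:ℂ) 1 := fun z hz =>
    Metric.ball_subset_closedBall hz.1
  obtain ⟨v, vx, vy, hv, hoff, hon⟩ := insert_bubbles hl (r := r) (ε := η) F (fun x hx => by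
    obtain ⟨h1, h2, h3⟩ := hF x hx
    have hsub : Metric.ball x (r x) ⊆ Dp :=
      (Metric.ball_subset_ball h3.le).trans (hR x h1).2.2
    refine ⟨h1, h2, hsub, fun z hz => ?_⟩
    rw [← dist_eq_norm]
    refine (hρ2 z (hDp1 z (hsub hz)) x (hDp1 x h1) ?_).le
    rw [Metric.mem_ball] at hz
    exact hz.trans (h3.trans_le (hR x h1).2.1)) hdisj
  refine ⟨v, vx, vy, hv, ?_⟩
  -- the estimate
  set U : Set ℂ := ⋃ x ∈ F, Metric.ball x (r x) with hU
  have hUo : IsOpen U := isOpen_biUnion fun x _ => Metric.isOpen_ball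
  have hUm : MeasurableSet U := hUo.measurableSet
  have hsplit : QN Dp v vx vy = (∫ z in Dp ∩ U, qD v vx vy z) + ∫ z in Dp \ U, qD v vx vy z := by
    unfold QN
    rw [integral_inter_add_sdiff hUm (hv.qD_int Dp_meas)]
  have hmU : volume (Dp \ U) ≤ ENNReal.ofReal δ := by
    refine le_trans (le_of_eq ?_) hmeas
    have hsph : volume (⋃ x ∈ F, Metric.sphere x (r x)) = 0 := by
      refine (measure_biUnion_null_iff (I := (F : Set ℂ)) F.countable_toSet).2 ?_
      intro x _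
      exact Measure.addHaar_sphere _ _ _
    refine measure_congr ?_
    have h1 : ∀ᵐ z : ℂ, z ∉ ⋃ x ∈ F, Metric.sphere x (r x) := compl_mem_ae_iff.2 hsph
    filter_upwards [h1] with z hz
    apply propext
    show (z ∈ Dp \ U) ↔ z ∈ Dp \ ⋃ x ∈ F, Metric.closedBall x (r x)
    constructor
    · rintro ⟨h2, h3⟩
      refine ⟨h2, fun h4 => ?_⟩
      rw [mem_iUnion₂] at h4
      obtain ⟨x, hx, hzx⟩ := h4
      rcases eq_or_lt_of_le (Metric.mem_closedBall.1 hzx) with h5 | h5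
      · exact hz (mem_iUnion₂.2 ⟨x, hx, h5⟩)
      · exact h3 (mem_iUnion₂.2 ⟨x, hx, h5⟩)
    · rintro ⟨h2, h3⟩
      refine ⟨h2, fun h4 => h3 ?_⟩
      rw [hU, mem_iUnion₂] at h4
      obtain ⟨x, hx, hzx⟩ := h4
      exact mem_iUnion₂.2 ⟨x, hx, Metric.ball_subset_closedBall hzx⟩
  have hD2 : MeasurableSet (Dp ∩ U) := Dp_meas.inter hUm
  have hD3 : MeasurableSet (Dp \ U) := Dp_meas.diff hUm
  have hfin2 : volume (Dp ∩ U) ≠ ⊤ := ne_top_of_le_ne_top Dp_fin (measure_mono inter_subset_left)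
  have hfin3 : volume (Dp \ U) ≠ ⊤ := ne_top_of_le_ne_top Dp_fin (measure_mono sdiff_subset)
  have hI1 : ∫ z in Dp ∩ U, qD v vx vy z ≤ 4 * η ^ 2 * m := by
    have h1 : ∫ z in Dp ∩ U, qD v vx vy z ≤ ∫ z in Dp ∩ U, 4 * η ^ 2 := by
      refine setIntegral_mono_on_ae ((hv.qD_int Dp_meas).mono_set inter_subset_left)
        (integrableOn_const hfin2) hD2 ?_
      filter_upwards [hon] with z hz hzm
      exact hz hzm.2
    refine h1.trans ?_
    rw [setIntegral_const, smul_eq_mul, mul_comm]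
    refine mul_le_mul_of_nonneg_left ?_ (by positivity)
    exact ENNReal.toReal_mono Dp_fin (measure_mono inter_subset_left)
  have hI2 : ∫ z in Dp \ U, qD v vx vy z ≤ 4 * M ^ 2 * δ := by
    have h1 : ∫ z in Dp \ U, qD v vx vy z ≤ ∫ z in Dp \ U, 4 * M ^ 2 := by
      refine setIntegral_mono_on_ae ((hv.qD_int Dp_meas).mono_set sdiff_subset)
        (integrableOn_const hfin3) hD3 ?_
      filter_upwards [hoff] with z hz hzm
      have h2 := base_qD l hzm.1 (fun i => (hz hzm.2 i).1) (fun i => (hz hzm.2 i).2.1)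
        (fun i => (hz hzm.2 i).2.2)
      refine h2.trans ?_
      have := hM z (hDp1 z hzm.1)
      gcongr
    refine h1.trans ?_
    rw [setIntegral_const, smul_eq_mul, mul_comm]
    refine mul_le_mul_of_nonneg_left ?_ (by positivity)
    exact ENNReal.toReal_le_of_le_ofReal hδ0.le hmU
  rw [hsplit]
  linarith

end Pool.Agent.H617_HM
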