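import Pool.Agent.H617_HM.W7

/-!
# Minimizers of large energy
-/

set_option autoImplicit false

open MeasureTheory Filter Topology Set
open scoped ContDiff Real

namespace Pool.Agent.H617_HM

open Pool.Agent.Helper985.VR

theorem EN_nonneg (ux uy : Fin 3 → ℂ → ℝ) : 0 ≤ EN Dp ux uy :=
  setIntegral_nonneg Dp_meas fun _ _ => eD_nonneg _ _ _

theorem QN_nonneg (u ux uy : Fin 3 → ℂ → ℝ) : 0 ≤ QN Dp u ux uy :=
  setIntegral_nonneg Dp_meas fun _ _ => qD_nonneg _ _ _ _

theorem unbounded {l : ℕ} (hl : 0 < l) (K : ℝ) :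
    ∃ (s : ℝ) (u ux uy : Fin 3 → ℂ → ℝ), IsMin Dp cc (bb l) s u ux uy ∧ K < EN Dp ux uy := by
  by_contra hcon
  push Not at hcon
  have hs0 : ∀ n : ℕ, (0:ℝ) ≤ 1 - 1 / ((n:ℝ) + 2) := by
    intro n
    have : (0:ℝ) ≤ n := Nat.cast_nonneg n
    rw [sub_nonneg, div_le_one (by positivity)]; linarith
  have hs1 : ∀ n : ℕ, 1 - 1 / ((n:ℝ) + 2) < 1 := by
    intro n
    have : (0:ℝ) < 1 / ((n:ℝ) + 2) := by positivity
    linarith
  have hex : ∀ n : ℕ, ∃ u ux uy, Adm Dp cc (bb l) u ux uy ∧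
      ∀ v vx vy, Adm Dp cc (bb l) v vx vy →
      (1 - (1 - 1 / ((n:ℝ) + 2))) * EN Dp ux uy + (1 - 1 / ((n:ℝ) + 2)) * QN Dp u ux uy ≤
      (1 - (1 - 1 / ((n:ℝ) + 2))) * EN Dp vx vy + (1 - 1 / ((n:ℝ) + 2)) * QN Dp v vx vy :=
    fun n => Adm.exists_min Dp_meas (R := 1) inter_subset_left (bb_adm l) (hs0 n) (hs1 n)
  choose u ux uy hadm hmin using hex
  have hK : ∀ n, EN Dp (ux n) (uy n) ≤ K := fun n =>
    hcon _ _ _ _ ⟨hadm n, hmin n⟩
  obtain ⟨σ, hσ, U, Ux, Uy, hU, hlsc⟩ := Adm.compact Dp_meas (R := 1) inter_subset_left hadm hK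
  have hQ0 : QN Dp U Ux Uy ≤ 0 := by
    refine le_of_forall_pos_le_add fun ε hε => ?_
    obtain ⟨v, vx, vy, hv, hvε⟩ := small_QN hl hε
    have h1 := hlsc 0 1 le_rfl zero_le_one
      (fun n => 2 / ((σ n : ℝ) + 2) * EN Dp vx vy + ε) ε ?_ ?_
    · simpa using h1
    · intro n
      rw [zero_mul, zero_add, one_mul]
      have h2 := hmin (σ n) v vx vy hv
      have hn : (0:ℝ) ≤ (σ n : ℝ) := Nat.cast_nonneg _
      set t : ℝ := 1 / ((σ n : ℝ) + 2) with ht
      have ht0 : 0 < t := by positivity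
      have ht2 : t ≤ 1 / 2 := by
        rw [ht]; exact one_div_le_one_div_of_le (by norm_num) (by linarith)
      have h3 : 2 / ((σ n : ℝ) + 2) = 2 * t := by rw [ht]; ring
      rw [h3]
      have e1 := EN_nonneg (ux (σ n)) (uy (σ n))
      have e2 := EN_nonneg vx vy
      have e3 := QN_nonneg (u (σ n)) (ux (σ n)) (uy (σ n))
      have h4 : (1 - t) * QN Dp (u (σ n)) (ux (σ n)) (uy (σ n)) ≤ t * EN Dp vx vy +
          (1 - t) * ε := by
        have h5 : (1 - t) * QN Dp v vx vy ≤ (1 - t) * ε := by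
          apply mul_le_mul_of_nonneg_left hvε; linarith
        have h6 : 0 ≤ (1 - (1 - t)) * EN Dp (ux (σ n)) (uy (σ n)) := by
          apply mul_nonneg _ e1; linarith
        have h7 : (1 - (1 - t)) = t := by ring
        rw [h7] at h2 h6
        linarith
      -- divide by `1 - t ≥ 1/2`
      have h8 : (1 - t) * QN Dp (u (σ n)) (ux (σ n)) (uy (σ n)) ≤
          (1 - t) * (2 * t * EN Dp vx vy + ε) := by
        refine h4.trans ?_
        have : t * EN Dp vx vy ≤ (1 - t) * (2 * t * EN Dp vx vy) := by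
          have : 0 ≤ t * EN Dp vx vy := by positivity
          nlinarith
        nlinarith
      exact le_of_mul_le_mul_left h8 (by linarith)
    · have h2 : Tendsto (fun n : ℕ => 2 / ((σ n : ℝ) + 2)) atTop (𝓝 0) := by
        have h3 : Tendsto (fun n : ℕ => (n:ℝ) + 2) atTop atTop :=
          tendsto_atTop_add_const_right _ _ tendsto_natCast_atTop_atTop
        have h4 : Tendsto (fun x : ℝ => 2 / x) atTop (𝓝 0) := tendsto_const_nhds.div_atTop tendsto_id
        exact (h4.comp h3).comp hσ.tendsto_atTop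
      have := (h2.mul_const (EN Dp vx vy)).add_const ε
      simpa using this
  exact no_zero hl hU (le_antisymm hQ0 (QN_nonneg _ _ _))

end Pool.Agent.H617_HM
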