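import Pool.Agent.H617_HM.X1

/-!
# The weak equation in the half disc
-/

set_option autoImplicit false

open MeasureTheory Filter Topology Set
open scoped ContDiff Real

namespace Pool.Agent.H617_HM

open Pool.Agent.Helper985.VR

theorem fl_int {D : Set ℂ} (hD : MeasurableSet D) {c : Fin 3 → ℝ} {b u ux uy : Fin 3 → ℂ → ℝ}
    (hA : Adm D c b u ux uy) {φx φy : ℂ → ℝ} (hx : L2 φx) (hy : L2 φy) (i : Fin 3) :
    IntegrableOn (fl i φx φy u ux uy) D := by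
  have im : ∀ (i j : Fin 3) (p : ℂ → ℝ) (q : Fin 3 → ℂ → ℝ), L2 p → (∀ j, L2 (q j)) →
      IntegrableOn (fun z => p z * (u i z * q j z)) D := by
    intro i j p q hp hq
    have h1 := hp.mul (hA.mul_ind hD i (hq j))
    have h2 : (fun z => p z * (u i z * D.indicator (q j) z)) =
        D.indicator (fun z => p z * (u i z * q j z)) := by
      ext z
      by_cases hz : z ∈ D
      · simp only [indicator_of_mem hz]
      · simp only [indicator_of_notMem hz]; ring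
    rw [h2, integrable_indicator_iff hD] at h1
    exact h1
  have h1 := ((im (i+1) (i+2) φx ux hx (fun j => (hA.s1 j).lx)).sub
    (im (i+2) (i+1) φx ux hx (fun j => (hA.s1 j).lx))).add
    ((im (i+1) (i+2) φy uy hy (fun j => (hA.s1 j).ly)).sub
    (im (i+2) (i+1) φy uy hy (fun j => (hA.s1 j).ly)))
  refine h1.congr ?_
  filter_upwards with z
  simp only [Pi.add_apply, Pi.sub_apply, fl]; ring

/-- pointwise identity -/
theorem vec_ident {u p P Q : Fin 3 → ℝ} (h1 : u 0 ^ 2 + u 1 ^ 2 + u 2 ^ 2 = 1)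
    (h2 : u 0 * p 0 + u 1 * p 1 + u 2 * p 2 = 0) :
    (P 2 * p 1 + Q 2 * u 1 - P 1 * p 2 - Q 1 * u 2) * (u 1 * p 2 - u 2 * p 1) +
    (P 0 * p 2 + Q 0 * u 2 - P 2 * p 0 - Q 2 * u 0) * (u 2 * p 0 - u 0 * p 2) +
    (P 1 * p 0 + Q 1 * u 0 - P 0 * p 1 - Q 0 * u 1) * (u 0 * p 1 - u 1 * p 0) =
    (p 0 * Q 0 + p 1 * Q 1 + p 2 * Q 2) -
      (p 0 ^ 2 + p 1 ^ 2 + p 2 ^ 2) * (u 0 * P 0 + u 1 * P 1 + u 2 * P 2) := by
  linear_combination (p 0 * Q 0 + p 1 * Q 1 + p 2 * Q 2) * h1 +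
    ((p 0 * P 0 + p 1 * P 1 + p 2 * P 2) - (u 0 * Q 0 + u 1 * Q 1 + u 2 * Q 2)) * h2

theorem half_weak {l : ℕ} {s : ℝ} {u ux uy : Fin 3 → ℂ → ℝ}
    (h : IsMin Dp cc (bb l) s u ux uy) {Ψ : Fin 3 → ℂ → ℝ} (hΨ : ∀ i, ContDiff ℝ ∞ (Ψ i))
    (hΨc : ∀ i, HasCompactSupport (Ψ i)) (hΨ0 : ∀ i z, 1 ≤ ‖z‖ → Ψ i z = 0)
    (hΨr : ∀ z : ℂ, z.im = 0 → Ψ 1 z = 0 ∧ Ψ 2 z = 0) :
    ∫ z in Dp, ((∑ i, (ux i z * fderiv ℝ (Ψ i) z 1 + uy i z * fderiv ℝ (Ψ i) z Complex.I)) -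
      eD ux uy z * ∑ i, u i z * Ψ i z) = 0 := by
  have hA := h.adm
  have hbb : ∀ i, ∀ᵐ z, |bb l i z| ≤ 1 := fun i => Eventually.of_forall (bb_bdd l i)
  -- the constant part
  set Γ : Fin 3 → ℂ → ℝ := fun i z => cc (i + 1) * Ψ (i + 2) z - cc (i + 2) * Ψ (i + 1) z with hΓ
  have hΓs : ∀ i, ContDiff ℝ ∞ (Γ i) := fun i =>
    (contDiff_const.mul (hΨ (i + 2))).sub (contDiff_const.mul (hΨ (i + 1)))
  have hΓc : ∀ i, HasCompactSupport (Γ i) := fun i =>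
    (hΨc (i + 2)).mul_left.sub (hΨc (i + 1)).mul_left
  have hΓr : ∀ i, ∀ z : ℂ, z.im = 0 → Γ i z = 0 := by
    intro i z hz
    obtain ⟨k1, k2⟩ := hΨr z hz
    fin_cases i
    · show (0:ℝ) * Ψ 2 z - 0 * Ψ 1 z = 0
      ring
    · show (0:ℝ) * Ψ 0 z - 1 * Ψ 2 z = 0
      rw [k2]; ring
    · show (1:ℝ) * Ψ 1 z - 0 * Ψ 0 z = 0
      rw [k1]; ring
  have hΓd : ∀ i z v, fderiv ℝ (Γ i) z v = cc (i + 1) * fderiv ℝ (Ψ (i + 2)) z v -
      cc (i + 2) * fderiv ℝ (Ψ (i + 1)) z v := by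
    intro i z v
    have d : ∀ j, HasFDerivAt (Ψ j) (fderiv ℝ (Ψ j) z) z := fun j =>
      (((hΨ j).differentiable (by simp)) z).hasFDerivAt
    have h1 := ((d (i + 2)).const_mul (cc (i + 1))).sub ((d (i + 1)).const_mul (cc (i + 2)))
    have h2 : fderiv ℝ (Γ i) z = _ := h1.fderiv
    rw [h2]; rfl
  -- the test functions
  have hξ : ∀ i, S1 (fun z => Ψ (i + 2) z * (u (i + 1) z - cc (i + 1)) -
      Ψ (i + 1) z * (u (i + 2) z - cc (i + 2)) + Up.indicator (Γ i) z)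
      (fun z => (Ψ (i + 2) z * ux (i + 1) z + fderiv ℝ (Ψ (i + 2)) z 1 * (u (i + 1) z - cc (i + 1)))
        - (Ψ (i + 1) z * ux (i + 2) z + fderiv ℝ (Ψ (i + 1)) z 1 * (u (i + 2) z - cc (i + 2))) +
        Up.indicator (fun z => fderiv ℝ (Γ i) z 1) z)
      (fun z => (Ψ (i + 2) z * uy (i + 1) z +
        fderiv ℝ (Ψ (i + 2)) z Complex.I * (u (i + 1) z - cc (i + 1)))
        - (Ψ (i + 1) z * uy (i + 2) z +
        fderiv ℝ (Ψ (i + 1)) z Complex.I * (u (i + 2) z - cc (i + 2))) +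
        Up.indicator (fun z => fderiv ℝ (Γ i) z Complex.I) z) := fun i =>
    ((((hA.s1 (i + 1)).mul_cc (hΨ (i + 2)) (hΨc (i + 2))).sub
      ((hA.s1 (i + 2)).mul_cc (hΨ (i + 1)) (hΨc (i + 1))))).add
      (half_S1 (hΓs i) (hΓc i) (hΓr i))
  have hξ0 : ∀ i, ∀ᵐ z, z ∉ Dp → Ψ (i + 2) z * (u (i + 1) z - cc (i + 1)) -
      Ψ (i + 1) z * (u (i + 2) z - cc (i + 2)) + Up.indicator (Γ i) z = 0 := by
    intro i
    filter_upwards [hA.bc (i + 1), hA.bc (i + 2)] with z k1 k2 hz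
    by_cases hz1 : z ∈ Metric.ball (0:ℂ) 1
    · have hu : z ∉ Up := fun hu => hz ⟨hz1, hu⟩
      rw [indicator_of_notMem hu, k1 hz, k2 hz, bb_off l _ (not_lt.1 hu),
        bb_off l _ (not_lt.1 hu)]
      ring
    · rw [mem_ball_zero_iff, not_lt] at hz1
      have : Up.indicator (Γ i) z = 0 := by
        by_cases hu : z ∈ Up
        · rw [indicator_of_mem hu, hΓ]
          simp only
          rw [hΨ0 _ z hz1, hΨ0 _ z hz1]; ring
        · rw [indicator_of_notMem hu]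
      rw [this, hΨ0 _ z hz1, hΨ0 _ z hz1]; ring
  have hel := fun i => h.el Dp_meas hbb cc_unit (hξ i) (hξ0 i) i
  have hfi := fun i => fl_int Dp_meas hA (hξ i).lx (hξ i).ly i
  have hsum := integral_finsetSum Finset.univ fun i _ => hfi i
  rw [Finset.sum_eq_zero fun i _ => hel i] at hsum
  rw [← hsum]
  refine setIntegral_congr_ae Dp_meas ?_
  filter_upwards [hA.unit, hA.orth hbb cc_unit] with z k1 k2 hz
  have n1 := k1 hz
  obtain ⟨o1, o2⟩ := k2 hz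
  have c0 : cc 0 = 1 := rfl
  have c1 : cc 1 = 0 := rfl
  have c2 : cc 2 = 0 := rfl
  have v1 := vec_ident (u := fun i => u i z) (p := fun i => ux i z) (P := fun i => Ψ i z)
    (Q := fun i => fderiv ℝ (Ψ i) z 1) n1 o1
  have v2 := vec_ident (u := fun i => u i z) (p := fun i => uy i z) (P := fun i => Ψ i z)
    (Q := fun i => fderiv ℝ (Ψ i) z Complex.I) n1 o2
  simp only [Fin.sum_univ_three, fl, indicator_of_mem hz.2, hΓd]
  unfold eD
  rw [Fin.sum_univ_three]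
  have e01 : (0:Fin 3) + 1 = 1 := rfl
  have e02 : (0:Fin 3) + 2 = 2 := rfl
  have e11 : (1:Fin 3) + 1 = 2 := rfl
  have e12 : (1:Fin 3) + 2 = 0 := rfl
  have e21 : (2:Fin 3) + 1 = 0 := rfl
  have e22 : (2:Fin 3) + 2 = 1 := rfl
  simp only [e01, e02, e11, e12, e21, e22, c0, c1, c2]
  linear_combination - v1 - v2

end Pool.Agent.H617_HM
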