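import Pool.Agent.H617_HM.X2

/-!
# Reflection
-/

set_option autoImplicit false

open MeasureTheory Filter Topology Set
open scoped ContDiff Real

namespace Pool.Agent.H617_HM

open Pool.Agent.Helper985.VR

/-- the signs of the reflection of the target -/
def sg : Fin 3 → ℝ := ![1, -1, -1]

theorem sg_sq (i : Fin 3) : sg i * sg i = 1 := by
  fin_cases i
  · show (1:ℝ) * 1 = 1
    norm_num
  · show (-1:ℝ) * (-1) = 1
    norm_num
  · show (-1:ℝ) * (-1) = 1
    norm_num

theorem sg_cc (i : Fin 3) : sg i * cc i = cc i := by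
  fin_cases i
  · show (1:ℝ) * 1 = 1
    norm_num
  · show (-1:ℝ) * 0 = 0
    norm_num
  · show (-1:ℝ) * 0 = 0
    norm_num

/-- the reflected map and its derivatives -/
noncomputable def Rf (u : Fin 3 → ℂ → ℝ) (i : Fin 3) (z : ℂ) : ℝ :=
  (u i z - cc i) + sg i * (u i ((starRingEnd ℂ) z) - cc i)
noncomputable def Rx (ux : Fin 3 → ℂ → ℝ) (i : Fin 3) (z : ℂ) : ℝ :=
  ux i z + sg i * ux i ((starRingEnd ℂ) z)
noncomputable def Ry (uy : Fin 3 → ℂ → ℝ) (i : Fin 3) (z : ℂ) : ℝ :=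
  uy i z + sg i * (- uy i ((starRingEnd ℂ) z))

theorem Rf_S1 {u ux uy : Fin 3 → ℂ → ℝ} {i : Fin 3}
    (h : S1 (fun z => u i z - cc i) (ux i) (uy i)) : S1 (Rf u i) (Rx ux i) (Ry uy i) :=
  h.add (h.comp_conj.const_mul (sg i))

theorem ae_conj {P : ℂ → Prop} (h : ∀ᵐ z, P z) : ∀ᵐ z, P ((starRingEnd ℂ) z) :=
  mp_conj.quasiMeasurePreserving.ae h

/-- the lower half disc -/
def Dm : Set ℂ := {z | (starRingEnd ℂ) z ∈ Dp}

theorem low_ae {l : ℕ} {u ux uy : Fin 3 → ℂ → ℝ} (h : Adm Dp cc (bb l) u ux uy) :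
    ∀ᵐ z : ℂ, z.im ≤ 0 → ∀ i, u i z = cc i ∧ ux i z = 0 ∧ uy i z = 0 := by
  have h1 : ∀ i, ∀ᵐ z : ℂ, z.im ≤ 0 → u i z = cc i ∧ ux i z = 0 ∧ uy i z = 0 := by
    intro i
    filter_upwards [h.bc i, (h.s1 i).zero_set] with z k1 k2 hz
    have k3 : u i z = cc i := by
      rw [k1 fun hD => absurd hD.2 (not_lt.2 hz), bb_off l i hz]
    exact ⟨k3, k2 (by rw [k3, sub_self])⟩
  filter_upwards [h1 0, h1 1, h1 2] with z k0 k1 k2 hz i
  fin_cases i
  · exact k0 hz
  · exact k1 hz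
  · exact k2 hz

/-- values of the reflected map on the upper half disc and its mirror image -/
theorem Rf_vals {l : ℕ} {u ux uy : Fin 3 → ℂ → ℝ} (h : Adm Dp cc (bb l) u ux uy) :
    ∀ᵐ z : ℂ, z ∈ Dp → ∀ i,
      (cc i + Rf u i z = u i z ∧ Rx ux i z = ux i z ∧ Ry uy i z = uy i z) ∧
      (cc i + Rf u i ((starRingEnd ℂ) z) = sg i * u i z ∧
        Rx ux i ((starRingEnd ℂ) z) = sg i * ux i z ∧
        Ry uy i ((starRingEnd ℂ) z) = - (sg i * uy i z)) := by
  filter_upwards [ae_conj (low_ae h)] with z k1 hz i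
  have h1 : ((starRingEnd ℂ) z).im ≤ 0 := by
    rw [Complex.conj_im]
    have : 0 < z.im := hz.2
    linarith
  obtain ⟨a1, a2, a3⟩ := k1 h1 i
  unfold Rf Rx Ry
  rw [Complex.conj_conj, a1, a2, a3]
  refine ⟨⟨by ring, by ring, by ring⟩, ?_, by ring, by ring⟩
  have := sg_cc i
  linear_combination -this

theorem conj_smooth {ψ : ℂ → ℝ} (hψ : ContDiff ℝ ∞ ψ) :
    ContDiff ℝ ∞ fun z => ψ ((starRingEnd ℂ) z) := hψ.comp Complex.conjCLE.contDiff

theorem conj_cs {ψ : ℂ → ℝ} (hc : HasCompactSupport ψ) :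
    HasCompactSupport fun z => ψ ((starRingEnd ℂ) z) :=
  hc.comp_homeomorph Complex.conjLIE.toHomeomorph

/-- the integrand of the weak equation -/
noncomputable def wI (U Ux Uy ψ ψx ψy : Fin 3 → ℂ → ℝ) (z : ℂ) : ℝ :=
  (∑ i, (Ux i z * ψx i z + Uy i z * ψy i z)) - eD Ux Uy z * ∑ i, U i z * ψ i z

theorem ball_weak {l : ℕ} {s : ℝ} {u ux uy : Fin 3 → ℂ → ℝ}
    (h : IsMin Dp cc (bb l) s u ux uy) {ψ : Fin 3 → ℂ → ℝ} (hψ : ∀ i, ContDiff ℝ ∞ (ψ i))
    (hψc : ∀ i, HasCompactSupport (ψ i)) (hψ0 : ∀ i z, 1 ≤ ‖z‖ → ψ i z = 0) :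
    ∫ z in Metric.ball (0:ℂ) 1, wI (fun i z => cc i + Rf u i z) (Rx ux) (Ry uy) ψ
      (fun i z => fderiv ℝ (ψ i) z 1) (fun i z => fderiv ℝ (ψ i) z Complex.I) z = 0 := by
  have hA := h.adm
  have hbb : ∀ i, ∀ᵐ z, |bb l i z| ≤ 1 := fun i => Eventually.of_forall (bb_bdd l i)
  set U : Fin 3 → ℂ → ℝ := fun i z => cc i + Rf u i z with hU
  set F : ℂ → ℝ := wI U (Rx ux) (Ry uy) ψ
      (fun i z => fderiv ℝ (ψ i) z 1) (fun i z => fderiv ℝ (ψ i) z Complex.I) with hF
  have hR : ∀ i, S1 (Rf u i) (Rx ux i) (Ry uy i) := fun i => Rf_S1 (hA.s1 i)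
  -- measurability and integrability
  have hUb : ∀ i, ∀ᵐ z, |U i z| ≤ 5 := by
    intro i
    have hb := hA.bdd hbb i
    filter_upwards [hb, ae_conj hb] with z k1 k2
    rw [max_self] at k1 k2
    have k3 := cc_abs i
    have k4 : |sg i| ≤ 1 := by
      have := sg_sq i
      rw [abs_le_one_iff_mul_self_le_one]; linarith
    simp only [hU, Rf]
    have e : cc i + (u i z - cc i + sg i * (u i ((starRingEnd ℂ) z) - cc i)) =
        u i z + sg i * (u i ((starRingEnd ℂ) z) - cc i) := by ring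
    rw [e]
    refine (abs_add_le _ _).trans ?_
    rw [abs_mul]
    have k5 : |u i ((starRingEnd ℂ) z) - cc i| ≤ 2 := (abs_sub _ _).trans (by linarith)
    have k6 : |sg i| * |u i ((starRingEnd ℂ) z) - cc i| ≤ 1 * 2 :=
      mul_le_mul k4 k5 (abs_nonneg _) zero_le_one
    linarith
  have hUm : ∀ i, Measurable (U i) := fun i => (hR i).l.1.const_add _
  have heI : Integrable (eD (Rx ux) (Ry uy)) := by
    unfold eD
    exact integrable_finsetSum _ fun i _ => (hR i).lx.2.add (hR i).ly.2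
  have hFi : Integrable F := by
    have i1 : Integrable fun z => ∑ i, (Rx ux i z * fderiv ℝ (ψ i) z 1 +
        Ry uy i z * fderiv ℝ (ψ i) z Complex.I) := by
      refine integrable_finsetSum _ fun i _ => ?_
      have s := S1.of_smooth (hψ i) (hψc i)
      exact ((hR i).lx.mul s.lx).add ((hR i).ly.mul s.ly)
    have i2 : Integrable fun z => eD (Rx ux) (Ry uy) z * ∑ i, U i z * ψ i z := by
      have e : (fun z => eD (Rx ux) (Ry uy) z * ∑ i, U i z * ψ i z) =
          fun z => ∑ i, (U i z * ψ i z) * eD (Rx ux) (Ry uy) z := by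
        ext z; rw [Finset.mul_sum]
        exact Finset.sum_congr rfl fun i _ => by ring
      rw [e]
      refine integrable_finsetSum _ fun i _ => ?_
      obtain ⟨M, hM⟩ := (hψc i).exists_bound_of_continuous (hψ i).continuous
      refine heI.bdd_mul (c := 5 * M) ((hUm i).mul
        (hψ i).continuous.measurable).aestronglyMeasurable ?_
      filter_upwards [hUb i] with z hz
      rw [norm_mul, Real.norm_eq_abs]
      exact mul_le_mul hz (hM z) (norm_nonneg _) (by norm_num)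
    exact i1.sub i2
  -- splitting
  have hDmm : MeasurableSet Dm := mp_conj.measurable Dp_meas
  have hsplit : ∫ z in Metric.ball (0:ℂ) 1, F z = (∫ z in Dp, F z) + ∫ z in Dm, F z := by
    have h1 : (Metric.ball (0:ℂ) 1 : Set ℂ) =ᵐ[volume] (Dp ∪ Dm : Set ℂ) := by
      filter_upwards [im_ne_zero_ae] with z hz
      apply propext
      show z ∈ Metric.ball (0:ℂ) 1 ↔ z ∈ Dp ∪ Dm
      constructor
      · intro h1
        rcases lt_or_gt_of_ne hz with h2 | h2
        · right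
          refine ⟨?_, ?_⟩
          · rw [mem_ball_zero_iff] at h1 ⊢
            rwa [Complex.norm_conj]
          · show 0 < ((starRingEnd ℂ) z).im
            rw [Complex.conj_im]; linarith
        · exact Or.inl ⟨h1, h2⟩
      · rintro (h1 | h1)
        · exact h1.1
        · have h2 := h1.1
          rw [mem_ball_zero_iff] at h2 ⊢
          rwa [Complex.norm_conj] at h2
    rw [setIntegral_congr_set h1, setIntegral_union ?_ hDmm hFi.integrableOn hFi.integrableOn]
    rw [Set.disjoint_left]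
    intro z h1 h2
    have h3 : 0 < z.im := h1.2
    have h4 : 0 < ((starRingEnd ℂ) z).im := h2.2
    rw [Complex.conj_im] at h4
    linarith
  have hDm : ∫ z in Dm, F z = ∫ z in Dp, F ((starRingEnd ℂ) z) := by
    rw [← integral_indicator hDmm, ← integral_indicator Dp_meas, ← integral_comp_conj]
    congr 1; ext z
    by_cases hz : z ∈ Dp
    · rw [indicator_of_mem hz, indicator_of_mem (by
        show (starRingEnd ℂ) ((starRingEnd ℂ) z) ∈ Dp
        rwa [Complex.conj_conj])]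
    · rw [indicator_of_notMem hz, indicator_of_notMem (by
        show ¬ (starRingEnd ℂ) ((starRingEnd ℂ) z) ∈ Dp
        rwa [Complex.conj_conj])]
  have hFc : Integrable fun z => F ((starRingEnd ℂ) z) := mp_conj.integrable_comp_of_integrable hFi
  rw [hsplit, hDm, ← integral_add hFi.integrableOn hFc.integrableOn]
  -- symmetrised test functions
  set Ψ : Fin 3 → ℂ → ℝ := fun i z => ψ i z + sg i * ψ i ((starRingEnd ℂ) z) with hΨ
  have hΨd : ∀ i z v, fderiv ℝ (Ψ i) z v = fderiv ℝ (ψ i) z v +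
      sg i * fderiv ℝ (ψ i) ((starRingEnd ℂ) z) ((starRingEnd ℂ) v) := by
    intro i z v
    have d1 : HasFDerivAt (ψ i) (fderiv ℝ (ψ i) z) z :=
      (((hψ i).differentiable (by simp)) z).hasFDerivAt
    have d2 : HasFDerivAt (fun w => ψ i ((starRingEnd ℂ) w))
        (fderiv ℝ (fun w => ψ i ((starRingEnd ℂ) w)) z) z :=
      (((conj_smooth (hψ i)).differentiable (by simp)) z).hasFDerivAt
    have h1 := d1.add (d2.const_mul (sg i))
    have h2 : fderiv ℝ (Ψ i) z = _ := h1.fderiv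
    rw [h2]
    show fderiv ℝ (ψ i) z v + sg i * fderiv ℝ (fun w => ψ i ((starRingEnd ℂ) w)) z v = _
    rw [fderiv_comp_conj ((hψ i).differentiable (by simp))]
  have hw := half_weak h (Ψ := Ψ)
    (fun i => (hψ i).add (contDiff_const.mul (conj_smooth (hψ i))))
    (fun i => (hψc i).add (conj_cs (hψc i)).mul_left)
    (fun i z hz => by
      simp only [hΨ]
      rw [hψ0 i z hz, hψ0 i _ (by rwa [Complex.norm_conj])]; ring)
    (fun z hz => by
      have h1 : (starRingEnd ℂ) z = z := Complex.conj_eq_iff_im.2 hz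
      simp only [hΨ, h1]
      exact ⟨by show ψ 1 z + (-1) * ψ 1 z = 0; ring, by show ψ 2 z + (-1) * ψ 2 z = 0; ring⟩)
  rw [← hw]
  refine setIntegral_congr_ae Dp_meas ?_
  filter_upwards [Rf_vals hA] with z k1 hz
  have k := k1 hz
  have q1 : eD (Rx ux) (Ry uy) z = eD ux uy z := by
    unfold eD
    exact Finset.sum_congr rfl fun i _ => by rw [(k i).1.2.1, (k i).1.2.2]
  have q2 : eD (Rx ux) (Ry uy) ((starRingEnd ℂ) z) = eD ux uy z := by
    unfold eD
    refine Finset.sum_congr rfl fun i _ => ?_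
    rw [(k i).2.2.1, (k i).2.2.2]
    linear_combination (ux i z ^ 2 + uy i z ^ 2) * sg_sq i
  simp only [hF, wI, q1, q2, hU, (k _).1.1, (k _).1.2.1, (k _).1.2.2, (k _).2.1, (k _).2.2.1,
    (k _).2.2.2]
  simp only [hΨd, map_one, Complex.conj_I, map_neg]
  simp only [Fin.sum_univ_three, hΨ]
  ring

end Pool.Agent.H617_HM
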