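import Pool.Agent.H617_HM.X3

/-!
# The trace of the reflected map
-/

set_option autoImplicit false

open MeasureTheory Filter Topology Set
open scoped ContDiff Real

namespace Pool.Agent.H617_HM

open Pool.Agent.Helper985.VR

theorem ce_conj (θ : ℝ) : (starRingEnd ℂ) (ce θ) = ce (-θ) := by
  apply Complex.ext
  · rw [Complex.conj_re, ce_re, ce_re, Real.cos_neg]
  · rw [Complex.conj_im, ce_im, ce_im, Real.sin_neg]

theorem ce_exp (θ : ℝ) : ce θ = Complex.exp (θ * Complex.I) := by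
  rw [Complex.exp_mul_I, ← Complex.ofReal_cos, ← Complex.ofReal_sin]; rfl

/-- the boundary values -/
noncomputable def gg (l : ℕ) (θ : ℝ) : Fin 3 → ℝ :=
  ![Real.cos (2 * l * θ), Real.sin (2 * l * θ), 0]

theorem Rf_bb (l : ℕ) (i : Fin 3) (z : ℂ) :
    Rf (bb l) i z = f0 l i z + sg i * f0 l i ((starRingEnd ℂ) z) := by
  unfold Rf bb; ring

theorem Rf_bb_cont (l : ℕ) (i : Fin 3) : Continuous (Rf (bb l) i) := by
  have : Rf (bb l) i = fun z => f0 l i z + sg i * f0 l i ((starRingEnd ℂ) z) := by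
    ext z; exact Rf_bb l i z
  rw [this]
  exact (f0_cont l i).add (continuous_const.mul ((f0_cont l i).comp Complex.continuous_conj))

theorem bdry (l : ℕ) (θ : ℝ) (i : Fin 3) : cc i + Rf (bb l) i (ce θ) = gg l θ i := by
  rw [Rf_bb, ce_conj]
  rcases lt_trichotomy (Real.sin θ) 0 with h | h | h
  · have h1 : 0 < Real.sin (-θ) := by rw [Real.sin_neg]; linarith
    obtain ⟨a1, a2, a3⟩ := f0_circle l h1
    have e : (2 * l * (-θ) : ℝ) = -(2 * l * θ) := by ring
    rw [e, Real.cos_neg] at a1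
    rw [e, Real.sin_neg] at a2
    rw [f0_circle' l h.le]
    fin_cases i
    · show (1:ℝ) + (0 + 1 * f0 l 0 (ce (-θ))) = Real.cos (2 * l * θ)
      rw [a1]; ring
    · show (0:ℝ) + (0 + (-1) * f0 l 1 (ce (-θ))) = Real.sin (2 * l * θ)
      rw [a2]; ring
    · show (0:ℝ) + (0 + (-1) * f0 l 2 (ce (-θ))) = 0
      rw [a3]; ring
  · have h1 : Real.sin (-θ) ≤ 0 := by rw [Real.sin_neg, h]; norm_num
    rw [f0_circle' l h.le, f0_circle' l h1]
    obtain ⟨n, hn⟩ := Real.sin_eq_zero_iff.1 h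
    have h2 : Real.cos (2 * l * θ) = 1 := by
      rw [← hn]
      have := Real.cos_int_mul_two_pi (l * n)
      rw [← this]; congr 1; push_cast; ring
    have h3 : Real.sin (2 * l * θ) = 0 := by
      rw [← hn]
      have := Real.sin_int_mul_pi (2 * l * n)
      rw [← this]; congr 1; push_cast; ring
    fin_cases i
    · show (1:ℝ) + (0 + 1 * 0) = Real.cos (2 * l * θ)
      rw [h2]; ring
    · show (0:ℝ) + (0 + (-1) * 0) = Real.sin (2 * l * θ)
      rw [h3]; ring
    · show (0:ℝ) + (0 + (-1) * 0) = 0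
      ring
  · have h1 : Real.sin (-θ) ≤ 0 := by rw [Real.sin_neg]; linarith
    obtain ⟨a1, a2, a3⟩ := f0_circle l h
    rw [f0_circle' l h1]
    fin_cases i
    · show (1:ℝ) + (f0 l 0 (ce θ) + 1 * 0) = Real.cos (2 * l * θ)
      rw [a1]; ring
    · show (0:ℝ) + (f0 l 1 (ce θ) + (-1) * 0) = Real.sin (2 * l * θ)
      rw [a2]; ring
    · show (0:ℝ) + (f0 l 2 (ce θ) + (-1) * 0) = 0
      rw [a3]; ring

theorem L2.intOn {f : ℂ → ℝ} (hf : L2 f) : IntegrableOn f (Metric.ball (0:ℂ) 1) := by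
  have h1 : MemLp f 2 (volume.restrict (Metric.ball (0:ℂ) 1)) := hf.memLp.restrict _
  have : IsFiniteMeasure (volume.restrict (Metric.ball (0:ℂ) 1)) :=
    ⟨by rw [Measure.restrict_apply_univ]; exact measure_ball_lt_top⟩
  exact h1.integrable (by norm_num)

theorem trace_cc {l : ℕ} {u ux uy : Fin 3 → ℂ → ℝ} (h : Adm Dp cc (bb l) u ux uy) (i : Fin 3)
    {ψ : ℂ → ℝ} (hψ : ContDiff ℝ ∞ ψ) (hψc : HasCompactSupport ψ) :
    (∫ z in Metric.ball (0:ℂ) 1, ((cc i + Rf u i z) * fderiv ℝ ψ z 1 + Rx ux i z * ψ z) =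
      ∫ θ in (-π)..π, gg l θ i * ψ (ce θ) * Real.cos θ) ∧
    (∫ z in Metric.ball (0:ℂ) 1, ((cc i + Rf u i z) * fderiv ℝ ψ z Complex.I + Ry uy i z * ψ z) =
      ∫ θ in (-π)..π, gg l θ i * ψ (ce θ) * Real.sin θ) := by
  have hR := Rf_S1 (h.s1 i)
  have hR0 := Rf_S1 ((bb_adm l).s1 i)
  have hT := hR.sub hR0
  have hT0 : ∀ᵐ z, z ∉ Metric.ball (0:ℂ) 1 → Rf u i z - Rf (bb l) i z = 0 := by
    filter_upwards [h.bc i, ae_conj (h.bc i)] with z k1 k2 hz
    have h1 : (starRingEnd ℂ) z ∉ Dp := by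
      intro h2
      have h3 := h2.1
      rw [mem_ball_zero_iff, Complex.norm_conj] at h3
      exact hz (mem_ball_zero_iff.2 h3)
    unfold Rf
    rw [k1 fun hD => hz hD.1, k2 h1]; ring
  obtain ⟨g1, g2⟩ := green_test hR0 (Rf_bb_cont l i) hψ hψc
  obtain ⟨o1, o2⟩ := off_test hT hT0 hψ hψc
  have s := S1.of_smooth hψ hψc
  have q1 := green_dir s.lx s.dx hψ.continuous
  have q2 := green_dir s.ly s.dy hψ.continuous
  simp only [Complex.one_re, Complex.one_im, Complex.I_re, Complex.I_im, mul_one, mul_zero,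
    add_zero, zero_add] at q1 q2
  have m0 := hR0.mul_cc hψ hψc
  have mT := hT.mul_cc hψ hψc
  have hcc : Continuous fun θ => ψ (ce θ) := hψ.continuous.comp ce_continuous
  have hcR : Continuous fun θ => Rf (bb l) i (ce θ) := (Rf_bb_cont l i).comp ce_continuous
  constructor
  · have e : ∀ z, (cc i + Rf u i z) * fderiv ℝ ψ z 1 + Rx ux i z * ψ z =
        cc i * fderiv ℝ ψ z 1 + (ψ z * Rx (f0x l) i z + fderiv ℝ ψ z 1 * Rf (bb l) i z) +
          (ψ z * (Rx ux i z - Rx (f0x l) i z) + fderiv ℝ ψ z 1 * (Rf u i z - Rf (bb l) i z)) := by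
      intro z; ring
    simp only [e]
    have i1 : IntegrableOn (fun z => cc i * fderiv ℝ ψ z 1) (Metric.ball (0:ℂ) 1) :=
      (L2.intOn s.lx).const_mul _
    have i2 := L2.intOn m0.lx
    have i3 := L2.intOn mT.lx
    have i12 : IntegrableOn (fun z => cc i * fderiv ℝ ψ z 1 + (ψ z * Rx (f0x l) i z +
      fderiv ℝ ψ z 1 * Rf (bb l) i z)) (Metric.ball (0:ℂ) 1) := i1.add i2
    rw [integral_add i12 i3, integral_add i1 i2, o1, g1, integral_const_mul, q1, add_zero,
      ← intervalIntegral.integral_const_mul]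
    have j1 : IntervalIntegrable (fun θ => cc i * (ψ (ce θ) * Real.cos θ)) volume (-π) π :=
      (continuous_const.mul (hcc.mul Real.continuous_cos)).intervalIntegrable _ _
    have j2 : IntervalIntegrable (fun θ => ψ (ce θ) * Rf (bb l) i (ce θ) * Real.cos θ)
      volume (-π) π := ((hcc.mul hcR).mul Real.continuous_cos).intervalIntegrable _ _
    rw [← intervalIntegral.integral_add j1 j2]
    congr 1; ext θ
    rw [← bdry]; ring
  · have e : ∀ z, (cc i + Rf u i z) * fderiv ℝ ψ z Complex.I + Ry uy i z * ψ z =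
        cc i * fderiv ℝ ψ z Complex.I + (ψ z * Ry (f0y l) i z +
          fderiv ℝ ψ z Complex.I * Rf (bb l) i z) +
          (ψ z * (Ry uy i z - Ry (f0y l) i z) +
            fderiv ℝ ψ z Complex.I * (Rf u i z - Rf (bb l) i z)) := by
      intro z; ring
    simp only [e]
    have i1 : IntegrableOn (fun z => cc i * fderiv ℝ ψ z Complex.I) (Metric.ball (0:ℂ) 1) :=
      (L2.intOn s.ly).const_mul _
    have i2 := L2.intOn m0.ly
    have i3 := L2.intOn mT.ly
    have i12 : IntegrableOn (fun z => cc i * fderiv ℝ ψ z Complex.I + (ψ z * Ry (f0y l) i z +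
      fderiv ℝ ψ z Complex.I * Rf (bb l) i z)) (Metric.ball (0:ℂ) 1) := i1.add i2
    rw [integral_add i12 i3, integral_add i1 i2, o2, g2, integral_const_mul, q2, add_zero,
      ← intervalIntegral.integral_const_mul]
    have j1 : IntervalIntegrable (fun θ => cc i * (ψ (ce θ) * Real.sin θ)) volume (-π) π :=
      (continuous_const.mul (hcc.mul Real.continuous_sin)).intervalIntegrable _ _
    have j2 : IntervalIntegrable (fun θ => ψ (ce θ) * Rf (bb l) i (ce θ) * Real.sin θ)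
      volume (-π) π := ((hcc.mul hcR).mul Real.continuous_sin).intervalIntegrable _ _
    rw [← intervalIntegral.integral_add j1 j2]
    congr 1; ext θ
    rw [← bdry]; ring

/-- the cut off test function -/
theorem cut_fderiv {φ : ℂ → ℝ} {z : ℂ} (hz : z ∈ Metric.ball (0:ℂ) 1)
    (v : ℂ) : fderiv ℝ (fun w => bp w * φ w) z v = fderiv ℝ φ z v := by
  have h1 : (fun w => bp w * φ w) =ᶠ[𝓝 z] φ := by
    filter_upwards [Metric.isOpen_ball.mem_nhds hz] with w hw
    rw [bp_one (by rw [mem_ball_zero_iff] at hw; exact hw.le), one_mul]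
  rw [h1.fderiv_eq]

/-- the trace formula for all smooth test functions -/
theorem trace_all {l : ℕ} {u ux uy : Fin 3 → ℂ → ℝ} (h : Adm Dp cc (bb l) u ux uy) (i : Fin 3)
    {φ : ℂ → ℝ} (hφ : ContDiff ℝ ∞ φ) :
    (∫ z in Metric.ball (0:ℂ) 1, ((cc i + Rf u i z) * fderiv ℝ φ z 1 + Rx ux i z * φ z) =
      ∫ θ in (0:ℝ)..(2 * π), gg l θ i * φ (Complex.exp (θ * Complex.I)) * Real.cos θ) ∧
    (∫ z in Metric.ball (0:ℂ) 1, ((cc i + Rf u i z) * fderiv ℝ φ z Complex.I + Ry uy i z * φ z) =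
      ∫ θ in (0:ℝ)..(2 * π), gg l θ i * φ (Complex.exp (θ * Complex.I)) * Real.sin θ) := by
  have hψ : ContDiff ℝ ∞ fun w => bp w * φ w := bp.contDiff.mul hφ
  have hψc : HasCompactSupport fun w => bp w * φ w := bp.hasCompactSupport.mul_right
  obtain ⟨t1, t2⟩ := trace_cc h i hψ hψc
  have per : ∀ k : ℝ → ℝ, (∀ θ, k (θ + 2 * π) = k θ) →
      ∫ θ in (-π)..π, k θ = ∫ θ in (0:ℝ)..(2 * π), k θ := by
    intro k hk
    have hp : Function.Periodic k (2 * π) := hk
    have h1 := hp.intervalIntegral_add_eq (-π) 0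
    rw [show -π + 2 * π = π by ring, zero_add] at h1
    exact h1
  have hgg : ∀ θ, gg l (θ + 2 * π) i = gg l θ i := by
    intro θ
    have e : (2 * l * (θ + 2 * π) : ℝ) = 2 * l * θ + ((2 * l : ℕ) : ℝ) * (2 * π) := by
      push_cast; ring
    have hc : Real.cos (2 * l * (θ + 2 * π)) = Real.cos (2 * l * θ) := by
      rw [e, Real.cos_add_nat_mul_two_pi]
    have hs : Real.sin (2 * l * (θ + 2 * π)) = Real.sin (2 * l * θ) := by
      rw [e, Real.sin_add_nat_mul_two_pi]
    fin_cases i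
    · exact hc
    · exact hs
    · rfl
  have hce : ∀ θ, ce (θ + 2 * π) = ce θ := by
    intro θ; unfold ce; rw [Real.cos_add_two_pi, Real.sin_add_two_pi]
  constructor
  · rw [← per _ fun θ => by rw [hgg, ← ce_exp, ← ce_exp, hce, Real.cos_add_two_pi]]
    have e1 : ∫ θ in (-π)..π, gg l θ i * φ (Complex.exp (θ * Complex.I)) * Real.cos θ =
        ∫ θ in (-π)..π, gg l θ i * (bp (ce θ) * φ (ce θ)) * Real.cos θ := by
      congr 1; ext θ
      rw [← ce_exp, bp_one (ce_norm θ).le, one_mul]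
    rw [e1, ← t1]
    refine setIntegral_congr_fun Metric.isOpen_ball.measurableSet fun z hz => ?_
    rw [cut_fderiv hz, bp_one (by rw [mem_ball_zero_iff] at hz; exact hz.le), one_mul]
  · rw [← per _ fun θ => by rw [hgg, ← ce_exp, ← ce_exp, hce, Real.sin_add_two_pi]]
    have e1 : ∫ θ in (-π)..π, gg l θ i * φ (Complex.exp (θ * Complex.I)) * Real.sin θ =
        ∫ θ in (-π)..π, gg l θ i * (bp (ce θ) * φ (ce θ)) * Real.sin θ := by
      congr 1; ext θ
      rw [← ce_exp, bp_one (ce_norm θ).le, one_mul]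
    rw [e1, ← t2]
    refine setIntegral_congr_fun Metric.isOpen_ball.measurableSet fun z hz => ?_
    rw [cut_fderiv hz, bp_one (by rw [mem_ball_zero_iff] at hz; exact hz.le), one_mul]

end Pool.Agent.H617_HM
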