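import Pool.Agent.H617_HM.X4

/-!
# Energy and sequences
-/

set_option autoImplicit false

open MeasureTheory Filter Topology Set
open scoped ContDiff Real

namespace Pool.Agent.H617_HM

open Pool.Agent.Helper985.VR

theorem ball_split {F : ℂ → ℝ} (hFi : Integrable F) :
    ∫ z in Metric.ball (0:ℂ) 1, F z = ∫ z in Dp, (F z + F ((starRingEnd ℂ) z)) := by
  have hDmm : MeasurableSet Dm := mp_conj.measurable Dp_meas
  have hsplit : ∫ z in Metric.ball (0:ℂ) 1, F z = (∫ z in Dp, F z) + ∫ z in Dm, F z := by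
    have h1 : (Metric.ball (0:ℂ) 1 : Set ℂ) =ᵐ[volume] (Dp ∪ Dm : Set ℂ) := by
      filter_upwards [im_ne_zero_ae] with z hz
      apply propext
      show z ∈ Metric.ball (0:ℂ) 1 ↔ z ∈ Dp ∪ Dm
      constructor
      · intro h1
        rcases lt_or_gt_of_ne hz with h2 | h2
        · right
          refine ⟨?_, ?_⟩
          · rw [mem_ball_zero_iff] at h1 ⊢
            rwa [Complex.norm_conj]
          · show 0 < ((starRingEnd ℂ) z).im
            rw [Complex.conj_im]; linarith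
        · exact Or.inl ⟨h1, h2⟩
      · rintro (h1 | h1)
        · exact h1.1
        · have h2 := h1.1
          rw [mem_ball_zero_iff] at h2 ⊢
          rwa [Complex.norm_conj] at h2
    rw [setIntegral_congr_set h1, setIntegral_union ?_ hDmm hFi.integrableOn hFi.integrableOn]
    rw [Set.disjoint_left]
    intro z h1 h2
    have h3 : 0 < z.im := h1.2
    have h4 : 0 < ((starRingEnd ℂ) z).im := h2.2
    rw [Complex.conj_im] at h4
    linarith
  have hDm : ∫ z in Dm, F z = ∫ z in Dp, F ((starRingEnd ℂ) z) := by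
    rw [← integral_indicator hDmm, ← integral_indicator Dp_meas, ← integral_comp_conj]
    congr 1; ext z
    by_cases hz : z ∈ Dp
    · rw [indicator_of_mem hz, indicator_of_mem (by
        show (starRingEnd ℂ) ((starRingEnd ℂ) z) ∈ Dp
        rwa [Complex.conj_conj])]
    · rw [indicator_of_notMem hz, indicator_of_notMem (by
        show ¬ (starRingEnd ℂ) ((starRingEnd ℂ) z) ∈ Dp
        rwa [Complex.conj_conj])]
  have hFc : Integrable fun z => F ((starRingEnd ℂ) z) := mp_conj.integrable_comp_of_integrable hFi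
  rw [hsplit, hDm, ← integral_add hFi.integrableOn hFc.integrableOn]

/-- the energy of the reflected map -/
theorem energy_eq {l : ℕ} {u ux uy : Fin 3 → ℂ → ℝ} (h : Adm Dp cc (bb l) u ux uy) :
    ∫ z in Metric.ball (0:ℂ) 1, eD (Rx ux) (Ry uy) z = 2 * EN Dp ux uy := by
  have hR : ∀ i, S1 (Rf u i) (Rx ux i) (Ry uy i) := fun i => Rf_S1 (h.s1 i)
  have heI : Integrable (eD (Rx ux) (Ry uy)) := by
    unfold eD
    exact integrable_finsetSum _ fun i _ => (hR i).lx.2.add (hR i).ly.2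
  rw [ball_split heI]
  unfold EN
  rw [← integral_const_mul]
  refine setIntegral_congr_ae Dp_meas ?_
  filter_upwards [Rf_vals h] with z k1 hz
  have k := k1 hz
  have q1 : eD (Rx ux) (Ry uy) z = eD ux uy z := by
    unfold eD
    exact Finset.sum_congr rfl fun i _ => by rw [(k i).1.2.1, (k i).1.2.2]
  have q2 : eD (Rx ux) (Ry uy) ((starRingEnd ℂ) z) = eD ux uy z := by
    unfold eD
    refine Finset.sum_congr rfl fun i _ => ?_
    rw [(k i).2.2.1, (k i).2.2.2]
    linear_combination (ux i z ^ 2 + uy i z ^ 2) * sg_sq i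
  rw [q1, q2]; ring

/-- the reflected map has values in the sphere -/
theorem sphere_ae {l : ℕ} {u ux uy : Fin 3 → ℂ → ℝ} (h : Adm Dp cc (bb l) u ux uy) :
    ∀ᵐ z, z ∈ Metric.ball (0:ℂ) 1 → ∑ i, (cc i + Rf u i z) ^ 2 = 1 := by
  have h1 : ∀ᵐ z, z ∈ Dp → ∑ i, (cc i + Rf u i z) ^ 2 = 1 ∧
      ∑ i, (cc i + Rf u i ((starRingEnd ℂ) z)) ^ 2 = 1 := by
    filter_upwards [Rf_vals h, h.unit] with z k1 k2 hz
    have k := k1 hz
    have n := k2 hz
    constructor
    · simp only [(k _).1.1, Fin.sum_univ_three]; exact n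
    · simp only [(k _).2.1, Fin.sum_univ_three]
      linear_combination n + u 0 z ^ 2 * sg_sq 0 + u 1 z ^ 2 * sg_sq 1 + u 2 z ^ 2 * sg_sq 2
  filter_upwards [h1, ae_conj h1, im_ne_zero_ae] with z k1 k2 k3 hz
  rcases lt_or_gt_of_ne k3 with h2 | h2
  · have h3 : (starRingEnd ℂ) z ∈ Dp := by
      refine ⟨?_, ?_⟩
      · rw [mem_ball_zero_iff] at hz ⊢
        rwa [Complex.norm_conj]
      · show 0 < ((starRingEnd ℂ) z).im
        rw [Complex.conj_im]; linarith
    have := (k2 h3).2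
    rwa [Complex.conj_conj] at this
  · exact (k1 ⟨hz, h2⟩).1

/-- almost everywhere equal maps have the same energy -/
theorem energy_unique {l : ℕ} {u ux uy v vx vy : Fin 3 → ℂ → ℝ}
    (h : Adm Dp cc (bb l) u ux uy) (h' : Adm Dp cc (bb l) v vx vy)
    (e : ∀ᵐ z, z ∈ Metric.ball (0:ℂ) 1 → ∀ i, cc i + Rf u i z = cc i + Rf v i z) :
    EN Dp ux uy = EN Dp vx vy := by
  have h1 : 2 * EN Dp ux uy = 2 * EN Dp vx vy := by
    rw [← energy_eq h, ← energy_eq h']
    refine setIntegral_congr_ae Metric.isOpen_ball.measurableSet ?_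
    have hz : ∀ i, ∀ᵐ z, z ∈ Metric.ball (0:ℂ) 1 → Rx ux i z = Rx vx i z ∧
        Ry uy i z = Ry vy i z := by
      intro i
      filter_upwards [e, ((Rf_S1 (h.s1 i)).sub (Rf_S1 (h'.s1 i))).zero_set] with z k1 k2 hz
      obtain ⟨a, b⟩ := k2 (by linarith [k1 hz i])
      exact ⟨by linarith, by linarith⟩
    filter_upwards [hz 0, hz 1, hz 2] with z k0 k1 k2 hzb
    unfold eD
    rw [Fin.sum_univ_three, Fin.sum_univ_three, (k0 hzb).1, (k0 hzb).2, (k1 hzb).1, (k1 hzb).2,
      (k2 hzb).1, (k2 hzb).2]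
  linarith

/-- a sequence of minimizers with strictly increasing energies -/
theorem exists_seq {l : ℕ} (hl : 0 < l) : ∃ (s : ℕ → ℝ) (u ux uy : ℕ → Fin 3 → ℂ → ℝ),
    (∀ n, IsMin Dp cc (bb l) (s n) (u n) (ux n) (uy n)) ∧
    StrictMono (fun n => EN Dp (ux n) (uy n)) ∧ ∀ n : ℕ, (n:ℝ) < EN Dp (ux n) (uy n) := by
  choose S U Ux Uy hU using fun K : ℝ => unbounded hl K
  set e : ℝ → ℝ := fun K => EN Dp (Ux K) (Uy K) with he
  have hek : ∀ K, K < e K := fun K => (hU K).2
  set κ : ℕ → ℝ := fun n => Nat.rec (0:ℝ) (fun k x => max (e x) ((k:ℝ) + 1)) n with hκ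
  have hκ1 : ∀ n, κ (n + 1) = max (e (κ n)) ((n:ℝ) + 1) := fun n => rfl
  have hκn : ∀ n : ℕ, (n:ℝ) ≤ κ n := by
    intro n
    cases n with
    | zero => simp [hκ]
    | succ k => rw [hκ1 k]; push_cast; exact le_max_right _ _
  refine ⟨fun n => S (κ n), fun n => U (κ n), fun n => Ux (κ n), fun n => Uy (κ n),
    fun n => (hU (κ n)).1, strictMono_nat_of_lt_succ fun n => ?_, fun n => ?_⟩
  · have h1 : e (κ n) ≤ κ (n + 1) := by rw [hκ1 n]; exact le_max_left _ _
    exact h1.trans_lt (hek _)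
  · exact (hκn n).trans_lt (hek _)

end Pool.Agent.H617_HM
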